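import Pool.Agent.HH27.SN.Ax

set_option autoImplicit false

/-! The iterated integrals of the argument as moments of the logarithm of zeta. -/

namespace Pool.Agent.HH27.SN

open Complex Filter Topology Set MeasureTheory Metric Pool.Agent.R305.SK

noncomputable section

lemma ord_gz (hRH : RiemannHypothesis) {t : ℝ} (ht : 0 < t) (h : IsOrd t) : gz (((1 / 2 : ℝ) : ℂ) + t * I) = 0 := by
  obtain ⟨s, hs, hst⟩ := h
  have hne := ne_of_im (s := s) (by rw [hst]; exact ht.ne')
  have h1 : s.re = 1 / 2 := by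
    refine hRH s hs ?_ hne.2
    rintro ⟨n, hn⟩
    have := congrArg Complex.im hn
    simp at this
    rw [hst] at this
    exact ht.ne' this
  have h2 : ((1 / 2 : ℝ) : ℂ) + t * I = s := by
    apply Complex.ext <;> simp [h1, hst]
  rw [h2, gz_eq hne.1 hne.2, hs, mul_zero]

lemma gz_zeros_countable : {t : ℝ | gz (((1 / 2 : ℝ) : ℂ) + t * I) = 0}.Countable := by
  have hloc : ∀ t : ℝ, ∃ U ∈ 𝓝 t, ∀ u ∈ U, gz (((1 / 2 : ℝ) : ℂ) + u * I) = 0 → u = t := by
    intro t
    obtain ⟨r, m, h, hr, ha, h0, hg⟩ := gz_order (s0 := ((1 / 2 : ℝ) : ℂ) + t * I) (by simp)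
    refine ⟨(fun u : ℝ => (((1 / 2 : ℝ) : ℂ) + u * I)) ⁻¹' ball (((1 / 2 : ℝ) : ℂ) + t * I) r, ?_, ?_⟩
    · have hc : ContinuousAt (fun u : ℝ => (((1 / 2 : ℝ) : ℂ) + u * I)) t := by fun_prop
      exact hc.preimage_mem_nhds (ball_mem_nhds _ hr)
    · intro u hu h1
      rw [hg _ hu] at h1
      rcases mul_eq_zero.1 h1 with h2 | h2
      · have h4 := eq_zero_of_pow_eq_zero h2
        have h5 := congrArg Complex.im h4
        simp at h5
        linarith
      · exact absurd h2 (h0 _ hu)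
  choose U hU hU2 using hloc
  obtain ⟨s, hs, hs2⟩ := TopologicalSpace.countable_cover_nhds hU
  refine hs.mono fun u hu => ?_
  have h1 : u ∈ ⋃ x ∈ s, U x := by rw [hs2]; exact mem_univ u
  simp only [mem_iUnion] at h1
  obtain ⟨x, hx, hux⟩ := h1
  rw [hU2 x u hux hu]
  exact hx

lemma ae_not_ord (hRH : RiemannHypothesis) : ∀ᵐ τ ∂(volume : Measure ℝ), 0 < τ → ¬ IsOrd τ := by
  have h : (volume : Measure ℝ) {t : ℝ | gz (((1 / 2 : ℝ) : ℂ) + t * I) = 0} = 0 :=
    gz_zeros_countable.measure_zero volume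
  have h2 : ∀ᵐ τ : ℝ ∂(volume : Measure ℝ), gz (((1 / 2 : ℝ) : ℂ) + τ * I) ≠ 0 := by
    rw [ae_iff]
    simpa using h
  filter_upwards [h2] with τ hτ h0 ho
  exact hτ (ord_gz hRH h0 ho)

lemma Sarg_lim (hRH : RiemannHypothesis) {t : ℝ} (ht : 0 < t) (ho : ¬ IsOrd t) :
    Tendsto (fun x : ℝ => (ell (x + t * I)).im) (𝓝[>] (1 / 2)) (𝓝 (Real.pi * Sarg t)) := by
  -- vertical part
  have hv : (ell ((2:ℝ) + t * I)).im = ∫ u in (0:ℝ)..t, (logDeriv riemannZeta ((2 : ℂ) + u * I)).re := by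
    have h1 : ∫ u in (0:ℝ)..t, (logDeriv riemannZeta ((2 : ℂ) + u * I)).re =
        (ell ((2:ℝ) + t * I)).im - (ell ((2:ℝ) + (0:ℝ) * I)).im := by
      refine intervalIntegral.integral_eq_sub_of_hasDerivAt (f := fun u : ℝ => (ell ((2:ℝ) + u * I)).im) ?_ ?_
      · intro u _
        have e1 := ell_deriv1 hRH (s := (2:ℝ) + u * I) (by simp)
        have e2 : HasDerivAt (fun u : ℝ => (((2:ℝ) : ℂ) + u * I)) I u := by
          have := ((Complex.ofRealCLM.hasDerivAt (x := u)).mul_const I).const_add ((2:ℝ) : ℂ)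
          simpa using this
        have e3 := HasDerivAt.comp_of_eq (h₂ := ell) (h := fun u : ℝ => (((2:ℝ) : ℂ) + u * I)) u e1 e2 rfl
        have e4 := (Complex.imCLM.hasFDerivAt (x := ell (((2:ℝ) : ℂ) + u * I))).comp_hasDerivAt u e3
        have e5 : imCLM (logDeriv riemannZeta (((2:ℝ) : ℂ) + u * I) * I) = (logDeriv riemannZeta ((2 : ℂ) + u * I)).re := by
          simp
        rw [e5] at e4
        exact e4
      · refine Continuous.intervalIntegrable ?_ _ _
        refine continuous_iff_continuousAt.2 fun u => ?_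
        have h1 : ContinuousAt (logDeriv riemannZeta) ((2:ℂ) + u * I) :=
          ld_analytic hRH (by simp; norm_num) (by
            intro h
            have := congrArg Complex.re h
            simp at this)
        have h2 : ContinuousAt (fun u : ℝ => logDeriv riemannZeta ((2:ℂ) + u * I)) u :=
          ContinuousAt.comp (f := fun u : ℝ => ((2 : ℂ) + u * I)) h1 (by fun_prop)
        exact Complex.continuous_re.continuousAt.comp h2
    rw [h1]
    have h2 := ell_im_gt hRH (x := 2) (by norm_num)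
    have h3 : (((2:ℝ) : ℂ) + ((0:ℝ) : ℂ) * I) = ((2:ℝ) : ℂ) := by simp
    rw [h3, h2, sub_zero]
  -- continuity of the horizontal integrand
  have hc : ∀ x ∈ Icc (1 / 2 : ℝ) 2, ContinuousAt (fun x : ℝ => (logDeriv riemannZeta ((x : ℂ) + t * I)).im) x := by
    intro x hx
    have hne := ne_one_of_im (v := x) ht.ne'
    have hz : riemannZeta ((x : ℂ) + t * I) ≠ 0 := fun h => ho ⟨_, h, by simp⟩
    have h1' : AnalyticAt ℂ riemannZeta ((x : ℂ) + t * I) := by
      have hdd : DifferentiableOn ℂ riemannZeta {s : ℂ | s ≠ 1} :=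
        fun w hw => (differentiableAt_riemannZeta hw).differentiableWithinAt
      exact (hdd.analyticOnNhd isOpen_ne) _ hne
    have h1 : ContinuousAt (logDeriv riemannZeta) ((x : ℂ) + t * I) := (h1'.deriv.div h1' hz).continuousAt
    have h2 : ContinuousAt (fun x : ℝ => logDeriv riemannZeta ((x : ℂ) + t * I)) x :=
      ContinuousAt.comp (f := fun x : ℝ => ((x : ℂ) + t * I)) h1 (by fun_prop)
    exact Complex.continuous_im.continuousAt.comp h2
  have hcon : ContinuousOn (fun x : ℝ => (logDeriv riemannZeta ((x : ℂ) + t * I)).im) (Icc (1 / 2) 2) :=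
    fun x hx => (hc x hx).continuousWithinAt
  obtain ⟨C, hC⟩ := isCompact_Icc.exists_bound_of_continuousOn hcon
  have hii : ∀ a b, a ∈ Icc (1 / 2 : ℝ) 2 → b ∈ Icc (1 / 2 : ℝ) 2 →
      IntervalIntegrable (fun x : ℝ => (logDeriv riemannZeta ((x : ℂ) + t * I)).im) volume a b := by
    intro a b ha hb
    exact (hcon.mono (uIcc_subset_Icc ha hb)).intervalIntegrable
  have hform : ∀ x : ℝ, 1 / 2 < x → x ≤ 2 → (ell (x + t * I)).im = Real.pi * Sarg t +
      ∫ x' in (1 / 2 : ℝ)..x, (logDeriv riemannZeta ((x' : ℂ) + t * I)).im := by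
    intro x hx hx2
    have h1 : ∫ x' in x..2, (logDeriv riemannZeta ((x' : ℂ) + t * I)).im = (ell ((2:ℝ) + t * I)).im - (ell (x + t * I)).im := by
      refine intervalIntegral.integral_eq_sub_of_hasDerivAt (f := fun u : ℝ => (ell (u + t * I)).im) ?_ ?_
      · intro u hu
        rw [uIcc_of_le hx2] at hu
        have e3 := ell_hasDeriv_horiz hRH (v := u) (y := t) (by linarith [hu.1]) ht
        exact (Complex.imCLM.hasFDerivAt (x := ell ((u : ℂ) + t * I))).comp_hasDerivAt u e3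
      · exact hii _ _ ⟨hx.le, hx2⟩ ⟨by norm_num, le_rfl⟩
    have h2 := intervalIntegral.integral_add_adjacent_intervals (hii (1 / 2) x ⟨le_rfl, by norm_num⟩ ⟨hx.le, hx2⟩)
      (hii x 2 ⟨hx.le, hx2⟩ ⟨by norm_num, le_rfl⟩)
    unfold Sarg
    rw [← hv, ← h2, h1]
    have := Real.pi_ne_zero
    field_simp
    ring
  have hlim : Tendsto (fun x : ℝ => Real.pi * Sarg t + ∫ x' in (1 / 2 : ℝ)..x, (logDeriv riemannZeta ((x' : ℂ) + t * I)).im)
      (𝓝[>] (1 / 2)) (𝓝 (Real.pi * Sarg t)) := by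
    have h3 : Tendsto (fun x : ℝ => ∫ x' in (1 / 2 : ℝ)..x, (logDeriv riemannZeta ((x' : ℂ) + t * I)).im)
        (𝓝[>] (1 / 2)) (𝓝 0) := by
      rw [tendsto_zero_iff_norm_tendsto_zero]
      have h4 : Tendsto (fun x : ℝ => C * |x - 1 / 2|) (𝓝[>] (1 / 2)) (𝓝 0) := by
        have : Tendsto (fun x : ℝ => C * |x - 1 / 2|) (𝓝 (1 / 2)) (𝓝 (C * |(1:ℝ) / 2 - 1 / 2|)) := by
          apply Continuous.tendsto
          fun_prop
        rw [sub_self, abs_zero, mul_zero] at this
        exact this.mono_left nhdsWithin_le_nhds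
      refine squeeze_zero' (Eventually.of_forall fun _ => norm_nonneg _) ?_ h4
      have h5 : ∀ᶠ x : ℝ in 𝓝[>] (1 / 2), x < 2 :=
        (gt_mem_nhds (by norm_num : (1:ℝ) / 2 < 2)).filter_mono nhdsWithin_le_nhds
      filter_upwards [self_mem_nhdsWithin, h5] with x hx hx2
      have hx' : (1:ℝ) / 2 < x := hx
      refine intervalIntegral.norm_integral_le_of_norm_le_const fun y hy => ?_
      rw [uIoc_of_le hx'.le] at hy
      exact hC y ⟨hy.1.le, by linarith [hy.2]⟩
    have := h3.const_add (Real.pi * Sarg t)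
    rwa [add_zero] at this
  refine hlim.congr' ?_
  have h5 : ∀ᶠ x : ℝ in 𝓝[>] (1 / 2), x < 2 :=
    (gt_mem_nhds (by norm_num : (1:ℝ) / 2 < 2)).filter_mono nhdsWithin_le_nhds
  filter_upwards [self_mem_nhdsWithin, h5] with x hx hx2
  exact (hform x hx hx2.le).symm

lemma base (hRH : RiemannHypothesis) {t : ℝ} (ht : 0 < t) :
    (KK 0 (1 / 2) t).re - (KK 0 (1 / 2) 0).re = Real.pi * ∫ τ in (0:ℝ)..t, Sfun τ := by
  have h1 := (KK_cont hRH 0 (x0 := 1 / 2) (y0 := t) le_rfl ht.le).comp (top_seq ht)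
  have h2 := (KK_cont hRH 0 (x0 := 1 / 2) (y0 := 0) le_rfl le_rfl).comp (corner_seq ht)
  obtain ⟨C, hC, hb⟩ := ell_im_bd hRH t
  have hcm : ∀ x : ℝ, 1 / 2 < x → ContinuousOn (fun τ : ℝ => ell (x + τ * I)) (Ioi 0) := by
    intro x hx τ hτ
    exact (ell_hasDeriv_vert hRH hx hτ).continuousAt.continuousWithinAt
  have h3 := lim_int (f := fun x τ => (ell (x + τ * I)).im) (g := fun τ => Real.pi * Sfun τ) (C := C) ht
    (fun x τ hx hx3 h0 h1 => by
      rw [Real.norm_eq_abs]
      exact hb x τ hx hx3 (by rw [abs_of_pos h0]; exact h1))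
    (fun x hx => Complex.continuous_im.comp_continuousOn (hcm x hx)) (by
      filter_upwards [ae_not_ord hRH] with τ hτ h0
      have h4 := Sarg_lim hRH h0 (hτ h0)
      have h5 : Sfun τ = Sarg τ := by
        unfold Sfun
        rw [if_neg (hτ h0)]
      rw [h5]
      exact h4)
  rw [intervalIntegral.integral_const_mul] at h3
  have h5 := (Complex.continuous_re.tendsto _).comp (h1.sub h2)
  rw [sub_re] at h5
  refine tendsto_nhds_unique h5 (h3.congr fun k => ?_)
  have h0 : (0:ℝ) ≤ k := Nat.cast_nonneg k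
  have h6 : (1:ℝ) / 2 < 1 / 2 + 1 / ((k : ℝ) + 1) := by
    have : (0:ℝ) < 1 / ((k : ℝ) + 1) := by positivity
    linarith
  have h7 := vert0 hRH h6 (y1 := t / ((k : ℝ) + 1)) (y2 := t) (by positivity) (div_le_self ht.le (by linarith))
  have h8 : (KK 0 (1 / 2 + 1 / ((k : ℝ) + 1)) t - KK 0 (1 / 2 + 1 / ((k : ℝ) + 1)) (t / ((k : ℝ) + 1))).re =
      ∫ τ in (t / ((k : ℝ) + 1))..t, (ell (((1 / 2 + 1 / ((k : ℝ) + 1) : ℝ) : ℂ) + τ * I)).im := by
    rw [h7]
    have h9 : (-I * ∫ τ in (t / ((k : ℝ) + 1))..t, ell (((1 / 2 + 1 / ((k : ℝ) + 1) : ℝ) : ℂ) + τ * I)).re =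
        (∫ τ in (t / ((k : ℝ) + 1))..t, ell (((1 / 2 + 1 / ((k : ℝ) + 1) : ℝ) : ℂ) + τ * I)).im := by
      simp
    rw [h9]
    have hii : IntervalIntegrable (fun τ : ℝ => ell (((1 / 2 + 1 / ((k : ℝ) + 1) : ℝ) : ℂ) + τ * I)) volume (t / ((k : ℝ) + 1)) t := by
      refine ((hcm _ h6).mono ?_).intervalIntegrable
      rw [uIcc_of_le (div_le_self ht.le (by linarith))]
      intro u hu
      exact lt_of_lt_of_le (by positivity) hu.1
    have := (Complex.imCLM).intervalIntegral_comp_comm hii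
    exact this.symm
  exact h8.symm

/-- the iterated integrals of `S` as moments of the logarithm of zeta -/
theorem Sn_eq (hRH : RiemannHypothesis) (m : ℕ) : ∀ t : ℝ, 0 ≤ t →
    Sn (m + 1) t = 1 / Real.pi * ((I ^ (m + 1) * KK m (1 / 2) t).im / m.factorial) := by
  have hpi := Real.pi_ne_zero
  induction m with
  | zero =>
    intro t ht
    have h1 : Sn (0 + 1) t = (∫ u in (0:ℝ)..t, Sfun u) + del (0 + 1) := rfl
    rw [h1, del_eq hRH 0]
    rcases eq_or_lt_of_le ht with h | h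
    · rw [← h, intervalIntegral.integral_same, zero_add]
    · have h2 := base hRH h
      simp only [zero_add, pow_one, Nat.factorial_zero, Nat.cast_one, div_one]
      have e : ∀ z : ℂ, (I * z).im = z.re := by intro z; simp
      rw [e, e]
      field_simp
      linarith
  | succ m ih =>
    intro t ht
    have h1 : Sn (m + 1 + 1) t = (∫ u in (0:ℝ)..t, Sn (m + 1) u) + del (m + 1 + 1) := rfl
    rw [h1, del_eq hRH (m + 1)]
    rcases eq_or_lt_of_le ht with h | h
    · rw [← h, intervalIntegral.integral_same, zero_add]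
    · have h2 := step_corner hRH m h
      have h3 : ∫ u in (0:ℝ)..t, Sn (m + 1) u = ∫ u in (0:ℝ)..t, 1 / Real.pi * ((I ^ (m + 1) * KK m (1 / 2) u).im / m.factorial) := by
        refine intervalIntegral.integral_congr fun u hu => ?_
        rw [uIcc_of_le ht] at hu
        exact ih u hu.1
      have hii : IntervalIntegrable (KK m (1 / 2)) volume 0 t := by
        refine ((KK_contOn hRH m (x := 1 / 2) le_rfl).mono ?_).intervalIntegrable
        rw [uIcc_of_le ht]
        exact Icc_subset_Ici_self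
      have h4 : ∫ u in (0:ℝ)..t, (I ^ (m + 1) * KK m (1 / 2) u).im = (I ^ (m + 1) * ∫ u in (0:ℝ)..t, KK m (1 / 2) u).im := by
        rw [← intervalIntegral.integral_const_mul]
        exact (Complex.imCLM).intervalIntegral_comp_comm (hii.const_mul _)
      rw [h3, intervalIntegral.integral_const_mul, intervalIntegral.integral_div, h4]
      have h5 : KK (m + 1) (1 / 2) t = KK (m + 1) (1 / 2) 0 + -((m + 1 : ℕ) : ℂ) * I * ∫ τ in (0:ℝ)..t, KK m (1 / 2) τ := by
        rw [← h2]; ring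
      rw [h5, mul_add, add_im]
      have h6 : I ^ (m + 1 + 1) * (-((m + 1 : ℕ) : ℂ) * I * ∫ τ in (0:ℝ)..t, KK m (1 / 2) τ) =
          (((m + 1 : ℕ) : ℝ) : ℂ) * (I ^ (m + 1) * ∫ τ in (0:ℝ)..t, KK m (1 / 2) τ) := by
        have hI : I * I = -1 := Complex.I_mul_I
        calc I ^ (m + 1 + 1) * (-((m + 1 : ℕ) : ℂ) * I * ∫ τ in (0:ℝ)..t, KK m (1 / 2) τ)
            = -(I * I) * ((m + 1 : ℕ) : ℂ) * (I ^ (m + 1) * ∫ τ in (0:ℝ)..t, KK m (1 / 2) τ) := by
              rw [pow_succ I (m + 1)]; ring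
          _ = _ := by rw [hI]; push_cast; ring
      rw [h6, Complex.im_ofReal_mul, Nat.factorial_succ]
      have h7 : (m.factorial : ℝ) ≠ 0 := by positivity
      push_cast
      field_simp
      ring

end

end Pool.Agent.HH27.SN
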