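import Pool.Agent.HH27.SN.KK2
import Pool.Agent.R305.SK.Def

set_option autoImplicit false

/-! Values of the moments on the real axis. -/

namespace Pool.Agent.HH27.SN

open Complex Filter Topology Set MeasureTheory Metric Pool.Agent.R305.SK

noncomputable section

lemma ell_re_axis (hRH : RiemannHypothesis) {v : ℝ} (hv : 1 / 2 < v) (h1 : v ≠ 1) :
    (ell (v + (0:ℝ) * I)).re = Real.log ‖riemannZeta (v : ℂ)‖ := by
  rw [ofReal_zero, zero_mul, add_zero]
  exact ell_re hRH (by simpa using hv) (by exact_mod_cast h1)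

/-- the real moments -/
lemma KK_re (hRH : RiemannHypothesis) (m : ℕ) {x : ℝ} (hx : 1 / 2 ≤ x) :
    (KK m x 0).re = ∫ v in Ioi x, (v - x) ^ m * Real.log ‖riemannZeta (v : ℂ)‖ := by
  have h := KK_integrable hRH m 0 hx
  have h1 : (KK m x 0).re = ∫ v in Ioi x, (((v - x : ℝ) : ℂ) ^ m * ell (v + (0:ℝ) * I)).re := by
    unfold KK
    exact (integral_re h).symm
  rw [h1]
  refine setIntegral_congr_ae measurableSet_Ioi ?_
  filter_upwards [Measure.ae_ne volume (1:ℝ)] with v hv1 hv
  have hv' : x < v := hv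
  rw [← ell_re_axis hRH (by linarith) hv1, ← ofReal_pow, Complex.re_ofReal_mul]

lemma KK_re_int (hRH : RiemannHypothesis) (m : ℕ) {x : ℝ} (hx : 1 / 2 ≤ x) :
    IntegrableOn (fun v : ℝ => (v - x) ^ m * Real.log ‖riemannZeta (v : ℂ)‖) (Ioi x) := by
  have h := (KK_integrable hRH m 0 hx).re
  refine h.congr ?_
  filter_upwards [ae_restrict_mem measurableSet_Ioi, ae_ne_one _] with v hv hv1
  have hv' : x < v := hv
  rw [← ell_re_axis hRH (by linarith) hv1, ← ofReal_pow]
  exact Complex.re_ofReal_mul _ _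

lemma tri_int {x v : ℝ} (hv : x < v) (m : ℕ) :
    ∫ y in Ioi x, (Iio v).indicator (fun y => (v - y) ^ m) y = (v - x) ^ (m + 1) / (m + 1) := by
  rw [setIntegral_indicator measurableSet_Iio]
  have : Ioi x ∩ Iio v = Ioo x v := rfl
  rw [this, ← integral_Ioc_eq_integral_Ioo, ← intervalIntegral.integral_of_le hv.le]
  have h := intervalIntegral.integral_comp_sub_left (a := x) (b := v) (fun y : ℝ => y ^ m) v
  simp only [sub_self] at h
  rw [h, integral_pow]
  simp

lemma J_step (hRH : RiemannHypothesis) (m : ℕ) {x : ℝ} (hx : 1 / 2 ≤ x) :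
    ∫ y in Ioi x, (KK m y 0).re = (KK (m + 1) x 0).re / (m + 1) := by
  obtain ⟨W, hW, hW8, hW0, hd⟩ := dom hRH 0 m
  have hsub : Ioi x ⊆ Ioi (1 / 2) := Ioi_subset_Ioi hx
  -- the joint function
  have hJ : Integrable (Function.uncurry fun y v : ℝ => (Iio v).indicator (fun y => (v - y) ^ m) y *
      (ell (v + (0:ℝ) * I)).re) ((volume.restrict (Ioi x)).prod (volume.restrict (Ioi x))) := by
    have hdm : Integrable (fun p : ℝ × ℝ => Real.exp (-(1 / 8) * p.1) * (Real.exp (1 / 8 * p.2) * W p.2))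
        ((volume.restrict (Ioi x)).prod (volume.restrict (Ioi x))) :=
      Integrable.mul_prod (f := fun y : ℝ => Real.exp (-(1 / 8) * y))
        (g := fun v : ℝ => Real.exp (1 / 8 * v) * W v) (integrableOn_exp_mul_Ioi (by norm_num) x)
        (hW8.mono_set hsub)
    refine Integrable.mono' hdm ?_ ?_
    · refine AEStronglyMeasurable.mul ?_ ?_
      · have hm : Measurable (fun p : ℝ × ℝ => {p : ℝ × ℝ | p.1 < p.2}.indicator (fun p : ℝ × ℝ => (p.2 - p.1) ^ m) p) :=
          Measurable.indicator (by fun_prop) (measurableSet_lt measurable_fst measurable_snd)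
        refine hm.aestronglyMeasurable.congr (Eventually.of_forall fun p => ?_)
        show {p : ℝ × ℝ | p.1 < p.2}.indicator (fun p : ℝ × ℝ => (p.2 - p.1) ^ m) p =
          (Iio p.2).indicator (fun y => (p.2 - y) ^ m) p.1
        by_cases h : p.1 < p.2
        · rw [indicator_of_mem (show p ∈ {p : ℝ × ℝ | p.1 < p.2} from h), indicator_of_mem (show p.1 ∈ Iio p.2 from h)]
        · rw [indicator_of_notMem (show p ∉ {p : ℝ × ℝ | p.1 < p.2} from h), indicator_of_notMem (show p.1 ∉ Iio p.2 from h)]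
      · have h1 : AEStronglyMeasurable (fun v : ℝ => (ell (v + (0:ℝ) * I)).re) (volume.restrict (Ioi x)) :=
          (Complex.continuous_re.comp_aestronglyMeasurable (ell_horiz_aesm hRH 0)).mono_measure
            (Measure.restrict_mono_set _ hsub)
        exact h1.comp_snd
    · have hset : ((volume.restrict (Ioi x)).prod (volume.restrict (Ioi x)) : Measure (ℝ × ℝ)) =
          (volume.prod volume).restrict (Ioi x ×ˢ Ioi x) := Measure.prod_restrict _ _
      have hne : ∀ᵐ p ∂((volume.restrict (Ioi x)).prod (volume.restrict (Ioi x)) : Measure (ℝ × ℝ)), p.2 ≠ (1:ℝ) := by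
        exact Measure.quasiMeasurePreserving_snd.ae (ae_ne_one (Ioi x))
      have hmem : ∀ᵐ p ∂((volume.restrict (Ioi x)).prod (volume.restrict (Ioi x)) : Measure (ℝ × ℝ)), p ∈ Ioi x ×ˢ Ioi x := by
        rw [hset]
        exact ae_restrict_mem (measurableSet_Ioi.prod measurableSet_Ioi)
      filter_upwards [hmem, hne] with p hp hp1
      have hp2 : x < p.1 := hp.1
      have hp3 : x < p.2 := hp.2
      show ‖(Iio p.2).indicator (fun y => (p.2 - y) ^ m) p.1 * (ell (p.2 + (0:ℝ) * I)).re‖ ≤ _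
      by_cases h : p.1 < p.2
      · rw [indicator_of_mem (show p.1 ∈ Iio p.2 from h)]
        have h1 := hd p.1 p.2 0 (by linarith) h.le (by linarith) hp1 (by simp)
        have h2 : ‖(p.2 - p.1) ^ m * (ell (p.2 + (0:ℝ) * I)).re‖ ≤ ‖((p.2 - p.1 : ℝ) : ℂ) ^ m * ell (p.2 + (0:ℝ) * I)‖ := by
          rw [← ofReal_pow, ← Complex.re_ofReal_mul, Real.norm_eq_abs]
          exact Complex.abs_re_le_norm _
        have h3 : 1 ≤ Real.exp (-(1 / 8) * p.1) * Real.exp (1 / 8 * p.2) := by
          rw [← Real.exp_add]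
          apply Real.one_le_exp
          linarith
        calc ‖(p.2 - p.1) ^ m * (ell (p.2 + (0:ℝ) * I)).re‖ ≤ W p.2 := h2.trans h1
          _ ≤ (Real.exp (-(1 / 8) * p.1) * Real.exp (1 / 8 * p.2)) * W p.2 := le_mul_of_one_le_left (hW0 _) h3
          _ = _ := by ring
      · rw [indicator_of_notMem (show p.1 ∉ Iio p.2 from h), zero_mul, norm_zero]
        have := hW0 p.2
        positivity
  have hsw := integral_integral_swap hJ
  have e1 : ∫ y in Ioi x, (KK m y 0).re = ∫ y in Ioi x, ∫ v in Ioi x,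
      (Iio v).indicator (fun y => (v - y) ^ m) y * (ell (v + (0:ℝ) * I)).re := by
    refine setIntegral_congr_fun measurableSet_Ioi fun y hy => ?_
    have hy' : x < y := hy
    show (KK m y 0).re = _
    have e2 : (KK m y 0).re = ∫ v in Ioi y, (v - y) ^ m * (ell (v + (0:ℝ) * I)).re := by
      have h1 : (KK m y 0).re = ∫ v in Ioi y, (((v - y : ℝ) : ℂ) ^ m * ell (v + (0:ℝ) * I)).re := by
        unfold KK
        exact (integral_re (KK_integrable hRH m 0 (by linarith))).symm
      rw [h1]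
      refine setIntegral_congr_fun measurableSet_Ioi fun v _ => ?_
      show (((v - y : ℝ) : ℂ) ^ m * ell (v + (0:ℝ) * I)).re = _
      rw [← ofReal_pow, Complex.re_ofReal_mul]
    rw [e2]
    have e3 : Ioi y = Ioi x ∩ Ioi y := (inter_eq_self_of_subset_right (Ioi_subset_Ioi hy'.le)).symm
    rw [e3, ← setIntegral_indicator measurableSet_Ioi]
    refine setIntegral_congr_fun measurableSet_Ioi fun v _ => ?_
    show (Ioi y).indicator (fun v => (v - y) ^ m * (ell (v + (0:ℝ) * I)).re) v = _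
    by_cases h : y < v
    · rw [indicator_of_mem (show v ∈ Ioi y from h), indicator_of_mem (show y ∈ Iio v from h)]
    · rw [indicator_of_notMem (show v ∉ Ioi y from h), indicator_of_notMem (show y ∉ Iio v from h), zero_mul]
  rw [e1, hsw]
  have e4 : (KK (m + 1) x 0).re = ∫ v in Ioi x, (v - x) ^ (m + 1) * (ell (v + (0:ℝ) * I)).re := by
    have h1 : (KK (m + 1) x 0).re = ∫ v in Ioi x, (((v - x : ℝ) : ℂ) ^ (m + 1) * ell (v + (0:ℝ) * I)).re := by
      unfold KK
      exact (integral_re (KK_integrable hRH (m + 1) 0 hx)).symm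
    rw [h1]
    refine setIntegral_congr_fun measurableSet_Ioi fun v _ => ?_
    show (((v - x : ℝ) : ℂ) ^ (m + 1) * ell (v + (0:ℝ) * I)).re = _
    rw [← ofReal_pow, Complex.re_ofReal_mul]
  rw [e4, ← integral_div]
  refine setIntegral_congr_fun measurableSet_Ioi fun v hv => ?_
  show ∫ y in Ioi x, (Iio v).indicator (fun y => (v - y) ^ m) y * (ell (v + (0:ℝ) * I)).re = _
  rw [integral_mul_const, tri_int hv]
  ring

lemma J_eq (hRH : RiemannHypothesis) (m : ℕ) : ∀ x : ℝ, 1 / 2 ≤ x → J (m + 1) x = (KK m x 0).re / m.factorial := by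
  induction m with
  | zero =>
    intro x hx
    rw [KK_re hRH 0 hx]
    simp [J]
  | succ m ih =>
    intro x hx
    have h1 : J (m + 1 + 1) x = ∫ y in Ioi x, J (m + 1) y := rfl
    rw [h1]
    have h2 : ∫ y in Ioi x, J (m + 1) y = ∫ y in Ioi x, (KK m y 0).re / m.factorial := by
      refine setIntegral_congr_fun measurableSet_Ioi fun y hy => ?_
      have hy' : x < y := hy
      exact ih y (by linarith)
    rw [h2, integral_div, J_step hRH m hx, Nat.factorial_succ]
    push_cast
    rw [div_div]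

lemma KK_im (hRH : RiemannHypothesis) (m : ℕ) : (KK m (1 / 2) 0).im = -Real.pi * (1 / 2) ^ (m + 1) / (m + 1) := by
  have h := KK_integrable hRH m (x := 1 / 2) 0 le_rfl
  have h1 : (KK m (1 / 2) 0).im = ∫ v in Ioi (1 / 2 : ℝ), (((v - 1 / 2 : ℝ) : ℂ) ^ m * ell (v + (0:ℝ) * I)).im := by
    unfold KK
    exact (integral_im h).symm
  rw [h1]
  have h2 : ∫ v in Ioi (1 / 2 : ℝ), (((v - 1 / 2 : ℝ) : ℂ) ^ m * ell (v + (0:ℝ) * I)).im =
      ∫ v in Ioi (1 / 2 : ℝ), (Iio 1).indicator (fun v => (v - 1 / 2) ^ m * (-Real.pi)) v := by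
    refine setIntegral_congr_ae measurableSet_Ioi ?_
    filter_upwards [Measure.ae_ne volume (1:ℝ)] with v hv1 hv
    have hv' : 1 / 2 < v := hv
    rw [← ofReal_pow, Complex.im_ofReal_mul, ofReal_zero, zero_mul, add_zero]
    rcases lt_or_gt_of_ne hv1 with h3 | h3
    · rw [indicator_of_mem (show v ∈ Iio 1 from h3), ell_im_lt hRH hv' h3]
    · rw [indicator_of_notMem (show v ∉ Iio 1 from not_lt.2 h3.le), ell_im_gt hRH h3, mul_zero]
  rw [h2, setIntegral_indicator measurableSet_Iio]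
  have h3 : Ioi (1 / 2 : ℝ) ∩ Iio 1 = Ioo (1 / 2) 1 := rfl
  rw [h3, ← integral_Ioc_eq_integral_Ioo, ← intervalIntegral.integral_of_le (by norm_num),
    intervalIntegral.integral_mul_const]
  have h4 := intervalIntegral.integral_comp_sub_right (a := 1 / 2) (b := 1) (fun y : ℝ => y ^ m) (1 / 2)
  rw [h4, integral_pow]
  norm_num
  ring

/-- the constants of integration -/
lemma del_eq (hRH : RiemannHypothesis) (m : ℕ) :
    del (m + 1) = 1 / Real.pi * ((I ^ (m + 1) * KK m (1 / 2) 0).im / m.factorial) := by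
  have hpi := Real.pi_ne_zero
  rcases Nat.even_or_odd' (m + 1) with ⟨k, hk | hk⟩
  · have he : Even (m + 1) := ⟨k, by omega⟩
    unfold del
    rw [if_pos he, hk, pow_mul I, Complex.I_sq]
    have h1 : ((-1 : ℂ) ^ k * KK m (1 / 2) 0).im = (-1) ^ k * (KK m (1 / 2) 0).im := by
      have : (-1 : ℂ) ^ k = (((-1 : ℝ) ^ k : ℝ) : ℂ) := by push_cast; ring
      rw [this, Complex.im_ofReal_mul]
    rw [h1, KK_im hRH m, Nat.mul_div_cancel_left k (by norm_num), hk]
    obtain ⟨j, rfl⟩ : ∃ j, k = j + 1 := ⟨k - 1, by omega⟩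
    rw [Nat.add_sub_cancel, ← hk, Nat.factorial_succ]
    push_cast
    have : (m.factorial : ℝ) ≠ 0 := by positivity
    have h3 : ((m : ℝ) + 1) ≠ 0 := by positivity
    have h4 : ((1:ℝ) / 2) ^ (m + 1) = 1 / 2 ^ (m + 1) := by rw [div_pow, one_pow]
    rw [h4]
    have h5 : (2:ℝ) ^ (m + 1) ≠ 0 := by positivity
    field_simp
    rw [pow_succ (-1 : ℝ) j]
    ring
  · have he : ¬ Even (m + 1) := by rw [Nat.not_even_iff_odd]; exact ⟨k, hk⟩
    unfold del
    rw [if_neg he, J_eq hRH m _ le_rfl, hk, pow_succ I, pow_mul I, Complex.I_sq]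
    have h1 : ((-1 : ℂ) ^ k * I * KK m (1 / 2) 0).im = (-1) ^ k * (KK m (1 / 2) 0).re := by
      have : (-1 : ℂ) ^ k = (((-1 : ℝ) ^ k : ℝ) : ℂ) := by push_cast; ring
      rw [this, mul_assoc, Complex.im_ofReal_mul]
      simp
    rw [h1]
    have h2 : (2 * k + 1) / 2 = k := by omega
    rw [h2]
    ring

end

end Pool.Agent.HH27.SN
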