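import Pool.Agent.HH27.SN.Grow

set_option autoImplicit false

/-! Bounds to the right of the line `Re s = 1`. -/

namespace Pool.Agent.HH27.SN

open Complex Filter Topology Set MeasureTheory Metric

noncomputable section

/-- the logarithmic derivative of zeta to the right of `1` -/
lemma ld_bd {δ : ℝ} (hδ : 0 < δ) : ∃ C : ℝ, 0 ≤ C ∧ ∀ s : ℂ, 1 + δ ≤ s.re →
    ‖logDeriv riemannZeta s‖ ≤ C * (2:ℝ) ^ (-s.re) := by
  have hsum : LSeriesSummable (fun n => (ArithmeticFunction.vonMangoldt n : ℂ)) ((1 + δ : ℝ) : ℂ) :=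
    ArithmeticFunction.LSeriesSummable_vonMangoldt (by simp; exact hδ)
  have hsum2 : Summable fun n : ℕ => ‖LSeries.term (fun n => (ArithmeticFunction.vonMangoldt n : ℂ)) ((1 + δ : ℝ) : ℂ) n‖ :=
    hsum.norm
  refine ⟨(2:ℝ) ^ (1 + δ) * ∑' n : ℕ, ‖LSeries.term (fun n => (ArithmeticFunction.vonMangoldt n : ℂ)) ((1 + δ : ℝ) : ℂ) n‖,
    by positivity, fun s hs => ?_⟩
  have h1 : logDeriv riemannZeta s = -LSeries (fun n => (ArithmeticFunction.vonMangoldt n : ℂ)) s := by
    rw [ArithmeticFunction.LSeries_vonMangoldt_eq_deriv_riemannZeta_div (by linarith), logDeriv_apply]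
    ring
  rw [h1, norm_neg]
  have hb : ∀ n : ℕ, ‖LSeries.term (fun n => (ArithmeticFunction.vonMangoldt n : ℂ)) s n‖ ≤
      ((2:ℝ) ^ (1 + δ) * (2:ℝ) ^ (-s.re)) *
        ‖LSeries.term (fun n => (ArithmeticFunction.vonMangoldt n : ℂ)) ((1 + δ : ℝ) : ℂ) n‖ := by
    intro n
    rcases Nat.lt_or_ge n 2 with hn | hn
    · interval_cases n
      · simp [LSeries.term]
      · simp [LSeries.term]
    · have hn0 : n ≠ 0 := by omega
      rw [LSeries.norm_term_eq, LSeries.norm_term_eq, if_neg hn0, if_neg hn0]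
      have hn1 : (2:ℝ) ≤ n := by exact_mod_cast hn
      have hnp : (0:ℝ) < n := by linarith
      rw [ofReal_re]
      have e1 : (n : ℝ) ^ s.re = (n:ℝ) ^ (1 + δ) * (n:ℝ) ^ (s.re - (1 + δ)) := by
        rw [← Real.rpow_add hnp]
        congr 1
        ring
      have e2 : (2:ℝ) ^ (s.re - (1 + δ)) ≤ (n:ℝ) ^ (s.re - (1 + δ)) :=
        Real.rpow_le_rpow (by norm_num) hn1 (by linarith)
      have e3 : (2:ℝ) ^ (1 + δ) * (2:ℝ) ^ (-s.re) = ((2:ℝ) ^ (s.re - (1 + δ)))⁻¹ := by
        rw [← Real.rpow_neg (by norm_num), ← Real.rpow_add (by norm_num)]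
        congr 1
        ring
      rw [e1, e3, ← div_div]
      rw [div_eq_mul_inv _ ((n:ℝ) ^ (s.re - (1 + δ))), mul_comm]
      apply mul_le_mul_of_nonneg_right _ (by positivity)
      exact inv_anti₀ (by positivity) e2
  unfold LSeries
  refine (norm_tsum_le_tsum_norm ?_).trans ?_
  · exact Summable.of_nonneg_of_le (fun _ => norm_nonneg _) hb (hsum2.mul_left _)
  · refine (Summable.tsum_le_tsum hb (Summable.of_nonneg_of_le (fun _ => norm_nonneg _) hb (hsum2.mul_left _))
      (hsum2.mul_left _)).trans (le_of_eq ?_)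
    rw [tsum_mul_left]
    ring

lemma zeta_tendsto_one : Tendsto (fun x : ℝ => riemannZeta x) atTop (𝓝 1) := by
  have h := LSeries.tendsto_atTop (f := 1) (by
    refine lt_of_le_of_lt (LSeries.abscissaOfAbsConv_le_of_forall_lt_LSeriesSummable (x := 1) (by
      intro y hy
      exact LSeriesSummable_one_iff.2 (by simpa using hy))) ?_
    exact EReal.coe_lt_top _)
  rw [Pi.one_apply] at h
  refine h.congr' ?_
  filter_upwards [eventually_gt_atTop 1] with x hx
  exact LSeries_one_eq_riemannZeta (by simpa using hx)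

end

end Pool.Agent.HH27.SN
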