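import Pool.Agent.HH27.SN.Ell2

set_option autoImplicit false

/-! Domination of the logarithm of zeta on bounded horizontal strips. -/

namespace Pool.Agent.HH27.SN

open Complex Filter Topology Set MeasureTheory Metric

noncomputable section

lemma L0_bd (hRH : RiemannHypothesis) (T : ℝ) : ∃ K : ℝ, 0 ≤ K ∧ ∀ x y : ℝ, 1 / 2 < x → x ≤ 3 → |y| ≤ T →
    ‖L0 (x + y * I)‖ ≤ K * (1 + |Real.log (x - 1 / 2)|) ∧ |(L0 (x + y * I)).im| ≤ K := by
  have hS : IsCompact ((fun p : ℝ × ℝ => (p.1 : ℂ) + p.2 * I) '' (Icc (1 / 2) 3 ×ˢ Icc (-T) T)) := by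
    refine (isCompact_Icc.prod isCompact_Icc).image ?_
    fun_prop
  obtain ⟨K, δ, hδ, hK, h⟩ := compact_unif hS
    (fun s K => 1 / 2 < s.re → ‖L0 s‖ ≤ K * (1 + |Real.log (s.re - 1 / 2)|) ∧ |(L0 s).im| ≤ K)
    (fun z K K' hKK h1 h2 => by
      obtain ⟨h3, h4⟩ := h1 h2
      refine ⟨h3.trans ?_, h4.trans hKK⟩
      gcongr) (by
      rintro s ⟨⟨x, y⟩, hxy, rfl⟩
      obtain ⟨hx, hy⟩ := hxy
      simp only at hx hy ⊢
      rcases eq_or_lt_of_le hx.1 with h1 | h1
      · exact L0_loc hRH (by simp [← h1])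
      · have hc : ContinuousAt L0 (x + y * I) := ((L0_spec hRH).1 _ (by simpa using h1)).continuousAt
        refine ⟨‖L0 (x + y * I)‖ + 1, ?_⟩
        have h2 : ∀ᶠ s in 𝓝 ((x : ℂ) + y * I), ‖L0 s‖ < ‖L0 (x + y * I)‖ + 1 :=
          hc.norm.eventually (gt_mem_nhds (by linarith))
        filter_upwards [h2] with s hs1 _
        have h3 : 0 ≤ |Real.log (s.re - 1 / 2)| := abs_nonneg _
        have h4 : 0 ≤ ‖L0 (x + y * I)‖ := norm_nonneg _
        refine ⟨?_, (Complex.abs_im_le_norm _).trans hs1.le⟩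
        nlinarith)
  refine ⟨K, hK, fun x y hx hx3 hy => ?_⟩
  have := h (x + y * I) ⟨x + y * I, ⟨(x, y), ⟨⟨hx.le, hx3⟩, abs_le.1 hy⟩, rfl⟩, by rw [dist_self]; exact hδ⟩
    (by simpa using hx)
  simpa using this

lemma clog_bd {x y T : ℝ} (hx1 : 1 / 2 < x) (hx : x ≤ 3) (hx2 : x ≠ 1) (hy : |y| ≤ T) :
    ‖Complex.log (x + y * I - 1)‖ ≤ |Real.log (x - 1)| + (2 + T) + Real.pi := by
  have hT : 0 ≤ T := (abs_nonneg y).trans hy
  have h5 : ‖Complex.log (x + y * I - 1)‖ ≤ |(Complex.log (x + y * I - 1)).re| + |(Complex.log (x + y * I - 1)).im| :=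
    Complex.norm_le_abs_re_add_abs_im _
  have h6 : |(Complex.log (x + y * I - 1)).im| ≤ Real.pi := by
    rw [Complex.log_im]
    exact Complex.abs_arg_le_pi _
  have hre : ((x : ℂ) + y * I - 1).re = x - 1 := by simp
  have h7 : |x - 1| ≤ ‖(x : ℂ) + y * I - 1‖ := by
    have := Complex.abs_re_le_norm ((x : ℂ) + y * I - 1)
    rwa [hre] at this
  have h7' : 0 < |x - 1| := abs_pos.2 (sub_ne_zero.2 hx2)
  have h8 : ‖(x : ℂ) + y * I - 1‖ ≤ 2 + T := by
    have := Complex.norm_le_abs_re_add_abs_im ((x : ℂ) + y * I - 1)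
    rw [hre] at this
    have e : ((x : ℂ) + y * I - 1).im = y := by simp
    rw [e] at this
    have h9 : |x - 1| ≤ 2 := abs_le.2 ⟨by linarith, by linarith⟩
    linarith
  have h9 : Real.log (x - 1) ≤ Real.log ‖(x : ℂ) + y * I - 1‖ := by
    rw [← Real.log_abs (x - 1)]
    exact Real.log_le_log h7' h7
  have h10 : Real.log ‖(x : ℂ) + y * I - 1‖ ≤ 2 + T := by
    have := Real.log_le_self (x := ‖(x : ℂ) + y * I - 1‖) (norm_nonneg _)
    linarith
  rw [Complex.log_re] at h5
  have h11 : |Real.log ‖(x : ℂ) + y * I - 1‖| ≤ |Real.log (x - 1)| + (2 + T) := by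
    rw [abs_le]
    have h12 := neg_abs_le (Real.log (x - 1))
    have h13 := abs_nonneg (Real.log (x - 1))
    constructor <;> linarith
  linarith

/-- bound of the logarithm of zeta near the critical line -/
lemma ell_bd (hRH : RiemannHypothesis) (T : ℝ) : ∃ C : ℝ, 0 ≤ C ∧ ∀ x y : ℝ, 1 / 2 < x → x ≤ 3 → x ≠ 1 →
    |y| ≤ T → ‖ell (x + y * I)‖ ≤ C * (1 + |Real.log (x - 1 / 2)| + |Real.log (x - 1)|) := by
  obtain ⟨K, hK, h⟩ := L0_bd hRH T
  rcases lt_or_ge T 0 with hT | hT
  · exact ⟨0, le_rfl, fun x y _ _ _ hy => absurd (abs_nonneg y) (by linarith)⟩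
  refine ⟨K + (2 + T) + Real.pi + 1, by positivity, fun x y hx hx3 hx1 hy => ?_⟩
  have h1 := (h x y hx hx3 hy).1
  have h2 := clog_bd hx hx3 hx1 hy
  unfold ell
  refine (norm_sub_le _ _).trans ?_
  have h3 := abs_nonneg (Real.log (x - 1 / 2))
  have h4 := abs_nonneg (Real.log (x - 1))
  have hp := Real.pi_pos
  have e1 : 0 ≤ K * |Real.log (x - 1)| := by positivity
  have e2 : 0 ≤ (2 + T + Real.pi + 1) * |Real.log (x - 1 / 2)| := by positivity
  have e3 : 0 ≤ (2 + T + Real.pi) * |Real.log (x - 1)| := by positivity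
  nlinarith

lemma ell_im_bd (hRH : RiemannHypothesis) (T : ℝ) : ∃ C : ℝ, 0 ≤ C ∧ ∀ x y : ℝ, 1 / 2 < x → x ≤ 3 →
    |y| ≤ T → |(ell (x + y * I)).im| ≤ C := by
  obtain ⟨K, hK, h⟩ := L0_bd hRH T
  refine ⟨K + Real.pi, by positivity, fun x y hx hx3 hy => ?_⟩
  have h1 := (h x y hx hx3 hy).2
  unfold ell
  rw [sub_im]
  have h6 : |(Complex.log (x + y * I - 1)).im| ≤ Real.pi := by
    rw [Complex.log_im]
    exact Complex.abs_arg_le_pi _
  exact (abs_sub _ _).trans (add_le_add h1 h6)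

lemma log_int (c a b : ℝ) : IntervalIntegrable (fun x : ℝ => |Real.log (x - c)|) volume a b := by
  have h := (intervalIntegral.intervalIntegrable_log' (a := a - c) (b := b - c)).comp_sub_right c
  simpa using h.abs

/-- a dominating function, for all `m`-th moments and heights up to `T` -/
lemma dom (hRH : RiemannHypothesis) (T : ℝ) (m : ℕ) : ∃ W : ℝ → ℝ, IntegrableOn W (Ioi (1 / 2)) ∧
    IntegrableOn (fun v => Real.exp (1 / 8 * v) * W v) (Ioi (1 / 2)) ∧ (∀ v, 0 ≤ W v) ∧
    ∀ x v y : ℝ, 0 ≤ x → x ≤ v → 1 / 2 < v → v ≠ 1 → |y| ≤ T →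
      ‖((v - x : ℝ) : ℂ) ^ m * ell (v + y * I)‖ ≤ W v := by
  obtain ⟨C, hC, h⟩ := ell_bd hRH T
  obtain ⟨C', hC', h'⟩ := ell_decay hRH
  have hi : IntegrableOn (fun v : ℝ => 3 ^ m * (C * (1 + |Real.log (v - 1 / 2)| + |Real.log (v - 1)|)))
      (Ioc (1 / 2 : ℝ) 3) volume := by
    rw [← intervalIntegrable_iff_integrableOn_Ioc_of_le (by norm_num)]
    exact (((intervalIntegrable_const.add (log_int _ _ _)).add (log_int _ _ _)).const_mul C).const_mul _
  refine ⟨fun v => (Ioc (1 / 2 : ℝ) 3).indicator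
      (fun v => 3 ^ m * (C * (1 + |Real.log (v - 1 / 2)| + |Real.log (v - 1)|))) v
      + 4 ^ m * m.factorial * C' * Real.exp (-(1 / 4) * v), ?_, ?_, ?_, ?_⟩
  · exact (hi.integrable_indicator measurableSet_Ioc).integrableOn.add
      ((integrableOn_exp_mul_Ioi (by norm_num) _).const_mul _)
  · have h2 : IntegrableOn (fun v : ℝ => Real.exp (1 / 8 * v) *
        (3 ^ m * (C * (1 + |Real.log (v - 1 / 2)| + |Real.log (v - 1)|)))) (Ioc (1 / 2 : ℝ) 3) volume := by
      refine Integrable.bdd_mul hi (by fun_prop) (c := Real.exp 1) ?_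
      filter_upwards [ae_restrict_mem measurableSet_Ioc] with v hv
      rw [Real.norm_eq_abs, abs_of_pos (Real.exp_pos _)]
      apply Real.exp_le_exp.2
      linarith [hv.2]
    have h3 := (h2.integrable_indicator measurableSet_Ioc).integrableOn (s := Ioi (1 / 2 : ℝ))
    have h4 : IntegrableOn (fun v : ℝ => 4 ^ m * m.factorial * C' * Real.exp (-(1 / 8) * v)) (Ioi (1 / 2 : ℝ)) :=
      (integrableOn_exp_mul_Ioi (by norm_num) _).const_mul _
    refine (h3.add h4).congr (Eventually.of_forall fun v => ?_)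
    simp only [Pi.add_apply]
    rw [mul_add]
    congr 1
    · by_cases hv : v ∈ Ioc (1 / 2 : ℝ) 3
      · rw [indicator_of_mem hv, indicator_of_mem hv]
      · rw [indicator_of_notMem hv, indicator_of_notMem hv, mul_zero]
    · rw [mul_left_comm, ← Real.exp_add]
      congr 2
      ring
  · intro v
    refine add_nonneg (indicator_nonneg (fun v _ => by positivity) v) (by positivity)
  · intro x v y hx0 hxv hv hv1 hy
    have e0 : 0 ≤ v - x := by linarith
    rw [norm_mul, norm_pow, Complex.norm_real, Real.norm_eq_abs, abs_of_nonneg e0]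
    rcases le_or_gt v 3 with h3 | h3
    · have e1 : v ∈ Ioc (1 / 2 : ℝ) 3 := ⟨hv, h3⟩
      simp only [indicator_of_mem e1]
      have e2 : (v - x) ^ m ≤ 3 ^ m := by
        apply pow_le_pow_left₀ e0
        linarith
      have e3 := h v y hv h3 hv1 hy
      have e4 : (v - x) ^ m * ‖ell (v + y * I)‖ ≤ 3 ^ m * (C * (1 + |Real.log (v - 1 / 2)| + |Real.log (v - 1)|)) :=
        mul_le_mul e2 e3 (norm_nonneg _) (by positivity)
      have e5 : 0 ≤ 4 ^ m * m.factorial * C' * Real.exp (-(1 / 4) * v) := by positivity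
      linarith
    · have e1 : v ∉ Ioc (1 / 2 : ℝ) 3 := fun h => absurd h.2 (by linarith)
      simp only [indicator_of_notMem e1, zero_add]
      have e2 : (v - x) ^ m ≤ v ^ m := by
        apply pow_le_pow_left₀ e0
        linarith
      have e3 := h' (v + y * I) (by simp; linarith)
      simp only [add_re, ofReal_re, mul_re, I_re, mul_zero, ofReal_im, I_im, mul_one, sub_self, add_zero] at e3
      have e4 : v ^ m ≤ 4 ^ m * m.factorial * Real.exp (1 / 4 * v) := by
        have := Real.pow_div_factorial_le_exp (v / 4) (by linarith) m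
        rw [div_le_iff₀ (by positivity), div_pow, div_le_iff₀ (by positivity)] at this
        calc v ^ m ≤ Real.exp (v / 4) * m.factorial * 4 ^ m := this
          _ = _ := by rw [show v / 4 = 1 / 4 * v by ring]; ring
      calc (v - x) ^ m * ‖ell (v + y * I)‖ ≤ (4 ^ m * m.factorial * Real.exp (1 / 4 * v)) * (C' * ex v) :=
            mul_le_mul (e2.trans e4) e3 (norm_nonneg _) (by positivity)
        _ = 4 ^ m * m.factorial * C' * (Real.exp (1 / 4 * v) * ex v) := by ring
        _ = _ := by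
            unfold ex
            rw [← Real.exp_add]
            congr 2
            ring

end

end Pool.Agent.HH27.SN
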