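import Pool.Agent.HH27.SN.Dir
import Pool.Agent.Helper242.RK.Log

set_option autoImplicit false

/-! The logarithm of zeta in the quadrant `Re s > 1/2`, `Im s ≥ 0`. -/

namespace Pool.Agent.HH27.SN

open Complex Filter Topology Set MeasureTheory Metric

noncomputable section

lemma hp_open : IsOpen {s : ℂ | 1 / 2 < s.re} := isOpen_lt continuous_const Complex.continuous_re

lemma ne_zero_of_half {s : ℂ} (hs : 1 / 2 < s.re) : s ≠ 0 := by
  rintro rfl
  simp at hs
  norm_num at hs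

lemma exists_L0 (hRH : RiemannHypothesis) : ∃ L : ℂ → ℂ,
    (∀ s : ℂ, 1 / 2 < s.re → HasDerivAt L (FF s) s) ∧ (∀ s : ℂ, 1 / 2 < s.re → cexp (L s) = gz s) ∧
    ∀ x : ℝ, 1 / 2 < x → (L x).im = 0 := by
  obtain ⟨L, hLd, hL⟩ := Pool.Agent.Helper242.RK.exists_log (U := {s : ℂ | 1 / 2 < s.re})
    (convex_halfSpace_re_gt (1 / 2)) hp_open ⟨1, by show (1:ℝ) / 2 < (1:ℂ).re; norm_num⟩ (f := gz)
    (fun s hs => (gz_diff (ne_zero_of_half hs)).differentiableWithinAt) (fun s hs => gz_ne hRH hs)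
  have hder : ∀ s : ℂ, 1 / 2 < s.re → HasDerivAt L (FF s) s := by
    intro s hs
    have h1 : DifferentiableAt ℂ L s := (hLd s hs).differentiableAt (hp_open.mem_nhds hs)
    have h2 : HasDerivAt (fun s => cexp (L s)) (cexp (L s) * deriv L s) s := h1.hasDerivAt.cexp
    have h3 : (fun s => cexp (L s)) =ᶠ[𝓝 s] gz := by
      filter_upwards [hp_open.mem_nhds hs] with w hw
      exact hL w hw
    have h4 : deriv gz s = cexp (L s) * deriv L s := (h2.congr_of_eventuallyEq h3.symm).deriv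
    have h5 : deriv L s = FF s := by
      unfold FF
      rw [logDeriv_apply, h4, hL s hs, mul_div_cancel_left₀ _ (gz_ne hRH hs)]
    rw [← h5]
    exact h1.hasDerivAt
  -- normalisation at `1`
  refine ⟨fun s => L s - L 1, fun s hs => (hder s hs).sub_const _, fun s hs => ?_, fun x hx => ?_⟩
  · rw [exp_sub, hL s hs, hL 1 (by show (1:ℝ) / 2 < (1:ℂ).re; norm_num), gz_one, div_one]
  · -- derivative of the imaginary part along the real axis vanishes
    have hF : ∀ y : ℝ, 1 / 2 < y → (FF y).im = 0 := by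
      intro y hy
      have h0 : (y : ℂ) ≠ 0 := ne_zero_of_half (by simpa using hy)
      have h1 := FF_conj h0
      rw [conj_ofReal] at h1
      exact Complex.conj_eq_iff_im.1 h1.symm
    have hconv : Convex ℝ (Ioi (1 / 2 : ℝ)) := convex_Ioi _
    have hd : ∀ y ∈ Ioi (1 / 2 : ℝ), HasDerivWithinAt (fun y : ℝ => (L y).im) 0 (Ioi (1 / 2 : ℝ)) y := by
      intro y hy
      have h1 := (hder (y : ℂ) (by simpa using hy)).comp_ofReal
      have h2 : HasDerivAt (fun y : ℝ => (L y).im) (FF y).im y := by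
        have := (Complex.imCLM.hasFDerivAt (x := L y)).comp_hasDerivAt y h1
        exact this
      rw [hF y hy] at h2
      exact h2.hasDerivWithinAt
    have h3 : (L x).im = (L ((1:ℝ) : ℂ)).im := by
      refine hconv.is_const_of_fderivWithin_eq_zero (𝕜 := ℝ) (f := fun y : ℝ => (L y).im)
        (fun y hy => (hd y hy).differentiableWithinAt) (fun y hy => ?_) hx (by show (1:ℝ) / 2 < 1; norm_num)
      have h4 := (hd y hy).hasFDerivWithinAt.fderivWithin (isOpen_Ioi.uniqueDiffWithinAt hy)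
      rw [h4]
      ext
      simp
    simp only [sub_im]
    rw [h3]
    simp

/-- a logarithm of `(s - 1) ζ(s)` in the half-plane `Re s > 1/2`, real on the real axis -/
def L0 : ℂ → ℂ := Classical.epsilon fun L : ℂ → ℂ =>
    (∀ s : ℂ, 1 / 2 < s.re → HasDerivAt L (FF s) s) ∧ (∀ s : ℂ, 1 / 2 < s.re → cexp (L s) = gz s) ∧
    ∀ x : ℝ, 1 / 2 < x → (L x).im = 0

lemma L0_spec (hRH : RiemannHypothesis) :
    (∀ s : ℂ, 1 / 2 < s.re → HasDerivAt L0 (FF s) s) ∧ (∀ s : ℂ, 1 / 2 < s.re → cexp (L0 s) = gz s) ∧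
    ∀ x : ℝ, 1 / 2 < x → (L0 x).im = 0 := Classical.epsilon_spec (exists_L0 hRH)

/-- the logarithm of zeta -/
def ell (s : ℂ) : ℂ := L0 s - Complex.log (s - 1)

lemma ell_deriv' (hRH : RiemannHypothesis) {s : ℂ} (hs : 1 / 2 < s.re) (h : s - 1 ∈ slitPlane) :
    HasDerivAt ell (logDeriv riemannZeta s) s := by
  have h1 := (L0_spec hRH).1 s hs
  have hne : s ≠ 1 := by
    rintro rfl
    rw [sub_self] at h
    exact zero_notMem_slitPlane h
  have h2 : HasDerivAt (fun s : ℂ => Complex.log (s - 1)) (1 / (s - 1)) s := by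
    have h3 : HasDerivAt (fun s : ℂ => s - 1) 1 s := (hasDerivAt_id s).sub_const 1
    exact h3.clog h
  have h4 := h1.sub h2
  rw [FF_eq (ne_zero_of_half hs) hne (zeta_ne hRH hs hne)] at h4
  have e : 1 / (s - 1) + logDeriv riemannZeta s - 1 / (s - 1) = logDeriv riemannZeta s := by ring
  rw [e] at h4
  exact h4

lemma ell_deriv (hRH : RiemannHypothesis) {s : ℂ} (hs : 1 / 2 < s.re) (h : 0 < s.im) :
    HasDerivAt ell (logDeriv riemannZeta s) s := by
  refine ell_deriv' hRH hs ?_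
  rw [mem_slitPlane_iff]
  right
  simp
  exact h.ne'

lemma ell_deriv1 (hRH : RiemannHypothesis) {s : ℂ} (hs : 1 < s.re) :
    HasDerivAt ell (logDeriv riemannZeta s) s := by
  refine ell_deriv' hRH (by linarith) ?_
  rw [mem_slitPlane_iff]
  left
  simp
  exact hs

lemma ell_exp (hRH : RiemannHypothesis) {s : ℂ} (hs : 1 / 2 < s.re) (hne : s ≠ 1) :
    cexp (ell s) = riemannZeta s := by
  unfold ell
  have h1 : s - 1 ≠ 0 := sub_ne_zero.2 hne
  rw [exp_sub, (L0_spec hRH).2.1 s hs, Complex.exp_log h1, gz_eq (ne_zero_of_half hs) hne]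
  field_simp

/-- the real part -/
lemma ell_re (hRH : RiemannHypothesis) {s : ℂ} (hs : 1 / 2 < s.re) (hne : s ≠ 1) :
    (ell s).re = Real.log ‖riemannZeta s‖ := by
  rw [← ell_exp hRH hs hne, Complex.norm_exp, Real.log_exp]

lemma ell_im_gt (hRH : RiemannHypothesis) {x : ℝ} (hx : 1 < x) : (ell x).im = 0 := by
  unfold ell
  rw [sub_im, (L0_spec hRH).2.2 x (by linarith), zero_sub]
  have : (x : ℂ) - 1 = ((x - 1 : ℝ) : ℂ) := by push_cast; ring
  rw [this, Complex.log_im, Complex.arg_ofReal_of_nonneg (by linarith), neg_zero]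

lemma ell_im_lt (hRH : RiemannHypothesis) {x : ℝ} (hx : 1 / 2 < x) (hx1 : x < 1) :
    (ell x).im = -Real.pi := by
  unfold ell
  rw [sub_im, (L0_spec hRH).2.2 x hx, zero_sub]
  have : (x : ℂ) - 1 = ((x - 1 : ℝ) : ℂ) := by push_cast; ring
  rw [this, Complex.log_im, Complex.arg_ofReal_of_neg (by linarith)]

end

end Pool.Agent.HH27.SN
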