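import Pool.Agent.HH27.SN.Ell

set_option autoImplicit false

/-! Decay of the logarithm of zeta, and bounds near the critical line. -/

namespace Pool.Agent.HH27.SN

open Complex Filter Topology Set MeasureTheory Metric

noncomputable section

/-- exponential weight -/
def ex (x : ℝ) : ℝ := Real.exp (-(1 / 2) * x)

lemma ex_pos (x : ℝ) : 0 < ex x := Real.exp_pos _

lemma ex_add (x y : ℝ) : ex (x + y) = ex x * ex y := by
  unfold ex
  rw [← Real.exp_add]
  congr 1
  ring

lemma ex_anti {x y : ℝ} (h : x ≤ y) : ex y ≤ ex x := by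
  unfold ex
  apply Real.exp_le_exp.2
  linarith

lemma ex_cont : Continuous ex := by
  unfold ex
  fun_prop

lemma ex_int (a : ℝ) : IntegrableOn ex (Ioi a) := integrableOn_exp_mul_Ioi (by norm_num) a

lemma ex_integral (a : ℝ) : ∫ x in Ioi a, ex x = 2 * ex a := by
  unfold ex
  rw [integral_exp_mul_Ioi (by norm_num)]
  ring

lemma ex_tendsto : Tendsto ex atTop (𝓝 0) := by
  unfold ex
  have h : Tendsto (fun x : ℝ => -(1 / 2) * x) atTop atBot :=
    tendsto_id.const_mul_atTop_of_neg (by norm_num)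
  exact Real.tendsto_exp_atBot.comp h

lemma two_le_ex {x : ℝ} (hx : 0 ≤ x) : (2:ℝ) ^ (-x) ≤ ex x := by
  unfold ex
  rw [Real.rpow_def_of_pos (by norm_num)]
  apply Real.exp_le_exp.2
  have := Real.log_two_gt_d9
  nlinarith

lemma ld_bd' {δ : ℝ} (hδ : 0 < δ) : ∃ C : ℝ, 0 ≤ C ∧ ∀ s : ℂ, 1 + δ ≤ s.re →
    ‖logDeriv riemannZeta s‖ ≤ C * ex s.re := by
  obtain ⟨C, hC, h⟩ := ld_bd hδ
  refine ⟨C, hC, fun s hs => (h s hs).trans ?_⟩
  gcongr
  exact two_le_ex (by linarith)

lemma ell_real_tendsto (hRH : RiemannHypothesis) : Tendsto (fun x : ℝ => ell x) atTop (𝓝 0) := by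
  have h1 : Tendsto (fun x : ℝ => Real.log ‖riemannZeta x‖) atTop (𝓝 0) := by
    have h2 := zeta_tendsto_one.norm
    rw [norm_one] at h2
    have h3 := (Real.continuousAt_log (x := 1) one_ne_zero).tendsto.comp h2
    rw [Real.log_one] at h3
    exact h3
  have h2 : Tendsto (fun x : ℝ => ((Real.log ‖riemannZeta x‖ : ℝ) : ℂ)) atTop (𝓝 0) := by
    have := (Complex.continuous_ofReal.tendsto 0).comp h1
    rw [ofReal_zero] at this
    exact this
  refine h2.congr' ?_
  filter_upwards [eventually_gt_atTop 1] with x hx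
  apply Complex.ext
  · rw [ofReal_re, ell_re hRH (by simp; linarith)]
    intro h
    have : x = 1 := by exact_mod_cast h
    linarith
  · rw [ofReal_im, ell_im_gt hRH hx]

lemma vert_diff (hRH : RiemannHypothesis) : ∃ C : ℝ, 0 ≤ C ∧ ∀ s : ℂ, 3 / 2 ≤ s.re →
    ‖ell s - ell (s.re : ℂ)‖ ≤ C * ex s.re * |s.im| := by
  obtain ⟨C, hC, h⟩ := ld_bd' (δ := 1 / 2) (by norm_num)
  refine ⟨C, hC, fun s hs => ?_⟩
  have hd : ∀ v ∈ (univ : Set ℝ), HasDerivWithinAt (fun v : ℝ => ell (s.re + v * I))
      (logDeriv riemannZeta (s.re + v * I) * I) univ v := by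
    intro v _
    have h1 := ell_deriv1 hRH (s := s.re + v * I) (by simp; linarith)
    have h2 : HasDerivAt (fun v : ℝ => ((s.re : ℂ) + v * I)) I v := by
      have := ((Complex.ofRealCLM.hasDerivAt (x := v)).mul_const I).const_add (s.re : ℂ)
      simpa using this
    exact (HasDerivAt.comp_of_eq (h₂ := ell) (h := fun v : ℝ => ((s.re : ℂ) + v * I)) v h1 h2 rfl).hasDerivWithinAt
  have hb : ∀ v ∈ (univ : Set ℝ), ‖logDeriv riemannZeta (s.re + v * I) * I‖ ≤ C * ex s.re := by
    intro v _
    rw [norm_mul, norm_I, mul_one]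
    have := h (s.re + v * I) (by simp; linarith)
    simpa using this
  have key := convex_univ.norm_image_sub_le_of_norm_hasDerivWithin_le hd hb (mem_univ 0) (mem_univ s.im)
  simp only [sub_zero, Real.norm_eq_abs, ofReal_zero, zero_mul, add_zero, Complex.re_add_im] at key
  exact key

/-- decay -/
lemma ell_decay (hRH : RiemannHypothesis) : ∃ C : ℝ, 0 ≤ C ∧ ∀ s : ℂ, 3 / 2 ≤ s.re →
    ‖ell s‖ ≤ C * ex s.re := by
  obtain ⟨C, hC, h⟩ := ld_bd' (δ := 1 / 2) (by norm_num)
  obtain ⟨C', hC', h'⟩ := vert_diff hRH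
  refine ⟨2 * C, by positivity, fun s hs => ?_⟩
  have hd : ∀ u ∈ Ici (0:ℝ), HasDerivAt (fun u : ℝ => ell (s + u)) (logDeriv riemannZeta (s + u)) u := by
    intro u hu
    have hu' : (0:ℝ) ≤ u := hu
    have h1 := ell_deriv1 hRH (s := s + u) (by simp; linarith)
    have h2 : HasDerivAt (fun u : ℝ => (s + (u:ℂ))) 1 u := by
      have := (Complex.ofRealCLM.hasDerivAt (x := u)).const_add s
      simpa using this
    have h3 := HasDerivAt.comp_of_eq (h₂ := ell) (h := fun u : ℝ => (s + (u:ℂ))) u h1 h2 rfl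
    rw [mul_one] at h3
    exact h3
  have hb : ∀ u : ℝ, 0 ≤ u → ‖logDeriv riemannZeta (s + u)‖ ≤ C * ex s.re * ex u := by
    intro u hu
    have := h (s + u) (by simp; linarith)
    simp only [add_re, ofReal_re] at this
    rw [ex_add] at this
    rw [mul_assoc]
    exact this
  have hint : IntegrableOn (fun u : ℝ => logDeriv riemannZeta (s + u)) (Ioi 0) := by
    refine Integrable.mono' ((ex_int 0).const_mul (C * ex s.re)) ?_ ?_
    · apply ContinuousOn.aestronglyMeasurable _ measurableSet_Ioi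
      intro u hu
      have hu' : (0:ℝ) < u := hu
      have hne : s + u ≠ 1 := by
        intro h0
        have := congrArg Complex.re h0
        simp at this
        linarith
      have h1 : AnalyticAt ℂ riemannZeta (s + u) := by
        have hdd : DifferentiableOn ℂ riemannZeta {s : ℂ | s ≠ 1} :=
          fun w hw => (differentiableAt_riemannZeta hw).differentiableWithinAt
        exact (hdd.analyticOnNhd isOpen_ne) _ hne
      have h2 : ContinuousAt (logDeriv riemannZeta) (s + u) :=
        (h1.deriv.div h1 (zeta_ne hRH (by simp; linarith) hne)).continuousAt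
      exact (ContinuousAt.comp (f := fun u : ℝ => s + (u:ℂ)) h2 (by fun_prop)).continuousWithinAt
    · refine (ae_restrict_mem measurableSet_Ioi).mono fun u hu => hb u (le_of_lt hu)
  have hlim : Tendsto (fun u : ℝ => ell (s + u)) atTop (𝓝 0) := by
    have t1 : Tendsto (fun u : ℝ => ell ((s.re + u : ℝ) : ℂ)) atTop (𝓝 0) :=
      (ell_real_tendsto hRH).comp (tendsto_atTop_add_const_left _ _ tendsto_id)
    have t2 : Tendsto (fun u : ℝ => ell (s + u) - ell ((s.re + u : ℝ) : ℂ)) atTop (𝓝 0) := by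
      rw [tendsto_zero_iff_norm_tendsto_zero]
      have t3 : Tendsto (fun u : ℝ => C' * (ex s.re * ex u) * |s.im|) atTop (𝓝 0) := by
        have := ((ex_tendsto.const_mul (ex s.re)).const_mul C').mul_const |s.im|
        simpa using this
      refine squeeze_zero' (Eventually.of_forall fun _ => norm_nonneg _) ?_ t3
      filter_upwards [eventually_ge_atTop (0:ℝ)] with u hu
      have := h' (s + u) (by simp; linarith)
      simp only [add_re, ofReal_re, add_im, ofReal_im, add_zero] at this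
      rw [ex_add] at this
      exact this
    have := t2.add t1
    simpa using this
  have key := integral_Ioi_of_hasDerivAt_of_tendsto' hd hint hlim
  rw [ofReal_zero, add_zero, zero_sub] at key
  rw [← norm_neg, ← key]
  refine (norm_integral_le_of_norm_le ((ex_int 0).const_mul (C * ex s.re))
    ((ae_restrict_mem measurableSet_Ioi).mono fun u hu => hb u (le_of_lt hu))).trans ?_
  rw [integral_const_mul, ex_integral]
  have : ex 0 = 1 := by unfold ex; simp
  rw [this]
  linarith

/-- local bound of `L0` at a point of the critical line -/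
lemma L0_loc (hRH : RiemannHypothesis) {s0 : ℂ} (hs : s0.re = 1 / 2) :
    ∃ K : ℝ, ∀ᶠ s in 𝓝 s0, 1 / 2 < s.re →
      ‖L0 s‖ ≤ K * (1 + |Real.log (s.re - 1 / 2)|) ∧ |(L0 s).im| ≤ K := by
  obtain ⟨r, m, h, hr, ha, h0, hg⟩ := gz_order (s0 := s0) (by rw [hs]; norm_num)
  obtain ⟨H, hHd, hH⟩ := Pool.Agent.Helper242.RK.exists_log (U := ball s0 r) (convex_ball _ _) isOpen_ball
    ⟨s0, mem_ball_self hr⟩ (f := h) (fun s hs => (ha s hs).differentiableAt.differentiableWithinAt) h0
  -- the difference is constant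
  obtain ⟨D, hD⟩ : ∃ D : Set ℂ, D = ball s0 r ∩ {s : ℂ | 1 / 2 < s.re} := ⟨_, rfl⟩
  have hDo : IsOpen D := by rw [hD]; exact isOpen_ball.inter hp_open
  have hDc : Convex ℝ D := by rw [hD]; exact (convex_ball _ _).inter (convex_halfSpace_re_gt _)
  have hslit : ∀ s ∈ D, s - s0 ∈ slitPlane := by
    intro s hs1
    rw [hD] at hs1
    rw [mem_slitPlane_iff]
    left
    have : (1:ℝ) / 2 < s.re := hs1.2
    simp only [sub_re]
    linarith
  have hder : ∀ s ∈ D, HasDerivAt (fun s => L0 s - (m * Complex.log (s - s0) + H s)) 0 s := by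
    intro s hs1
    have hs2 : s ∈ ball s0 r ∧ 1 / 2 < s.re := by rw [hD] at hs1; exact hs1
    have hne : s ≠ s0 := by
      rintro rfl
      rw [hs] at hs2
      exact lt_irrefl _ hs2.2
    have e1 := (L0_spec hRH).1 s hs2.2
    have e2 : HasDerivAt (fun s : ℂ => (m : ℂ) * Complex.log (s - s0)) (m * (1 / (s - s0))) s := by
      have h3 : HasDerivAt (fun s : ℂ => s - s0) 1 s := (hasDerivAt_id s).sub_const s0
      exact (h3.clog (hslit s hs1)).const_mul _
    have e3 : HasDerivAt H (logDeriv h s) s := by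
      have h1 : DifferentiableAt ℂ H s := (hHd s hs2.1).differentiableAt (isOpen_ball.mem_nhds hs2.1)
      have h2 : HasDerivAt (fun s => cexp (H s)) (cexp (H s) * deriv H s) s := h1.hasDerivAt.cexp
      have h3 : (fun s => cexp (H s)) =ᶠ[𝓝 s] h := by
        filter_upwards [isOpen_ball.mem_nhds hs2.1] with w hw
        exact hH w hw
      have h4 : deriv h s = cexp (H s) * deriv H s := (h2.congr_of_eventuallyEq h3.symm).deriv
      have h5 : deriv H s = logDeriv h s := by
        rw [logDeriv_apply, h4, hH s hs2.1, mul_div_cancel_left₀ _ (h0 s hs2.1)]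
      rw [← h5]
      exact h1.hasDerivAt
    have e4 := e1.sub (e2.add e3)
    rw [FF_loc ha h0 hg hs2.1 hne] at e4
    have e5 : (m : ℂ) / (s - s0) + logDeriv h s - (m * (1 / (s - s0)) + logDeriv h s) = 0 := by ring
    rw [e5] at e4
    exact e4
  have hconst : ∃ c : ℂ, ∀ s ∈ D, L0 s = m * Complex.log (s - s0) + H s + c := by
    by_cases hne : D.Nonempty
    · obtain ⟨s1, hs1⟩ := hne
      refine ⟨L0 s1 - (m * Complex.log (s1 - s0) + H s1), fun s hs2 => ?_⟩
      have := hDc.is_const_of_fderivWithin_eq_zero (𝕜 := ℂ)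
        (f := fun s => L0 s - (m * Complex.log (s - s0) + H s))
        (fun s hs3 => (hder s hs3).differentiableAt.differentiableWithinAt)
        (fun s hs3 => by
          rw [(hder s hs3).hasFDerivAt.hasFDerivWithinAt.fderivWithin (hDo.uniqueDiffWithinAt hs3)]
          ext; simp) hs1 hs2
      linear_combination -this
    · exact ⟨0, fun s hs2 => absurd ⟨s, hs2⟩ hne⟩
  obtain ⟨c, hc⟩ := hconst
  have hHc : ContinuousAt H s0 := ((hHd s0 (mem_ball_self hr)).differentiableAt (ball_mem_nhds s0 hr)).continuousAt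
  have h2 : ∀ᶠ s in 𝓝 s0, ‖H s‖ < ‖H s0‖ + 1 := hHc.norm.eventually (gt_mem_nhds (by linarith))
  refine ⟨m * (1 + Real.pi) + (‖H s0‖ + 1) + ‖c‖, ?_⟩
  filter_upwards [h2, ball_mem_nhds s0 hr, ball_mem_nhds s0 one_pos] with s hs1 hs2 hs3 hs4
  have hsD : s ∈ D := by rw [hD]; exact ⟨hs2, hs4⟩
  have hm0 : (0:ℝ) ≤ m := Nat.cast_nonneg m
  have hpi := Real.pi_pos
  have hlog : ‖Complex.log (s - s0)‖ ≤ |Real.log (s.re - 1 / 2)| + Real.pi := by
    have h5 : ‖Complex.log (s - s0)‖ ≤ |(Complex.log (s - s0)).re| + |(Complex.log (s - s0)).im| :=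
      Complex.norm_le_abs_re_add_abs_im _
    have h6 : |(Complex.log (s - s0)).im| ≤ Real.pi := by
      rw [Complex.log_im]
      exact Complex.abs_arg_le_pi _
    have h7 : |(Complex.log (s - s0)).re| ≤ |Real.log (s.re - 1 / 2)| := by
      rw [Complex.log_re]
      have h8 : s.re - 1 / 2 ≤ ‖s - s0‖ := by
        have := Complex.re_le_norm (s - s0)
        rw [sub_re, hs] at this
        exact this
      have h9 : ‖s - s0‖ < 1 := by rw [← dist_eq_norm]; exact hs3
      have h10 : Real.log (s.re - 1 / 2) ≤ Real.log ‖s - s0‖ := Real.log_le_log (by linarith) h8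
      have h11 : Real.log ‖s - s0‖ ≤ 0 := Real.log_nonpos (norm_nonneg _) h9.le
      rw [abs_of_nonpos h11, abs_of_nonpos (h10.trans h11)]
      linarith
    linarith
  rw [hc s hsD]
  have ha1 : 0 ≤ |Real.log (s.re - 1 / 2)| := abs_nonneg _
  constructor
  · calc ‖(m : ℂ) * Complex.log (s - s0) + H s + c‖ ≤ m * (|Real.log (s.re - 1 / 2)| + Real.pi) + (‖H s0‖ + 1) + ‖c‖ := by
          refine (norm_add_le _ _).trans ?_
          refine add_le_add ((norm_add_le _ _).trans (add_le_add ?_ hs1.le)) le_rfl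
          rw [norm_mul, Complex.norm_natCast]
          gcongr
      _ ≤ (m * (1 + Real.pi) + (‖H s0‖ + 1) + ‖c‖) * (1 + |Real.log (s.re - 1 / 2)|) := by
          have q1 : 0 ≤ ‖H s0‖ := norm_nonneg _
          have q2 : 0 ≤ ‖c‖ := norm_nonneg _
          have q3 : 0 ≤ (m : ℝ) * Real.pi * |Real.log (s.re - 1 / 2)| := by positivity
          have q4 : 0 ≤ (‖H s0‖ + 1) * |Real.log (s.re - 1 / 2)| := by positivity
          have q5 : 0 ≤ ‖c‖ * |Real.log (s.re - 1 / 2)| := by positivity
          nlinarith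
  · have e1 : (((m : ℂ) * Complex.log (s - s0) + H s + c)).im = m * (Complex.log (s - s0)).im + (H s).im + c.im := by
      simp
    rw [e1]
    have h6 : |(Complex.log (s - s0)).im| ≤ Real.pi := by
      rw [Complex.log_im]
      exact Complex.abs_arg_le_pi _
    have h7 : |(H s).im| ≤ ‖H s0‖ + 1 := (Complex.abs_im_le_norm _).trans hs1.le
    have h8 : |c.im| ≤ ‖c‖ := Complex.abs_im_le_norm _
    calc |m * (Complex.log (s - s0)).im + (H s).im + c.im| ≤ |m * (Complex.log (s - s0)).im| + |(H s).im| + |c.im| := abs_add_three _ _ _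
      _ ≤ m * Real.pi + (‖H s0‖ + 1) + ‖c‖ := by
          rw [abs_mul, abs_of_nonneg hm0]
          gcongr
      _ ≤ _ := by nlinarith

end

end Pool.Agent.HH27.SN
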