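import Pool.Agent.HH27.SN.Main3

set_option autoImplicit false

/-! Extremal points of the Bernoulli polynomials, and the choice of parameters. -/

namespace Pool.Agent.HH27.SN

open Complex Filter Topology Set MeasureTheory Metric Pool.Agent.R305.SK

noncomputable section

variable {θ ε : ℝ} {n : ℕ}

lemma bern_cont (k : ℕ) : Continuous (bernoulliFun k) :=
  continuous_iff_continuousAt.2 fun x => (hasDerivAt_bernoulliFun k x).continuousAt

lemma exists_ext {n : ℕ} (hn : Even n) (hn0 : n ≠ 0) {ε : ℝ} (hε : ε = 1 ∨ ε = -1) : ∃ θ : ℝ, Ext θ ε n := by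
  have hc : Continuous fun v => ε * bernoulliFun (n + 1) v := continuous_const.mul (bern_cont _)
  obtain ⟨θ0, hθ0, hmax⟩ := isCompact_Icc.exists_isMaxOn (s := Icc (0:ℝ) 1) ⟨0, by simp⟩ hc.continuousOn
  have hodd : n + 1 ≠ 1 := by omega
  have hB0 : bernoulliFun (n + 1) 0 = 0 := by
    rw [bernoulliFun_eval_zero, bernoulli_eq_zero_of_odd hn.add_one (by omega)]
    simp
  have hB1 : bernoulliFun (n + 1) 1 = 0 := by
    rw [bernoulliFun_endpoints_eq_of_ne_one hodd, hB0]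
  have hB2 : bernoulliFun (n + 1) (1 / 2) = 0 := by
    have := bern_symm hn (1 / 2)
    norm_num at this
    norm_num
    linarith
  obtain ⟨θ, hθ0, hθ1, hθm⟩ : ∃ θ : ℝ, 0 < θ ∧ θ < 1 ∧ ∀ v ∈ Icc (0:ℝ) 1, ε * bernoulliFun (n + 1) v ≤ ε * bernoulliFun (n + 1) θ := by
    rcases eq_or_lt_of_le hθ0.1 with h | h
    · refine ⟨1 / 2, by norm_num, by norm_num, fun v hv => ?_⟩
      have := hmax hv
      change ε * bernoulliFun (n + 1) v ≤ ε * bernoulliFun (n + 1) θ0 at this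
      rw [← h, hB0] at this
      rw [hB2]
      exact this
    · rcases eq_or_lt_of_le hθ0.2 with h' | h'
      · refine ⟨1 / 2, by norm_num, by norm_num, fun v hv => ?_⟩
        have this : ε * bernoulliFun (n + 1) v ≤ ε * bernoulliFun (n + 1) θ0 := hmax hv
        rw [h', hB1] at this
        rw [hB2]
        exact this
      · exact ⟨θ0, h, h', fun v hv => hmax hv⟩
  refine ⟨θ, hθ0, hθ1, hn, hn0, ?_, hε, hθm⟩
  have hd : HasDerivAt (fun v => ε * bernoulliFun (n + 1) v) (ε * (((n + 1 : ℕ) : ℝ) * bernoulliFun n θ)) θ := by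
    have := (hasDerivAt_bernoulliFun (n + 1) θ).const_mul ε
    rwa [Nat.add_sub_cancel] at this
  have hloc : IsLocalMax (fun v => ε * bernoulliFun (n + 1) v) θ := by
    filter_upwards [Icc_mem_nhds hθ0 hθ1] with v hv
    exact hθm v hv
  have h0 := hloc.hasDerivAt_eq_zero hd
  have hε0 : ε ≠ 0 := by rcases hε with h | h <;> rw [h] <;> norm_num
  have hn1 : ((n + 1 : ℕ) : ℝ) ≠ 0 := by positivity
  rcases mul_eq_zero.1 h0 with h | h
  · exact absurd h hε0
  · rcases mul_eq_zero.1 h with h | h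
    · exact absurd h hn1
    · exact h

lemma ext_val (h : Ext θ ε n) : ε * bernoulliFun (n + 1) θ = Mx (n + 1) ∧ mn (n + 1) = -Mx (n + 1) := by
  have hs := bern_symm h.hn
  have hθ : θ ∈ Icc (0:ℝ) 1 := ⟨h.h0.le, h.h1.le⟩
  have hθ' : 1 - θ ∈ Icc (0:ℝ) 1 := ⟨by linarith [h.h1], by linarith [h.h0]⟩
  have hG : IsGreatest (bernoulliFun (n + 1) '' Icc 0 1) (ε * bernoulliFun (n + 1) θ) := by
    rcases h.hε1 with h1 | h1
    · rw [h1, one_mul]
      refine ⟨⟨θ, hθ, rfl⟩, ?_⟩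
      rintro _ ⟨v, hv, rfl⟩
      have := h.hε v hv
      rw [h1] at this
      linarith
    · rw [h1]
      refine ⟨⟨1 - θ, hθ', by rw [hs]; ring⟩, ?_⟩
      rintro _ ⟨v, hv, rfl⟩
      have := h.hε (1 - v) ⟨by linarith [hv.2], by linarith [hv.1]⟩
      rw [h1, hs] at this
      linarith
  have hL : IsLeast (bernoulliFun (n + 1) '' Icc 0 1) (-(ε * bernoulliFun (n + 1) θ)) := by
    obtain ⟨⟨w, hw, hw2⟩, h3⟩ := hG
    refine ⟨⟨1 - w, ⟨by linarith [hw.2], by linarith [hw.1]⟩, by rw [hs, hw2]⟩, ?_⟩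
    rintro _ ⟨v, hv, rfl⟩
    have := h3 ⟨1 - v, ⟨by linarith [hv.2], by linarith [hv.1]⟩, rfl⟩
    rw [hs] at this
    linarith
  have e1 : Mx (n + 1) = ε * bernoulliFun (n + 1) θ := hG.csSup_eq
  have e2 : mn (n + 1) = -(ε * bernoulliFun (n + 1) θ) := hL.csInf_eq
  exact ⟨e1.symm, by rw [e2, e1]⟩

lemma tendsto_ratio : Tendsto (fun t : ℝ => Real.log (1 + t) / Real.log t) atTop (𝓝 1) := by
  have h1 : Tendsto (fun t : ℝ => Real.log (1 + t) - Real.log t) atTop (𝓝 0) := by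
    have h2 : Tendsto (fun t : ℝ => Real.log (1 + 1 / t)) atTop (𝓝 0) := by
      have h3 : Tendsto (fun t : ℝ => 1 + 1 / t) atTop (𝓝 1) := by
        have := (tendsto_const_nhds (x := (1:ℝ))).add (tendsto_inv_atTop_zero (𝕜 := ℝ))
        simpa [one_div] using this
      have h4 := (Real.continuousAt_log (x := 1) one_ne_zero).tendsto.comp h3
      rw [Real.log_one] at h4
      exact h4
    refine h2.congr' ?_
    filter_upwards [eventually_gt_atTop 0] with t ht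
    rw [← Real.log_div (by positivity) ht.ne']
    congr 1
    field_simp
    ring
  have h5 : Tendsto (fun t : ℝ => (Real.log (1 + t) - Real.log t) / Real.log t + 1) atTop (𝓝 (0 + 1)) :=
    (h1.div_atTop Real.tendsto_log_atTop).add_const 1
  rw [zero_add] at h5
  refine h5.congr' ?_
  filter_upwards [eventually_gt_atTop 1] with t ht
  have := Real.log_pos ht
  field_simp
  ring

lemma tendsto_pw (k : ℕ) {b : ℝ} (hb : 0 < b) :
    Tendsto (fun t : ℝ => (Real.log (Real.log t)) ^ k * Real.exp (-b * Real.log (Real.log t))) atTop (𝓝 0) := by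
  have h1 : Tendsto (fun w : ℝ => w ^ k * Real.exp (-b * w)) atTop (𝓝 0) := by
    have := Real.tendsto_pow_mul_exp_neg_atTop_nhds_zero k
    have h2 := (this.comp (tendsto_id.const_mul_atTop hb)).const_mul ((1 / b) ^ k)
    rw [mul_zero] at h2
    refine h2.congr fun w => ?_
    simp only [Function.comp, id]
    rw [mul_pow, ← mul_assoc, ← mul_assoc, ← mul_pow, one_div, inv_mul_cancel₀ hb.ne', one_pow, one_mul, neg_mul]
  exact h1.comp (Real.tendsto_log_atTop.comp Real.tendsto_log_atTop)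

/-- one-sided bound -/
theorem one_side (hRH : RiemannHypothesis) {m : ℕ} (hn : Even (m + 1)) {ε : ℝ} (hε : ε = 1 ∨ ε = -1) {e : ℝ} (he : 0 < e) :
    ∀ᶠ t : ℝ in atTop, ε * Sn (m + 1) t ≤
      (Real.pi ^ (m + 1) * Mx (m + 1 + 1) / (2 * (m + 1 + 1).factorial) + e) * Lam (m + 1) t := by
  obtain ⟨θ, h⟩ := exists_ext hn (Nat.succ_ne_zero m) hε
  obtain ⟨hv1, hv2⟩ := ext_val h
  obtain ⟨A, hA⟩ : ∃ A : ℝ, A = Real.pi ^ (m + 1) * Mx (m + 1 + 1) / (2 * (m + 1 + 1).factorial) := ⟨_, rfl⟩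
  rw [← hA]
  have hM0 : M0 ε θ (m + 1) = Real.pi ^ 2 * Mx (m + 1 + 1) / ((m + 1 : ℕ) + 1) := by
    unfold M0
    rw [← hv1]
    ring
  -- choice of the parameter
  obtain ⟨κ, hκ0, hκ1, hκ⟩ : ∃ κ : ℝ, 0 < κ ∧ κ ≤ 1 / 2 ∧ A / (1 - κ) ^ (m + 1 + 1) < A + e := by
    have hc : Tendsto (fun κ : ℝ => A / (1 - κ) ^ (m + 1 + 1)) (𝓝[>] 0) (𝓝 (A / (1 - 0) ^ (m + 1 + 1))) := by
      have : ContinuousAt (fun κ : ℝ => A / (1 - κ) ^ (m + 1 + 1)) 0 :=
        ContinuousAt.div (by fun_prop) (by fun_prop) (by simp)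
      exact this.tendsto.mono_left nhdsWithin_le_nhds
    rw [sub_zero, one_pow, div_one] at hc
    have h1 : ∀ᶠ κ : ℝ in 𝓝[>] 0, κ < 1 / 2 :=
      (gt_mem_nhds (by norm_num : (0:ℝ) < 1 / 2)).filter_mono nhdsWithin_le_nhds
    obtain ⟨κ, h2, h3, h4⟩ := ((hc.eventually (gt_mem_nhds (show A < A + e by linarith))).and (h1.and self_mem_nhdsWithin)).exists
    exact ⟨κ, h4, h3.le, h2⟩
  obtain ⟨C, hC, hmain⟩ := ineq hRH h (δ := κ / 2) (by linarith) (by linarith)
  obtain ⟨c, hc⟩ : ∃ c : ℝ, c = (1 - κ) / Real.pi := ⟨_, rfl⟩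
  have hpi := Real.pi_pos
  have hc0 : 0 < c := by rw [hc]; exact div_pos (by linarith) hpi
  have hf : (0:ℝ) < (m + 1).factorial := by positivity
  obtain ⟨F, hF⟩ : ∃ F : ℝ, F = Real.pi ^ 3 * (m + 1).factorial := ⟨_, rfl⟩
  have hF0 : 0 < F := by rw [hF]; positivity
  -- limit of the ratio
  have hlim : Tendsto (fun t : ℝ => M0 ε θ (m + 1) / (2 * F * c ^ (m + 1 + 1)) * (Real.log (1 + t) / Real.log t) +
      C / (F * c ^ (m + 1 + 1)) * ((Real.log (Real.log t)) ^ 0 * Real.exp (-1 * Real.log (Real.log t))) +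
      C / (F * c ^ (m + 1)) * ((Real.log (Real.log t)) ^ 1 * Real.exp (-(κ ^ 2) * Real.log (Real.log t))) +
      C / F * ((Real.log (Real.log t)) ^ (m + 1 + 1) * Real.exp (-1 * Real.log (Real.log t)))) atTop
      (𝓝 (M0 ε θ (m + 1) / (2 * F * c ^ (m + 1 + 1)) * 1 + C / (F * c ^ (m + 1 + 1)) * 0 + C / (F * c ^ (m + 1)) * 0 + C / F * 0)) :=
    (((tendsto_ratio.const_mul _).add ((tendsto_pw 0 one_pos).const_mul _)).add ((tendsto_pw 1 (by positivity)).const_mul _)).add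
      ((tendsto_pw (m + 1 + 1) one_pos).const_mul _)
  have hval : M0 ε θ (m + 1) / (2 * F * c ^ (m + 1 + 1)) * 1 + C / (F * c ^ (m + 1 + 1)) * 0 + C / (F * c ^ (m + 1)) * 0 + C / F * 0
      = A / (1 - κ) ^ (m + 1 + 1) := by
    rw [hM0, hA, hF, hc, Nat.factorial_succ (m + 1), div_pow]
    have h1 : (1 - κ) ^ (m + 1 + 1) ≠ 0 := pow_ne_zero _ (by linarith)
    have h2 : Real.pi ^ (m + 1 + 1) ≠ 0 := pow_ne_zero _ hpi.ne'
    have h3 : ((m + 1 : ℕ) : ℝ) + 1 ≠ 0 := by positivity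
    push_cast at h3 ⊢
    field_simp
    ring
  rw [hval] at hlim
  have hw : Tendsto (fun t : ℝ => Real.log (Real.log t)) atTop atTop := Real.tendsto_log_atTop.comp Real.tendsto_log_atTop
  filter_upwards [hlim.eventually (gt_mem_nhds hκ), hw.eventually_ge_atTop (1 / c), Real.tendsto_log_atTop.eventually_gt_atTop 1,
    eventually_ge_atTop 1] with t h1 h2 h3 h4
  obtain ⟨L, hL⟩ : ∃ L : ℝ, L = Real.log t := ⟨_, rfl⟩
  obtain ⟨w, hw'⟩ : ∃ w : ℝ, w = Real.log L := ⟨_, rfl⟩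
  rw [← hL] at h1 h2 h3
  rw [← hw'] at h1 h2
  have hL0 : 0 < L := by linarith
  have hLw : L = Real.exp w := by rw [hw', Real.exp_log hL0]
  have hwpos : 0 < w := lt_of_lt_of_le (by positivity) h2
  have hΔ : 1 ≤ c * w := by
    rw [div_le_iff₀ hc0] at h2
    linarith
  have key := hmain t (c * w) h4 hΔ
  have hexp : 2 * Real.pi * (c * w) * (1 / 2 + κ / 2) = (1 - κ ^ 2) * w := by
    rw [hc]
    field_simp
    ring
  rw [hexp] at key
  have hLam : Lam (m + 1) t = L / w ^ (m + 1 + 1) := by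
    unfold Lam
    rw [← hL, ← hw']
  rw [hLam]
  have hLam0 : 0 < L / w ^ (m + 1 + 1) := by positivity
  refine le_trans ?_ (mul_le_mul_of_nonneg_right h1.le hLam0.le)
  have hpow : 0 < F * (c * w) ^ (m + 1) := by positivity
  have key2 : ε * Sn (m + 1) t ≤ (1 / 2 * (Real.log (1 + t) * M0 ε θ (m + 1) / (c * w)) + C / (c * w) +
      C * Real.exp ((1 - κ ^ 2) * w) + C * (c * w) ^ (m + 1)) / (F * (c * w) ^ (m + 1)) := by
    rw [le_div_iff₀ hpow, hF]
    calc ε * Sn (m + 1) t * (Real.pi ^ 3 * (m + 1).factorial * (c * w) ^ (m + 1)) =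
        ε * (Real.pi ^ 3 * (m + 1).factorial * (c * w) ^ (m + 1) * Sn (m + 1) t) := by ring
      _ ≤ _ := key
  refine key2.trans (le_of_eq ?_)
  have e1 : Real.exp (-1 * w) = 1 / L := by
    rw [hLw, neg_one_mul, Real.exp_neg, one_div]
  have e2 : Real.exp ((1 - κ ^ 2) * w) = L * Real.exp (-(κ ^ 2) * w) := by
    rw [hLw, ← Real.exp_add]
    congr 1
    ring
  rw [e1, e2]
  have hwne := hwpos.ne'
  field_simp
  ring

end

end Pool.Agent.HH27.SN
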