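import Pool.Agent.HH27.SN.Loc

set_option autoImplicit false

/-! Growth of the logarithmic derivative of `(s - 1) ζ(s)` to the right of the critical line, and the
lower bound for its real part near the critical line, under the Riemann hypothesis. -/

namespace Pool.Agent.HH27.SN

open Complex Filter Topology Set MeasureTheory Metric

noncomputable section

lemma ne_of_im {s : ℂ} (hs : s.im ≠ 0) : s ≠ 0 ∧ s ≠ 1 := by
  constructor
  · rintro rfl; simp at hs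
  · rintro rfl; simp at hs

lemma zeta_ne (hRH : RiemannHypothesis) {s : ℂ} (hs : 1 / 2 < s.re) (h1 : s ≠ 1) : riemannZeta s ≠ 0 := by
  have h0 : s ≠ 0 := by
    rintro rfl
    simp at hs
    norm_num at hs
  have h := gz_ne hRH hs
  rw [gz_eq h0 h1] at h
  exact right_ne_zero_of_mul h

lemma inv_bd {s : ℂ} (h : 1 ≤ |s.im|) : ‖1 / (s - 1)‖ ≤ 1 := by
  rw [norm_div, norm_one]
  have h1 : 1 ≤ ‖s - 1‖ := by
    have := Complex.abs_im_le_norm (s - 1)
    simp only [sub_im, one_im, sub_zero] at this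
    linarith
  rw [div_le_one (by linarith)]
  exact h1

lemma log_le_sqrt {v : ℝ} (hv : 0 ≤ v) : Real.log (1 + v) ≤ 2 * (1 + v) ^ ((1 / 2) : ℝ) := by
  have h := Real.log_le_rpow_div (x := 1 + v) (ε := 1 / 2) (by linarith) (by norm_num)
  linarith

lemma grow_pos (hRH : RiemannHypothesis) {η : ℝ} (hη : 0 < η) : ∃ K : ℝ, 0 ≤ K ∧ ∀ x v : ℝ,
    1 / 2 + η ≤ x → x ≤ 3 → 3 ≤ v → ‖FF ⟨x, v⟩‖ ≤ K * (1 + Real.log (1 + v)) := by
  obtain ⟨K0, hK0, hb⟩ := H370.Loc.ball_data H370.good_zeta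
  obtain ⟨a1, ha1⟩ : ∃ a1 : ℝ, a1 = Real.log (1.9 / 1.8) := ⟨_, rfl⟩
  obtain ⟨a2, ha2⟩ : ∃ a2 : ℝ, a2 = Real.log (1.8 / (1.9 - 1.8)) := ⟨_, rfl⟩
  have h1 : 0 < a1 := by rw [ha1]; exact Real.log_pos (by norm_num)
  have h2 : 0 < a2 := by rw [ha2]; exact Real.log_pos (by norm_num)
  refine ⟨1 + K0 / a1 / η + 2 * (K0 + K0 / a1 * a2 + 1) * 1.6 / (1.8 - 1.6) / (1.6 - 1.5), by positivity, ?_⟩
  intro x v hx hx3 hv
  obtain ⟨M, hM1, hM2, hM3, hM4, hM5, hM6, hM7⟩ := hb v hv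
  have hlan := H370.Loc.landau (f := riemannZeta) (c := ⟨2, v⟩) (r := 1.8) (r1 := 1.6) (r2 := 1.5) (R := 1.9)
    (M := M) (by norm_num) (by norm_num) (by norm_num) (by norm_num) (by norm_num) hM1 hM5 hM2 hM3 hM4
    ⟨x, v⟩ (by
      rw [mem_closedBall, dist_eq_norm]
      have : ((⟨x, v⟩ : ℂ) - ⟨2, v⟩) = ((x - 2 : ℝ) : ℂ) := by
        apply Complex.ext <;> simp
      rw [this, Complex.norm_real, Real.norm_eq_abs, abs_le]
      constructor <;> linarith) η hη (by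
      intro ρ hρ hz
      rw [mem_closedBall, dist_eq_norm] at hρ
      have e1 := (Complex.abs_re_le_norm (ρ - ⟨2, v⟩)).trans hρ
      have e2 := (Complex.abs_im_le_norm (ρ - ⟨2, v⟩)).trans hρ
      simp only [sub_re, sub_im] at e1 e2
      rw [abs_le] at e1 e2
      have e3 : ρ.re ≤ 1 / 2 := by
        by_contra hcon
        push Not at hcon
        refine zeta_ne hRH hcon ?_ hz
        rintro rfl
        simp at e2
        linarith [e2.1]
      have e4 := Complex.abs_re_le_norm ((⟨x, v⟩ : ℂ) - ρ)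
      simp only [sub_re] at e4
      have e5 := le_abs_self (x - ρ.re)
      linarith)
  obtain ⟨l1, l2⟩ := hlan
  rw [← ha1, ← ha2] at l2
  have him : (⟨x, v⟩ : ℂ).im ≠ 0 := by
    show v ≠ 0
    linarith
  rw [FF_eq (ne_of_im him).1 (ne_of_im him).2 l1]
  refine (norm_add_le _ _).trans ?_
  have e1 := inv_bd (s := ⟨x, v⟩) (by
    show 1 ≤ |v|
    rw [abs_of_pos (by linarith)]
    linarith)
  rw [logDeriv_apply]
  have hl : 0 ≤ Real.log (1 + v) := Real.log_nonneg (by linarith)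
  have hl2 : Real.log v ≤ Real.log (1 + v) := Real.log_le_log (by linarith) (by linarith)
  obtain ⟨Q, hQ⟩ : ∃ Q, Q = Real.log (M / ‖riemannZeta ⟨2, v⟩‖) := ⟨_, rfl⟩
  rw [← hQ] at hM6 hM7 l2
  have hQ2 : Q ≤ K0 * Real.log (1 + v) := hM7.trans (by gcongr)
  obtain ⟨W, hW⟩ : ∃ W, W = 1 + Real.log (1 + v) := ⟨_, rfl⟩
  have hW1 : 1 ≤ W := by linarith
  have hQ3 : Q ≤ K0 * W := hQ2.trans (by rw [hW]; nlinarith)
  rw [← hW]
  calc ‖1 / ((⟨x, v⟩ : ℂ) - 1)‖ + ‖deriv riemannZeta ⟨x, v⟩ / riemannZeta ⟨x, v⟩‖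
      ≤ 1 + (Q / a1 / η + 2 * (Q + Q / a1 * a2 + 1) * 1.6 / (1.8 - 1.6) / (1.6 - 1.5)) := add_le_add e1 l2
    _ ≤ 1 * W + (K0 * W / a1 / η + 2 * (K0 * W + K0 * W / a1 * a2 + 1 * W) * 1.6 / (1.8 - 1.6) / (1.6 - 1.5)) := by
        have h16 : (0:ℝ) < 1.8 - 1.6 := by norm_num
        have h17 : (0:ℝ) < 1.6 - 1.5 := by norm_num
        gcongr
        · linarith
        · linarith
    _ = _ := by ring

lemma grow (hRH : RiemannHypothesis) {η : ℝ} (hη : 0 < η) : ∃ K : ℝ, 0 ≤ K ∧ ∀ s : ℂ,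
    1 / 2 + η ≤ s.re → s.re ≤ 3 → ‖FF s‖ ≤ K * (1 + Real.log (1 + |s.im|)) := by
  obtain ⟨K, hK, h⟩ := grow_pos hRH hη
  have hcomp : IsCompact (Icc (1 / 2 + η) 3 ×ℂ Icc (-3 : ℝ) 3) := isCompact_Icc.reProdIm isCompact_Icc
  obtain ⟨C, hC⟩ := hcomp.exists_bound_of_continuousOn (f := FF) (by
    intro s hs
    rw [mem_reProdIm] at hs
    exact (FF_diff hRH (by linarith [hs.1.1])).continuousAt.continuousWithinAt)
  refine ⟨max K C, le_max_of_le_left hK, fun s h1 h2 => ?_⟩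
  have hl : 0 ≤ Real.log (1 + |s.im|) := Real.log_nonneg (by linarith [abs_nonneg s.im])
  have hs0 : s ≠ 0 := by
    rintro rfl
    simp at h1
    linarith
  rcases le_or_gt |s.im| 3 with h3 | h3
  · have h4 := hC s (by rw [mem_reProdIm]; exact ⟨⟨h1, h2⟩, abs_le.1 h3⟩)
    have h5 : C ≤ max K C := le_max_right _ _
    have h6 : 0 ≤ max K C := le_max_of_le_left hK
    nlinarith
  · have key : ‖FF s‖ ≤ K * (1 + Real.log (1 + |s.im|)) := by
      rcases le_or_gt 0 s.im with h4 | h4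
      · rw [abs_of_nonneg h4] at h3 ⊢
        exact h s.re s.im h1 h2 h3.le
      · rw [abs_of_neg h4] at h3 ⊢
        have h5 := h s.re (-s.im) h1 h2 h3.le
        have e : (⟨s.re, -s.im⟩ : ℂ) = (starRingEnd ℂ) s := by
          apply Complex.ext <;> simp
        rw [e, FF_conj hs0, RCLike.norm_conj] at h5
        exact h5
    refine key.trans ?_
    gcongr
    exact le_max_left _ _

lemma low_pos (hRH : RiemannHypothesis) : ∃ K V0 : ℝ, 0 ≤ K ∧ 1 ≤ V0 ∧ ∀ x v : ℝ, 0 < x → x ≤ 1 / 16 → V0 ≤ v →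
    -(1 / 2 * Real.log v) - K * (1 + x * Real.log v) ≤ (FF ⟨1 / 2 + x, v⟩).re := by
  obtain ⟨C, T0, hC, hT0, h⟩ := SP.loc_exp (RHs_of hRH)
  obtain ⟨C1, hC1, hG⟩ := H370.DL.logDeriv_Gammaℝ_bound
  refine ⟨C + C1 + 1, 3 / 2 * T0 + 10, by positivity, by linarith, ?_⟩
  intro x v hx hx1 hv
  have hv0 : 0 < v := by linarith
  obtain ⟨a1, a2, a3⟩ := h (v / (3 / 2)) (by rw [le_div_iff₀ (by norm_num)]; linarith) v
    (by rw [div_add' _ _ _ (by norm_num), div_le_iff₀ (by norm_num)]; linarith)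
    (by rw [mul_div_assoc']; rw [le_sub_iff_add_le, le_div_iff₀ (by norm_num)]; linarith)
    x v hx hx1 (by simp)
  have him : (⟨1 / 2 + x, v⟩ : ℂ).im ≠ 0 := by
    show v ≠ 0
    linarith
  have hζ : riemannZeta (⟨1 / 2 + x, v⟩ : ℂ) ≠ 0 := zeta_ne hRH (by show (1:ℝ) / 2 < 1 / 2 + x; linarith) (ne_of_im him).2
  have hGd : DifferentiableAt ℂ Gammaℝ (⟨1 / 2 + x, v⟩ : ℂ) := (H370.DL.analyticAt_Gammaℝ him).differentiableAt
  have hGne : Gammaℝ (⟨1 / 2 + x, v⟩ : ℂ) ≠ 0 := Gammaℝ_ne_zero_of_re_pos (by show (0:ℝ) < 1 / 2 + x; linarith)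
  have e1 : logDeriv completedRiemannZeta (⟨1 / 2 + x, v⟩ : ℂ) =
      logDeriv Gammaℝ (⟨1 / 2 + x, v⟩ : ℂ) + logDeriv riemannZeta (⟨1 / 2 + x, v⟩ : ℂ) := by
    have h2 : completedRiemannZeta =ᶠ[𝓝 (⟨1 / 2 + x, v⟩ : ℂ)] fun s => Gammaℝ s * riemannZeta s := by
      have hopen : IsOpen {s : ℂ | s.im ≠ 0} := isOpen_ne_fun Complex.continuous_im continuous_const
      filter_upwards [hopen.mem_nhds him] with w hw
      exact SG.AlgAux.Lam_eq hw
    have h3 : logDeriv completedRiemannZeta (⟨1 / 2 + x, v⟩ : ℂ) =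
        logDeriv (fun s => Gammaℝ s * riemannZeta s) (⟨1 / 2 + x, v⟩ : ℂ) := by
      rw [logDeriv_apply, logDeriv_apply, h2.deriv_eq, h2.eq_of_nhds]
    rw [h3, logDeriv_mul (f := Gammaℝ) _ hGne hζ hGd (differentiableAt_riemannZeta (ne_of_im him).2)]
  rw [FF_eq (ne_of_im him).1 (ne_of_im him).2 hζ, add_re]
  rw [e1, add_re] at a3
  have hsum : 0 ≤ ∑ᶠ s ∈ {s : ℂ | s ∈ SP.ZZ (v / (3 / 2)) ∧ |s.im - v| ≤ 1},
      (SP.mu s : ℝ) * x / (x ^ 2 + (v - s.im) ^ 2) := by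
    refine finsum_nonneg fun s => finsum_nonneg fun _ => ?_
    positivity
  have a4 := (abs_le.1 a3).1
  have hG1 := hG (⟨1 / 2 + x, v⟩ : ℂ) (by show -1 / 2 ≤ (1:ℝ) / 2 + x; linarith) (by show (1:ℝ) / 2 + x ≤ 6; linarith)
    (by show 1 ≤ |v|; rw [abs_of_pos hv0]; linarith)
  have hG2 := (Complex.abs_re_le_norm _).trans hG1
  have hG3 : (logDeriv Gammaℝ (⟨1 / 2 + x, v⟩ : ℂ) - 1 / 2 * (Real.log |(⟨1 / 2 + x, v⟩ : ℂ).im| : ℝ)).re =
      (logDeriv Gammaℝ (⟨1 / 2 + x, v⟩ : ℂ)).re - 1 / 2 * Real.log v := by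
    show (logDeriv Gammaℝ (⟨1 / 2 + x, v⟩ : ℂ) - 1 / 2 * (Real.log |v| : ℝ)).re = _
    rw [abs_of_pos hv0, sub_re]
    congr 1
    have : (1 / 2 * (Real.log v : ℂ) : ℂ) = ((1 / 2 * Real.log v : ℝ) : ℂ) := by push_cast; ring
    rw [this, ofReal_re]
  rw [hG3] at hG2
  have hG4 := (abs_le.1 hG2).2
  have e2 := inv_bd (s := ⟨1 / 2 + x, v⟩) (by
    show 1 ≤ |v|
    rw [abs_of_pos hv0]
    linarith)
  have e3 := (abs_le.1 ((Complex.abs_re_le_norm _).trans e2)).1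
  have hlog : Real.log (v / (3 / 2)) ≤ Real.log v := Real.log_le_log (by positivity) (by
    rw [div_le_iff₀ (by norm_num)]; linarith)
  have hlv : 0 ≤ Real.log v := Real.log_nonneg (by linarith)
  have e5 : C * x * Real.log (v / (3 / 2)) ≤ C * (x * Real.log v) := by
    rw [← mul_assoc]
    exact mul_le_mul_of_nonneg_left hlog (by positivity)
  have e6 : 0 ≤ x * Real.log v := by positivity
  nlinarith

/-- lower bound for the real part -/
lemma low (hRH : RiemannHypothesis) : ∃ K x0 : ℝ, 0 ≤ K ∧ 0 < x0 ∧ ∀ x v : ℝ, 0 < x → x < x0 →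
    -(1 / 2 * Real.log (1 + |v|)) - K * (1 + x * Real.log (1 + |v|)) ≤ (FF ⟨1 / 2 + x, v⟩).re := by
  obtain ⟨K, V0, hK, hV0, h⟩ := low_pos hRH
  obtain ⟨K', x0, hK', hx0, h'⟩ := FF_low_compact V0
  refine ⟨max K K', min x0 (1 / 16), le_max_of_le_left hK, by positivity, ?_⟩
  intro x v hx hx2
  have hx3 := lt_min_iff.1 hx2
  have hl : 0 ≤ Real.log (1 + |v|) := Real.log_nonneg (by linarith [abs_nonneg v])
  rcases le_or_gt |v| V0 with h3 | h3
  · have h4 := h' x v hx hx3.1 h3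
    have h5 : K' ≤ max K K' := le_max_right _ _
    have h6 : 0 ≤ max K K' := le_max_of_le_left hK
    have h7 : 0 ≤ x * Real.log (1 + |v|) := by positivity
    nlinarith
  · have key : -(1 / 2 * Real.log |v|) - K * (1 + x * Real.log |v|) ≤ (FF ⟨1 / 2 + x, v⟩).re := by
      rcases le_or_gt 0 v with h4 | h4
      · rw [abs_of_nonneg h4] at h3 ⊢
        exact h x v hx hx3.2.le h3.le
      · rw [abs_of_neg h4] at h3 ⊢
        have h5 := h x (-v) hx hx3.2.le h3.le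
        have e : (⟨1 / 2 + x, -v⟩ : ℂ) = (starRingEnd ℂ) (⟨1 / 2 + x, v⟩ : ℂ) := by
          apply Complex.ext <;> simp
        rw [e, FF_conj (by
          intro h0
          have := congrArg Complex.re h0
          simp at this
          linarith), conj_re] at h5
        exact h5
    have hl2 : Real.log |v| ≤ Real.log (1 + |v|) := Real.log_le_log (by linarith) (by linarith)
    have hl3 : 0 ≤ Real.log |v| := Real.log_nonneg (by linarith)
    have h5 : K ≤ max K K' := le_max_left _ _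
    have h6 : x * Real.log |v| ≤ x * Real.log (1 + |v|) := by gcongr
    have h8 : 0 ≤ x * Real.log (1 + |v|) := by positivity
    have h7 : K * (1 + x * Real.log |v|) ≤ max K K' * (1 + x * Real.log (1 + |v|)) := by gcongr
    linarith

end

end Pool.Agent.HH27.SN
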