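import Pool.Agent.H382P.LocExp
import Pool.Agent.H370R2.DirGood

set_option autoImplicit false

/-! The entire function `(s - 1) ζ(s)` and its logarithmic derivative. -/

namespace Pool.Agent.HH27.SN

open Complex Filter Topology Set MeasureTheory

noncomputable section

/-- `(s - 1) ζ(s)` (for `s ≠ 0`) -/
def gz (s : ℂ) : ℂ := ((s - 1) * completedRiemannZeta₀ s + 1 / s) * (Gammaℝ s)⁻¹

lemma gz_diff {s : ℂ} (hs : s ≠ 0) : DifferentiableAt ℂ gz s := by
  unfold gz
  have h1 := differentiable_completedZeta₀ s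
  have h2 := differentiable_Gammaℝ_inv s
  have h3 : DifferentiableAt ℂ (fun s : ℂ => 1 / s) s :=
    DifferentiableAt.div (by fun_prop) (by fun_prop) hs
  have h4 : DifferentiableAt ℂ (fun s : ℂ => s - 1) s := by fun_prop
  exact ((h4.mul h1).add h3).mul h2

lemma gz_eq {s : ℂ} (h0 : s ≠ 0) (h1 : s ≠ 1) : gz s = (s - 1) * riemannZeta s := by
  rw [riemannZeta_def_of_ne_zero h0, completedRiemannZeta_eq]
  unfold gz
  have h2 : 1 - s ≠ 0 := sub_ne_zero.2 (Ne.symm h1)
  rw [div_eq_mul_inv _ (Gammaℝ s)]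
  rw [← mul_assoc]
  congr 1
  field_simp
  ring

lemma gz_one : gz 1 = 1 := by
  unfold gz
  simp [Gammaℝ_one]

lemma gz_ne (hRH : RiemannHypothesis) {s : ℂ} (hs : 1 / 2 < s.re) : gz s ≠ 0 := by
  have h0 : s ≠ 0 := by
    rintro rfl
    simp at hs
    norm_num at hs
  by_cases h1 : s = 1
  · rw [h1, gz_one]; exact one_ne_zero
  · rw [gz_eq h0 h1]
    refine mul_ne_zero (sub_ne_zero.2 h1) ?_
    intro hz
    have := hRH s hz (by
      rintro ⟨n, hn⟩
      rw [hn] at hs
      simp at hs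
      have : (0:ℝ) ≤ n := Nat.cast_nonneg n
      nlinarith) h1
    linarith

lemma RHs_of (hRH : RiemannHypothesis) : SP.RHs := by
  intro s h0 h1 hz
  refine hRH s hz ?_ ?_
  · rintro ⟨n, hn⟩
    rw [hn] at h0
    simp at h0
    have : (0:ℝ) ≤ n := Nat.cast_nonneg n
    nlinarith
  · rintro rfl
    simp at h1

lemma gz_conj {s : ℂ} (h0 : s ≠ 0) : gz ((starRingEnd ℂ) s) = (starRingEnd ℂ) (gz s) := by
  have h0' : (starRingEnd ℂ) s ≠ 0 := by
    rw [map_ne_zero]
    exact h0
  by_cases h1 : s = 1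
  · rw [h1, map_one, gz_one, map_one]
  · have h1' : (starRingEnd ℂ) s ≠ 1 := by
      intro h
      apply h1
      have := congrArg (starRingEnd ℂ) h
      rwa [Complex.conj_conj, map_one] at this
    rw [gz_eq h0 h1, gz_eq h0' h1', map_mul, map_sub, map_one, riemannZeta_conj]

/-- the logarithmic derivative of `(s - 1) ζ(s)` -/
def FF (s : ℂ) : ℂ := logDeriv gz s

lemma FF_eq {s : ℂ} (h0 : s ≠ 0) (h1 : s ≠ 1) (hz : riemannZeta s ≠ 0) :
    FF s = 1 / (s - 1) + logDeriv riemannZeta s := by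
  unfold FF
  have h2 : gz =ᶠ[𝓝 s] fun s => (s - 1) * riemannZeta s := by
    filter_upwards [isOpen_ne.mem_nhds h0, isOpen_ne.mem_nhds h1] with w hw0 hw1
    exact gz_eq hw0 hw1
  have h3 : logDeriv gz s = logDeriv (fun s => (s - 1) * riemannZeta s) s := by
    rw [logDeriv_apply, logDeriv_apply, h2.deriv_eq, h2.eq_of_nhds]
  rw [h3, logDeriv_mul (f := fun s : ℂ => s - 1) s (sub_ne_zero.2 h1) hz (by fun_prop) (differentiableAt_riemannZeta h1)]
  congr 1
  rw [logDeriv_apply, deriv_sub_const, deriv_id'']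

lemma FF_diff (hRH : RiemannHypothesis) {s : ℂ} (hs : 1 / 2 < s.re) : DifferentiableAt ℂ FF s := by
  have h0 : s ≠ 0 := by
    rintro rfl
    simp at hs
    norm_num at hs
  have hopen : IsOpen {s : ℂ | 1 / 2 < s.re} := isOpen_lt continuous_const Complex.continuous_re
  have hd : DifferentiableOn ℂ gz {s : ℂ | 1 / 2 < s.re} := by
    intro w hw
    have hw' : 1 / 2 < w.re := hw
    refine (gz_diff ?_).differentiableWithinAt
    rintro rfl
    simp at hw'
    norm_num at hw'
  have han : AnalyticAt ℂ gz s := (hd.analyticOnNhd hopen) s hs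
  exact (han.deriv.div han (gz_ne hRH hs)).differentiableAt

lemma FF_conj {s : ℂ} (h0 : s ≠ 0) : FF ((starRingEnd ℂ) s) = (starRingEnd ℂ) (FF s) := by
  unfold FF
  rw [logDeriv_apply, logDeriv_apply, map_div₀, gz_conj h0]
  congr 1
  have h1 := deriv_conj_conj (f := gz)
  have h2 : (⇑(starRingEnd ℂ) ∘ gz ∘ ⇑(starRingEnd ℂ)) =ᶠ[𝓝 s] gz := by
    filter_upwards [isOpen_ne.mem_nhds h0] with w hw
    simp only [Function.comp]
    rw [gz_conj hw, Complex.conj_conj]
  have h3 := congrFun h1 s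
  rw [h2.deriv_eq] at h3
  have h4 := congrArg (starRingEnd ℂ) h3
  simp only [Function.comp] at h4
  rw [Complex.conj_conj] at h4
  exact h4.symm

end

end Pool.Agent.HH27.SN
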