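import Pool.Agent.HH27.SN.Dom

set_option autoImplicit false

/-! Moments of the logarithm of zeta on horizontal half-lines. -/

namespace Pool.Agent.HH27.SN

open Complex Filter Topology Set MeasureTheory Metric

noncomputable section

/-- moments of the logarithm of zeta on a horizontal half-line -/
def KK (m : ℕ) (x y : ℝ) : ℂ := ∫ v in Ioi x, ((v - x : ℝ) : ℂ) ^ m * ell (v + y * I)

lemma log_contW {z : ℂ} (hz : z ≠ 0) (h : 0 ≤ z.im) : ContinuousWithinAt Complex.log {z : ℂ | 0 ≤ z.im} z := by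
  rcases eq_or_lt_of_le h with h1 | h1
  · rcases lt_trichotomy z.re 0 with h2 | h2 | h2
    · exact Complex.continuousWithinAt_log_of_re_neg_of_im_zero h2 h1.symm
    · exact absurd (Complex.ext h2 h1.symm) hz
    · exact (continuousAt_clog (mem_slitPlane_iff.2 (Or.inl h2))).continuousWithinAt
  · exact (continuousAt_clog (mem_slitPlane_iff.2 (Or.inr h1.ne'))).continuousWithinAt

lemma ell_contW (hRH : RiemannHypothesis) {s : ℂ} (hs : 1 / 2 < s.re) (h0 : 0 ≤ s.im) (h1 : s ≠ 1) :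
    ContinuousWithinAt ell {z : ℂ | 0 ≤ z.im} s := by
  unfold ell
  refine (((L0_spec hRH).1 s hs).continuousAt.continuousWithinAt).sub ?_
  have h2 := log_contW (z := s - 1) (sub_ne_zero.2 h1) (by simpa using h0)
  refine ContinuousWithinAt.comp (f := fun s : ℂ => s - 1) h2 (by fun_prop) ?_
  intro z hz
  simpa using hz

lemma ell_horiz_aesm (hRH : RiemannHypothesis) (y : ℝ) :
    AEStronglyMeasurable (fun v : ℝ => ell (v + y * I)) (volume.restrict (Ioi (1 / 2))) := by
  unfold ell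
  refine AEStronglyMeasurable.sub ?_ ?_
  · refine ContinuousOn.aestronglyMeasurable ?_ measurableSet_Ioi
    intro v hv
    have hv' : (1:ℝ) / 2 < v := hv
    have h1 : ContinuousAt L0 (v + y * I) := ((L0_spec hRH).1 _ (by simpa using hv')).continuousAt
    exact (ContinuousAt.comp (f := fun v : ℝ => ((v : ℂ) + y * I)) h1 (by fun_prop)).continuousWithinAt
  · exact (Complex.measurable_log.comp (by fun_prop)).aestronglyMeasurable

lemma ae_ne_one (s : Set ℝ) : ∀ᵐ v ∂(volume.restrict s), v ≠ (1:ℝ) :=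
  ae_restrict_of_ae (Measure.ae_ne volume 1)

lemma KK_integrable (hRH : RiemannHypothesis) (m : ℕ) {x : ℝ} (y : ℝ) (hx : 1 / 2 ≤ x) :
    IntegrableOn (fun v : ℝ => ((v - x : ℝ) : ℂ) ^ m * ell (v + y * I)) (Ioi x) := by
  obtain ⟨W, hW, -, -, h⟩ := dom hRH |y| m
  have hsub : Ioi x ⊆ Ioi (1 / 2) := Ioi_subset_Ioi hx
  refine Integrable.mono' (hW.mono_set hsub) ?_ ?_
  · exact AEStronglyMeasurable.mul (by fun_prop) ((ell_horiz_aesm hRH y).mono_measure (Measure.restrict_mono_set _ hsub))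
  · filter_upwards [ae_restrict_mem measurableSet_Ioi, ae_ne_one _] with v hv hv1
    have hv' : x < v := hv
    exact h x v y (by linarith) hv'.le (by linarith) hv1 le_rfl

lemma KK_bd (hRH : RiemannHypothesis) (m : ℕ) (T : ℝ) : ∃ C : ℝ, 0 ≤ C ∧ ∀ x y : ℝ, 1 / 2 ≤ x → |y| ≤ T →
    ‖KK m x y‖ ≤ C := by
  obtain ⟨W, hW, -, hW0, h⟩ := dom hRH T m
  refine ⟨∫ v in Ioi (1 / 2), W v, setIntegral_nonneg measurableSet_Ioi fun v _ => hW0 v, fun x y hx hy => ?_⟩
  have hsub : Ioi x ⊆ Ioi (1 / 2) := Ioi_subset_Ioi hx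
  unfold KK
  calc ‖∫ v in Ioi x, ((v - x : ℝ) : ℂ) ^ m * ell (v + y * I)‖ ≤ ∫ v in Ioi x, W v := by
        refine norm_integral_le_of_norm_le (hW.mono_set hsub) ?_
        filter_upwards [ae_restrict_mem measurableSet_Ioi, ae_ne_one _] with v hv hv1
        have hv' : x < v := hv
        exact h x v y (by linarith) hv'.le (by linarith) hv1 hy
    _ ≤ _ := setIntegral_mono_set hW (Eventually.of_forall hW0) (HasSubset.Subset.eventuallyLE hsub)

lemma KK_eq (m : ℕ) {x : ℝ} (y : ℝ) (hx : 1 / 2 ≤ x) :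
    KK m x y = ∫ v in Ioi (1 / 2), (Ioi x).indicator (fun v => ((v - x : ℝ) : ℂ) ^ m * ell (v + y * I)) v := by
  unfold KK
  rw [setIntegral_indicator measurableSet_Ioi, inter_eq_self_of_subset_right (Ioi_subset_Ioi hx)]

/-- the moments are continuous up to the boundary of the quadrant -/
lemma KK_cont (hRH : RiemannHypothesis) (m : ℕ) {x0 y0 : ℝ} (hx : 1 / 2 ≤ x0) (hy : 0 ≤ y0) :
    Tendsto (fun p : ℝ × ℝ => KK m p.1 p.2) (𝓝[Ici (1 / 2) ×ˢ Ici 0] (x0, y0)) (𝓝 (KK m x0 y0)) := by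
  obtain ⟨W, hW, -, hW0, h⟩ := dom hRH (y0 + 1) m
  rw [KK_eq m y0 hx]
  have hev : ∀ᶠ p in 𝓝[Ici (1 / 2) ×ˢ Ici 0] (x0, y0), p ∈ Ici (1 / 2 : ℝ) ×ˢ Ici (0:ℝ) := self_mem_nhdsWithin
  have hev2 : ∀ᶠ p : ℝ × ℝ in 𝓝[Ici (1 / 2) ×ˢ Ici 0] (x0, y0), p.2 < y0 + 1 := by
    have : ∀ᶠ p : ℝ × ℝ in 𝓝 (x0, y0), p.2 < y0 + 1 :=
      (continuous_snd.tendsto (x0, y0)).eventually (gt_mem_nhds (by show y0 < y0 + 1; linarith))
    exact this.filter_mono nhdsWithin_le_nhds
  have hcongr : (fun p : ℝ × ℝ => KK m p.1 p.2) =ᶠ[𝓝[Ici (1 / 2) ×ˢ Ici 0] (x0, y0)] fun p =>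
      ∫ v in Ioi (1 / 2), (Ioi p.1).indicator (fun v => ((v - p.1 : ℝ) : ℂ) ^ m * ell (v + p.2 * I)) v := by
    filter_upwards [hev] with p hp
    exact KK_eq m p.2 hp.1
  refine Tendsto.congr' hcongr.symm ?_
  refine tendsto_integral_filter_of_dominated_convergence W ?_ ?_ hW ?_
  · filter_upwards [hev] with p hp
    exact (AEStronglyMeasurable.mul (by fun_prop) (ell_horiz_aesm hRH p.2)).indicator measurableSet_Ioi
  · filter_upwards [hev, hev2] with p hp hp2
    filter_upwards [ae_restrict_mem measurableSet_Ioi, ae_ne_one _] with v hv hv1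
    have hv' : (1:ℝ) / 2 < v := hv
    have hp0 : (1:ℝ) / 2 ≤ p.1 := hp.1
    have hp1 : (0:ℝ) ≤ p.2 := hp.2
    by_cases hvp : v ∈ Ioi p.1
    · rw [indicator_of_mem hvp]
      exact h p.1 v p.2 (by linarith) (le_of_lt hvp) hv' hv1 (by rw [abs_of_nonneg hp1]; exact hp2.le)
    · rw [indicator_of_notMem hvp, norm_zero]
      exact hW0 v
  · have hne : ∀ᵐ v ∂(volume.restrict (Ioi (1 / 2 : ℝ))), v ≠ x0 := ae_restrict_of_ae (Measure.ae_ne volume x0)
    filter_upwards [ae_restrict_mem measurableSet_Ioi, ae_ne_one _, hne] with v hv hv1 hv2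
    have hv' : (1:ℝ) / 2 < v := hv
    have ht1 : Tendsto (fun p : ℝ × ℝ => p.1) (𝓝[Ici (1 / 2) ×ˢ Ici 0] (x0, y0)) (𝓝 x0) :=
      (continuous_fst.tendsto (x0, y0)).mono_left nhdsWithin_le_nhds
    have ht2 : Tendsto (fun p : ℝ × ℝ => p.2) (𝓝[Ici (1 / 2) ×ˢ Ici 0] (x0, y0)) (𝓝 y0) :=
      (continuous_snd.tendsto (x0, y0)).mono_left nhdsWithin_le_nhds
    rcases lt_or_gt_of_ne hv2 with h3 | h3
    · have e1 : ∀ᶠ p : ℝ × ℝ in 𝓝[Ici (1 / 2) ×ˢ Ici 0] (x0, y0), v < p.1 := ht1.eventually (lt_mem_nhds h3)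
      have e2 : v ∉ Ioi x0 := fun h => absurd h (not_lt.2 h3.le)
      rw [indicator_of_notMem e2]
      refine tendsto_const_nhds.congr' ?_
      filter_upwards [e1] with p hp
      have e3 : v ∉ Ioi p.1 := fun h => absurd h (not_lt.2 hp.le)
      rw [indicator_of_notMem e3]
    · have e1 : ∀ᶠ p : ℝ × ℝ in 𝓝[Ici (1 / 2) ×ˢ Ici 0] (x0, y0), p.1 < v := ht1.eventually (gt_mem_nhds h3)
      rw [indicator_of_mem (show v ∈ Ioi x0 from h3)]
      have e4 : Tendsto (fun p : ℝ × ℝ => ((v - p.1 : ℝ) : ℂ) ^ m * ell (v + p.2 * I))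
          (𝓝[Ici (1 / 2) ×ˢ Ici 0] (x0, y0)) (𝓝 (((v - x0 : ℝ) : ℂ) ^ m * ell (v + y0 * I))) := by
        refine Tendsto.mul ?_ ?_
        · exact ((Complex.continuous_ofReal.tendsto _).comp (tendsto_const_nhds.sub ht1)).pow m
        · have h5 := ell_contW hRH (s := v + y0 * I) (by simpa using hv') (by simpa using hy) (by
            intro h6
            have := congrArg Complex.re h6
            simp at this
            exact hv1 this)
          refine h5.tendsto.comp (tendsto_nhdsWithin_iff.2 ⟨?_, ?_⟩)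
          · exact tendsto_const_nhds.add (((Complex.continuous_ofReal.tendsto _).comp ht2).mul tendsto_const_nhds)
          · filter_upwards [hev] with p hp
            have hp1 : (0:ℝ) ≤ p.2 := hp.2
            simpa using hp1
      refine e4.congr' ?_
      filter_upwards [e1] with p hp
      rw [indicator_of_mem (show v ∈ Ioi p.1 from hp)]

lemma ld_analytic (hRH : RiemannHypothesis) {s : ℂ} (hs : 1 / 2 < s.re) (h1 : s ≠ 1) :
    ContinuousAt (logDeriv riemannZeta) s := by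
  have h1' : AnalyticAt ℂ riemannZeta s := by
    have hdd : DifferentiableOn ℂ riemannZeta {s : ℂ | s ≠ 1} :=
      fun w hw => (differentiableAt_riemannZeta hw).differentiableWithinAt
    exact (hdd.analyticOnNhd isOpen_ne) _ h1
  exact (h1'.deriv.div h1' (zeta_ne hRH hs h1)).continuousAt

lemma ne_one_of_im {v y : ℝ} (hy : y ≠ 0) : (v : ℂ) + y * I ≠ 1 := by
  intro h
  have := congrArg Complex.im h
  simp at this
  exact hy this

lemma ld_strip (hRH : RiemannHypothesis) {x y1 y2 : ℝ} (hx : 1 / 2 < x) (hy1 : 0 < y1) : ∃ C : ℝ, 0 ≤ C ∧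
    ∀ v y : ℝ, x ≤ v → y1 ≤ y → y ≤ y2 → ‖logDeriv riemannZeta (v + y * I)‖ ≤ C * ex v := by
  obtain ⟨C, hC, h⟩ := ld_bd' (δ := 1) one_pos
  have hcomp : IsCompact (Icc x 2 ×ˢ Icc y1 y2) := isCompact_Icc.prod isCompact_Icc
  have hcont : ContinuousOn (fun p : ℝ × ℝ => logDeriv riemannZeta (p.1 + p.2 * I)) (Icc x 2 ×ˢ Icc y1 y2) := by
    rintro ⟨v, y⟩ ⟨hv, hy⟩
    simp only at hv hy
    have h1 : ContinuousAt (logDeriv riemannZeta) (v + y * I) :=
      ld_analytic hRH (by simp; linarith [hv.1]) (ne_one_of_im (by linarith [hy.1]))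
    exact (ContinuousAt.comp (f := fun p : ℝ × ℝ => ((p.1 : ℂ) + p.2 * I)) (x := (v, y)) h1
      (by fun_prop)).continuousWithinAt
  obtain ⟨K, hK⟩ := hcomp.exists_bound_of_continuousOn hcont
  refine ⟨max K 0 * Real.exp 1 + C, by positivity, fun v y hv h1 h2 => ?_⟩
  rcases le_or_gt v 2 with h3 | h3
  · have h4 := hK (v, y) ⟨⟨hv, h3⟩, ⟨h1, h2⟩⟩
    simp only at h4
    have h5 : 1 ≤ Real.exp 1 * ex v := by
      unfold ex
      rw [← Real.exp_add]
      exact Real.one_le_exp (by linarith)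
    have h6 := ex_pos v
    calc ‖logDeriv riemannZeta (v + y * I)‖ ≤ max K 0 := h4.trans (le_max_left _ _)
      _ ≤ max K 0 * (Real.exp 1 * ex v) := le_mul_of_one_le_right (le_max_right _ _) h5
      _ ≤ _ := by
          have : 0 ≤ C * ex v := by positivity
          linarith
  · have h4 := h (v + y * I) (by simp; linarith)
    simp only [add_re, ofReal_re, mul_re, I_re, mul_zero, ofReal_im, I_im, mul_one, sub_self, add_zero] at h4
    refine h4.trans ?_
    have h6 := ex_pos v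
    have : 0 ≤ max K 0 * Real.exp 1 := by positivity
    gcongr
    linarith

lemma pow_ex {x v : ℝ} (hx : 0 ≤ x) (hv : x ≤ v) (m : ℕ) :
    (v - x) ^ m * ex v ≤ 4 ^ m * m.factorial * Real.exp (-(1 / 4) * v) := by
  have e2 : (v - x) ^ m ≤ v ^ m := by
    apply pow_le_pow_left₀ (by linarith)
    linarith
  have e4 : v ^ m ≤ 4 ^ m * m.factorial * Real.exp (1 / 4 * v) := by
    have := Real.pow_div_factorial_le_exp (v / 4) (by linarith) m
    rw [div_le_iff₀ (by positivity), div_pow, div_le_iff₀ (by positivity)] at this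
    calc v ^ m ≤ Real.exp (v / 4) * m.factorial * 4 ^ m := this
      _ = _ := by rw [show v / 4 = 1 / 4 * v by ring]; ring
  have h0 := ex_pos v
  calc (v - x) ^ m * ex v ≤ (4 ^ m * m.factorial * Real.exp (1 / 4 * v)) * ex v := by
        gcongr
        exact e2.trans e4
    _ = 4 ^ m * m.factorial * (Real.exp (1 / 4 * v) * ex v) := by ring
    _ = _ := by
        unfold ex
        rw [← Real.exp_add]
        congr 2
        ring

/-- joint integrability -/
lemma ld_joint (hRH : RiemannHypothesis) (m : ℕ) {x y1 y2 : ℝ} (hx : 1 / 2 < x) (hy1 : 0 < y1) :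
    Integrable (Function.uncurry fun v τ : ℝ => ((v - x : ℝ) : ℂ) ^ m * logDeriv riemannZeta (v + τ * I))
      ((volume.restrict (Ioi x)).prod (volume.restrict (Ioc y1 y2))) := by
  obtain ⟨C, hC, h⟩ := ld_strip hRH (y2 := y2) hx hy1
  have hd : Integrable (fun p : ℝ × ℝ => (C * (4 ^ m * m.factorial) * Real.exp (-(1 / 4) * p.1)) * (1:ℝ))
      ((volume.restrict (Ioi x)).prod (volume.restrict (Ioc y1 y2))) := by
    refine Integrable.mul_prod (f := fun v : ℝ => C * (4 ^ m * m.factorial) * Real.exp (-(1 / 4) * v))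
      (g := fun _ => (1:ℝ)) ?_ ?_
    · exact (integrableOn_exp_mul_Ioi (by norm_num) x).const_mul _
    · exact integrable_const _
  have hset : ((volume.restrict (Ioi x)).prod (volume.restrict (Ioc y1 y2)) : Measure (ℝ × ℝ)) =
      (volume.prod volume).restrict (Ioi x ×ˢ Ioc y1 y2) := Measure.prod_restrict _ _
  refine Integrable.mono' hd ?_ ?_
  · rw [hset]
    refine ContinuousOn.aestronglyMeasurable ?_ (measurableSet_Ioi.prod measurableSet_Ioc)
    rintro ⟨v, y⟩ ⟨hv, hy⟩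
    have hv' : x < v := hv
    have hy' : y1 < y := hy.1
    have h1 : ContinuousAt (logDeriv riemannZeta) (v + y * I) :=
      ld_analytic hRH (by simp; linarith) (ne_one_of_im (by linarith))
    have h2 : ContinuousAt (fun p : ℝ × ℝ => logDeriv riemannZeta (p.1 + p.2 * I)) (v, y) :=
      ContinuousAt.comp (f := fun p : ℝ × ℝ => ((p.1 : ℂ) + p.2 * I)) (x := (v, y)) h1 (by fun_prop)
    have h3 : ContinuousAt (fun p : ℝ × ℝ => ((p.1 - x : ℝ) : ℂ) ^ m) (v, y) := by fun_prop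
    exact (h3.mul h2).continuousWithinAt
  · rw [hset]
    filter_upwards [ae_restrict_mem (measurableSet_Ioi.prod measurableSet_Ioc)] with p hp
    obtain ⟨hv, hy⟩ := hp
    have hv' : x < p.1 := hv
    have h1 := h p.1 p.2 hv'.le hy.1.le hy.2
    have h2 := pow_ex (x := x) (v := p.1) (by linarith) hv'.le m
    show ‖((p.1 - x : ℝ) : ℂ) ^ m * logDeriv riemannZeta (p.1 + p.2 * I)‖ ≤ _
    rw [norm_mul, norm_pow, Complex.norm_real, Real.norm_eq_abs, abs_of_pos (sub_pos.2 hv')]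
    have h3 : 0 ≤ (p.1 - x) ^ m := by
      have : 0 ≤ p.1 - x := by linarith
      positivity
    calc (p.1 - x) ^ m * ‖logDeriv riemannZeta (p.1 + p.2 * I)‖ ≤ (p.1 - x) ^ m * (C * ex p.1) := by gcongr
      _ = C * ((p.1 - x) ^ m * ex p.1) := by ring
      _ ≤ C * (4 ^ m * m.factorial * Real.exp (-(1 / 4) * p.1)) := by gcongr
      _ = _ := by ring

lemma ld_integrable (hRH : RiemannHypothesis) (m : ℕ) {x y : ℝ} (hx : 1 / 2 < x) (hy : 0 < y) :
    IntegrableOn (fun v : ℝ => ((v - x : ℝ) : ℂ) ^ m * logDeriv riemannZeta (v + y * I)) (Ioi x) := by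
  obtain ⟨C, hC, h⟩ := ld_strip hRH (y2 := y) hx hy
  refine Integrable.mono' (g := fun v => C * (4 ^ m * m.factorial) * Real.exp (-(1 / 4) * v))
    ((integrableOn_exp_mul_Ioi (by norm_num) x).const_mul _) ?_ ?_
  · refine ContinuousOn.aestronglyMeasurable ?_ measurableSet_Ioi
    intro v hv
    have hv' : x < v := hv
    have h1 : ContinuousAt (logDeriv riemannZeta) (v + y * I) :=
      ld_analytic hRH (by simp; linarith) (ne_one_of_im hy.ne')
    have h2 : ContinuousAt (fun v : ℝ => logDeriv riemannZeta (v + y * I)) v :=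
      ContinuousAt.comp (f := fun v : ℝ => ((v : ℂ) + y * I)) h1 (by fun_prop)
    have h3 : ContinuousAt (fun v : ℝ => ((v - x : ℝ) : ℂ) ^ m) v := by fun_prop
    exact (h3.mul h2).continuousWithinAt
  · filter_upwards [ae_restrict_mem measurableSet_Ioi] with v hv
    have hv' : x < v := hv
    have h1 := h v y hv'.le le_rfl le_rfl
    have h2 := pow_ex (x := x) (v := v) (by linarith) hv'.le m
    rw [norm_mul, norm_pow, Complex.norm_real, Real.norm_eq_abs, abs_of_pos (sub_pos.2 hv')]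
    have h3 : 0 ≤ (v - x) ^ m := by
      have : 0 ≤ v - x := by linarith
      positivity
    calc (v - x) ^ m * ‖logDeriv riemannZeta (v + y * I)‖ ≤ (v - x) ^ m * (C * ex v) := by gcongr
      _ = C * ((v - x) ^ m * ex v) := by ring
      _ ≤ C * (4 ^ m * m.factorial * Real.exp (-(1 / 4) * v)) := by gcongr
      _ = _ := by ring

end

end Pool.Agent.HH27.SN
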