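import Pool.Agent.HH27.SN.KK

set_option autoImplicit false

/-! Integration by parts and vertical variation of the moments. -/

namespace Pool.Agent.HH27.SN

open Complex Filter Topology Set MeasureTheory Metric

noncomputable section

lemma ell_hasDeriv_horiz (hRH : RiemannHypothesis) {v y : ℝ} (hv : 1 / 2 < v) (hy : 0 < y) :
    HasDerivAt (fun v : ℝ => ell (v + y * I)) (logDeriv riemannZeta (v + y * I)) v := by
  have h1 := ell_deriv hRH (s := v + y * I) (by simpa using hv) (by simpa using hy)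
  have h2 : HasDerivAt (fun v : ℝ => ((v : ℂ) + y * I)) 1 v := by
    have := (Complex.ofRealCLM.hasDerivAt (x := v)).add_const (y * I : ℂ)
    simpa using this
  have h3 := HasDerivAt.comp_of_eq (h₂ := ell) (h := fun v : ℝ => ((v : ℂ) + y * I)) v h1 h2 rfl
  rw [mul_one] at h3
  exact h3

lemma ell_hasDeriv_vert (hRH : RiemannHypothesis) {v y : ℝ} (hv : 1 / 2 < v) (hy : 0 < y) :
    HasDerivAt (fun y : ℝ => ell (v + y * I)) (logDeriv riemannZeta (v + y * I) * I) y := by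
  have h1 := ell_deriv hRH (s := v + y * I) (by simpa using hv) (by simpa using hy)
  have h2 : HasDerivAt (fun y : ℝ => ((v : ℂ) + y * I)) I y := by
    have := ((Complex.ofRealCLM.hasDerivAt (x := y)).mul_const I).const_add (v : ℂ)
    simpa using this
  exact HasDerivAt.comp_of_eq (h₂ := ell) (h := fun y : ℝ => ((v : ℂ) + y * I)) y h1 h2 rfl

lemma ell_tendsto (hRH : RiemannHypothesis) (x : ℝ) (y : ℝ) (m : ℕ) :
    Tendsto (fun v : ℝ => ((v - x : ℝ) : ℂ) ^ m * ell (v + y * I)) atTop (𝓝 0) := by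
  obtain ⟨C, hC, h⟩ := ell_decay hRH
  rw [tendsto_zero_iff_norm_tendsto_zero]
  have h1 : Tendsto (fun v : ℝ => C * (4 ^ m * m.factorial * Real.exp (-(1 / 4) * v)) * Real.exp (|x| / 2)) atTop (𝓝 0) := by
    have h : Tendsto (fun x : ℝ => -(1 / 4) * x) atTop atBot :=
      tendsto_id.const_mul_atTop_of_neg (by norm_num)
    have := (((Real.tendsto_exp_atBot.comp h).const_mul (4 ^ m * m.factorial : ℝ)).const_mul C).mul_const (Real.exp (|x| / 2))
    simpa using this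
  have h2 : Tendsto (fun v : ℝ => (fun v : ℝ => C * (4 ^ m * m.factorial * Real.exp (-(1 / 4) * v)) * Real.exp (|x| / 2)) (v + |x|)) atTop (𝓝 0) :=
    h1.comp (tendsto_atTop_add_const_right _ _ tendsto_id)
  refine squeeze_zero' (Eventually.of_forall fun _ => norm_nonneg _) ?_ h2
  filter_upwards [eventually_ge_atTop (3 / 2 : ℝ), eventually_ge_atTop (|x|)] with v hv hv2
  have h3 := h (v + y * I) (by simpa using hv)
  simp only [add_re, ofReal_re, mul_re, I_re, mul_zero, ofReal_im, I_im, mul_one, sub_self, add_zero] at h3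
  have h4 : 0 ≤ v - x := by linarith [le_abs_self x]
  rw [norm_mul, norm_pow, Complex.norm_real, Real.norm_eq_abs, abs_of_nonneg h4]
  have h5 := pow_ex (x := 0) (v := v + |x|) le_rfl (by positivity) m
  rw [sub_zero] at h5
  have h6 : (v - x) ^ m ≤ (v + |x|) ^ m := pow_le_pow_left₀ h4 (by linarith [neg_abs_le x]) m
  have h7 : ex v = ex (v + |x|) * Real.exp (|x| / 2) := by
    unfold ex
    rw [← Real.exp_add]
    congr 1
    ring
  have h0 := ex_pos v
  have h0' := ex_pos (v + |x|)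
  have h8 : 0 ≤ v + |x| := by positivity
  calc (v - x) ^ m * ‖ell (v + y * I)‖ ≤ (v + |x|) ^ m * (C * ex v) := by gcongr
    _ = C * ((v + |x|) ^ m * ex (v + |x|)) * Real.exp (|x| / 2) := by rw [h7]; ring
    _ ≤ _ := by gcongr

/-- integration by parts -/
lemma parts0 (hRH : RiemannHypothesis) {x y : ℝ} (hx : 1 / 2 < x) (hy : 0 < y) :
    ∫ v in Ioi x, logDeriv riemannZeta (v + y * I) = -ell (x + y * I) := by
  have h1 : ∀ v ∈ Ici x, HasDerivAt (fun v : ℝ => ell (v + y * I)) (logDeriv riemannZeta (v + y * I)) v :=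
    fun v hv => ell_hasDeriv_horiz hRH (lt_of_lt_of_le hx hv) hy
  have h2 : IntegrableOn (fun v : ℝ => logDeriv riemannZeta (v + y * I)) (Ioi x) := by
    have := ld_integrable hRH 0 hx hy
    simpa using this
  have h3 : Tendsto (fun v : ℝ => ell (v + y * I)) atTop (𝓝 0) := by
    have := ell_tendsto hRH x y 0
    simpa using this
  rw [integral_Ioi_of_hasDerivAt_of_tendsto' h1 h2 h3, zero_sub]

lemma parts (hRH : RiemannHypothesis) (m : ℕ) {x y : ℝ} (hx : 1 / 2 < x) (hy : 0 < y) :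
    ∫ v in Ioi x, ((v - x : ℝ) : ℂ) ^ (m + 1) * logDeriv riemannZeta (v + y * I) = -((m + 1 : ℕ) : ℂ) * KK m x y := by
  have h1 : ∀ v ∈ Ici x, HasDerivAt (fun v : ℝ => ((v - x : ℝ) : ℂ) ^ (m + 1) * ell (v + y * I))
      (((m + 1 : ℕ) : ℂ) * (((v - x : ℝ) : ℂ) ^ m * ell (v + y * I)) +
        ((v - x : ℝ) : ℂ) ^ (m + 1) * logDeriv riemannZeta (v + y * I)) v := by
    intro v hv
    have e1 := ell_hasDeriv_horiz hRH (lt_of_lt_of_le hx hv) hy
    have e2 : HasDerivAt (fun v : ℝ => ((v - x : ℝ) : ℂ)) 1 v := by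
      have := ((hasDerivAt_id v).sub_const x).ofReal_comp
      simpa using this
    have e3 := e2.pow (m + 1)
    have e4 := e3.mul e1
    refine e4.congr_deriv ?_
    show ((m + 1 : ℕ) : ℂ) * ((v - x : ℝ) : ℂ) ^ m * 1 * ell (v + y * I) + ((v - x : ℝ) : ℂ) ^ (m + 1) * logDeriv riemannZeta (v + y * I) = _
    ring
  have i1 := (KK_integrable hRH m y hx.le).const_mul ((m + 1 : ℕ) : ℂ)
  have i2 := ld_integrable hRH (m + 1) hx hy
  have h3 := ell_tendsto hRH x y (m + 1)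
  have key := integral_Ioi_of_hasDerivAt_of_tendsto' h1 (i1.add i2) h3
  rw [sub_self, ofReal_zero, zero_pow (Nat.succ_ne_zero m), zero_mul, sub_zero] at key
  have key2 := integral_add i1 i2
  rw [key2, integral_const_mul] at key
  unfold KK
  linear_combination key

lemma vert (hRH : RiemannHypothesis) (m : ℕ) {x y1 y2 : ℝ} (hx : 1 / 2 < x) (hy1 : 0 < y1) (hy : y1 ≤ y2) :
    KK m x y2 - KK m x y1 =
      I * ∫ τ in y1..y2, ∫ v in Ioi x, ((v - x : ℝ) : ℂ) ^ m * logDeriv riemannZeta (v + τ * I) := by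
  rw [intervalIntegral.integral_of_le hy]
  have hsw := integral_integral_swap (ld_joint hRH m (y2 := y2) hx hy1)
  rw [← hsw, ← integral_const_mul]
  unfold KK
  rw [← integral_sub (KK_integrable hRH m y2 hx.le) (KK_integrable hRH m y1 hx.le)]
  refine setIntegral_congr_fun measurableSet_Ioi fun v hv => ?_
  have hv' : x < v := hv
  show ((v - x : ℝ) : ℂ) ^ m * ell (v + y2 * I) - ((v - x : ℝ) : ℂ) ^ m * ell (v + y1 * I) = _
  rw [← mul_sub]
  have h1 : ∫ τ in y1..y2, logDeriv riemannZeta (v + τ * I) * I = ell (v + y2 * I) - ell (v + y1 * I) := by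
    refine intervalIntegral.integral_eq_sub_of_hasDerivAt (f := fun τ : ℝ => ell (v + τ * I)) ?_ ?_
    · intro τ hτ
      rw [uIcc_of_le hy] at hτ
      exact ell_hasDeriv_vert hRH (by linarith) (by linarith [hτ.1])
    · refine ContinuousOn.intervalIntegrable ?_
      intro τ hτ
      rw [uIcc_of_le hy] at hτ
      have h1 : ContinuousAt (logDeriv riemannZeta) (v + τ * I) :=
        ld_analytic hRH (by simp; linarith) (ne_one_of_im (by linarith [hτ.1]))
      have h2 : ContinuousAt (fun τ : ℝ => logDeriv riemannZeta (v + τ * I)) τ :=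
        ContinuousAt.comp (f := fun τ : ℝ => ((v : ℂ) + τ * I)) h1 (by fun_prop)
      exact (h2.mul continuousAt_const).continuousWithinAt
  rw [← h1, intervalIntegral.integral_of_le hy, integral_const_mul, integral_mul_const]
  ring

lemma vert0 (hRH : RiemannHypothesis) {x y1 y2 : ℝ} (hx : 1 / 2 < x) (hy1 : 0 < y1) (hy : y1 ≤ y2) :
    KK 0 x y2 - KK 0 x y1 = -I * ∫ τ in y1..y2, ell (x + τ * I) := by
  rw [vert hRH 0 hx hy1 hy, neg_mul, ← mul_neg, ← intervalIntegral.integral_neg]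
  congr 1
  refine intervalIntegral.integral_congr fun τ hτ => ?_
  rw [uIcc_of_le hy] at hτ
  simp only [pow_zero, one_mul]
  exact parts0 hRH hx (by linarith [hτ.1])

lemma vert1 (hRH : RiemannHypothesis) (m : ℕ) {x y1 y2 : ℝ} (hx : 1 / 2 < x) (hy1 : 0 < y1) (hy : y1 ≤ y2) :
    KK (m + 1) x y2 - KK (m + 1) x y1 = -((m + 1 : ℕ) : ℂ) * I * ∫ τ in y1..y2, KK m x τ := by
  rw [vert hRH (m + 1) hx hy1 hy]
  have : ∫ τ in y1..y2, ∫ v in Ioi x, ((v - x : ℝ) : ℂ) ^ (m + 1) * logDeriv riemannZeta (v + τ * I)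
      = ∫ τ in y1..y2, -((m + 1 : ℕ) : ℂ) * KK m x τ := by
    refine intervalIntegral.integral_congr fun τ hτ => ?_
    rw [uIcc_of_le hy] at hτ
    exact parts hRH m hx (by linarith [hτ.1])
  rw [this, intervalIntegral.integral_const_mul]
  ring

/-- bounded convergence to the corner -/
lemma lim_int {E : Type*} [NormedAddCommGroup E] [NormedSpace ℝ E] [SecondCountableTopology E] {f : ℝ → ℝ → E} {g : ℝ → E} {t C : ℝ} (ht : 0 < t)
    (hb : ∀ x τ, 1 / 2 < x → x ≤ 3 → 0 < τ → τ ≤ t → ‖f x τ‖ ≤ C)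
    (hm : ∀ x, 1 / 2 < x → ContinuousOn (f x) (Ioi 0))
    (hl : ∀ᵐ τ ∂(volume : Measure ℝ), 0 < τ → Tendsto (fun x => f x τ) (𝓝[>] (1 / 2)) (𝓝 (g τ))) :
    Tendsto (fun k : ℕ => ∫ τ in (t / (k + 1))..t, f (1 / 2 + 1 / (k + 1)) τ) atTop (𝓝 (∫ τ in (0:ℝ)..t, g τ)) := by
  have hk : ∀ k : ℕ, 0 < t / ((k : ℝ) + 1) ∧ t / ((k : ℝ) + 1) ≤ t := by
    intro k
    refine ⟨by positivity, div_le_self ht.le ?_⟩
    have : (0:ℝ) ≤ k := Nat.cast_nonneg k
    linarith
  have hx : ∀ k : ℕ, (1:ℝ) / 2 < 1 / 2 + 1 / ((k : ℝ) + 1) ∧ (1:ℝ) / 2 + 1 / ((k : ℝ) + 1) ≤ 3 := by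
    intro k
    have h0 : (0:ℝ) ≤ k := Nat.cast_nonneg k
    have h1 : 0 < 1 / ((k : ℝ) + 1) := by positivity
    have h2 : 1 / ((k : ℝ) + 1) ≤ 1 := by
      rw [div_le_one (by positivity)]
      linarith
    constructor <;> linarith
  have hxt : Tendsto (fun k : ℕ => (1:ℝ) / 2 + 1 / ((k : ℝ) + 1)) atTop (𝓝[>] (1 / 2)) := by
    refine tendsto_nhdsWithin_iff.2 ⟨?_, Eventually.of_forall fun k => (hx k).1⟩
    have := (tendsto_one_div_add_atTop_nhds_zero_nat (𝕜 := ℝ)).const_add (1 / 2)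
    simpa using this
  have hyt : Tendsto (fun k : ℕ => t / ((k : ℝ) + 1)) atTop (𝓝 0) := by
    have := (tendsto_one_div_add_atTop_nhds_zero_nat (𝕜 := ℝ)).const_mul t
    simpa [div_eq_mul_inv] using this
  have e1 : ∀ k : ℕ, ∫ τ in (t / (k + 1))..t, f (1 / 2 + 1 / (k + 1)) τ =
      ∫ τ in Ioc 0 t, (Ioi (t / ((k : ℝ) + 1))).indicator (f (1 / 2 + 1 / (k + 1))) τ := by
    intro k
    rw [intervalIntegral.integral_of_le (hk k).2, setIntegral_indicator measurableSet_Ioi]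
    congr 2
    ext τ
    simp only [mem_Ioc, mem_inter_iff, mem_Ioi]
    constructor
    · rintro ⟨h1, h2⟩
      exact ⟨⟨(hk k).1.trans h1, h2⟩, h1⟩
    · rintro ⟨⟨h1, h2⟩, h3⟩
      exact ⟨h3, h2⟩
  simp only [e1]
  rw [intervalIntegral.integral_of_le ht.le]
  refine tendsto_integral_of_dominated_convergence (fun _ => |C|) ?_ ?_ ?_ ?_
  · intro k
    refine AEStronglyMeasurable.indicator ?_ measurableSet_Ioi
    exact ((hm _ (hx k).1).mono Ioc_subset_Ioi_self).aestronglyMeasurable measurableSet_Ioc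
  · exact integrable_const _
  · intro k
    filter_upwards [ae_restrict_mem measurableSet_Ioc] with τ hτ
    by_cases h : τ ∈ Ioi (t / ((k : ℝ) + 1))
    · rw [indicator_of_mem h]
      exact (hb _ τ (hx k).1 (hx k).2 hτ.1 hτ.2).trans (le_abs_self C)
    · rw [indicator_of_notMem h, norm_zero]
      exact abs_nonneg _
  · filter_upwards [ae_restrict_mem measurableSet_Ioc, ae_restrict_of_ae hl] with τ hτ hτ2
    have h1 := (hτ2 hτ.1).comp hxt
    refine h1.congr' ?_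
    filter_upwards [hyt.eventually (gt_mem_nhds hτ.1)] with k hk2
    rw [indicator_of_mem (show τ ∈ Ioi (t / ((k : ℝ) + 1)) from hk2)]
    rfl

lemma corner_seq {t : ℝ} (ht : 0 < t) :
    Tendsto (fun k : ℕ => ((1:ℝ) / 2 + 1 / ((k : ℝ) + 1), t / ((k : ℝ) + 1))) atTop (𝓝[Ici (1 / 2) ×ˢ Ici 0] ((1 / 2 : ℝ), (0:ℝ))) := by
  refine tendsto_nhdsWithin_iff.2 ⟨?_, Eventually.of_forall fun k => ⟨?_, ?_⟩⟩
  · refine Tendsto.prodMk_nhds ?_ ?_
    · have := (tendsto_one_div_add_atTop_nhds_zero_nat (𝕜 := ℝ)).const_add (1 / 2)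
      simpa using this
    · have := (tendsto_one_div_add_atTop_nhds_zero_nat (𝕜 := ℝ)).const_mul t
      simpa [div_eq_mul_inv] using this
  · show (1:ℝ) / 2 ≤ 1 / 2 + 1 / ((k : ℝ) + 1)
    have : (0:ℝ) ≤ 1 / ((k : ℝ) + 1) := by positivity
    linarith
  · show (0:ℝ) ≤ t / ((k : ℝ) + 1)
    positivity

lemma top_seq {t : ℝ} (ht : 0 < t) :
    Tendsto (fun k : ℕ => ((1:ℝ) / 2 + 1 / ((k : ℝ) + 1), t)) atTop (𝓝[Ici (1 / 2) ×ˢ Ici 0] ((1 / 2 : ℝ), t)) := by
  refine tendsto_nhdsWithin_iff.2 ⟨?_, Eventually.of_forall fun k => ⟨?_, ?_⟩⟩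
  · refine Tendsto.prodMk_nhds ?_ tendsto_const_nhds
    have := (tendsto_one_div_add_atTop_nhds_zero_nat (𝕜 := ℝ)).const_add (1 / 2)
    simpa using this
  · show (1:ℝ) / 2 ≤ 1 / 2 + 1 / ((k : ℝ) + 1)
    have : (0:ℝ) ≤ 1 / ((k : ℝ) + 1) := by positivity
    linarith
  · exact ht.le

lemma KK_contOn (hRH : RiemannHypothesis) (m : ℕ) {x : ℝ} (hx : 1 / 2 ≤ x) : ContinuousOn (KK m x) (Ici 0) := by
  intro y hy
  have h := KK_cont hRH m hx (show (0:ℝ) ≤ y from hy)
  refine h.comp (f := fun y : ℝ => (x, y)) (tendsto_nhdsWithin_iff.2 ⟨?_, ?_⟩)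
  · exact (Continuous.prodMk_right x).continuousWithinAt
  · filter_upwards [self_mem_nhdsWithin] with z hz
    exact ⟨hx, hz⟩

lemma step_corner (hRH : RiemannHypothesis) (m : ℕ) {t : ℝ} (ht : 0 < t) :
    KK (m + 1) (1 / 2) t - KK (m + 1) (1 / 2) 0 = -((m + 1 : ℕ) : ℂ) * I * ∫ τ in (0:ℝ)..t, KK m (1 / 2) τ := by
  have h1 := (KK_cont hRH (m + 1) (x0 := 1 / 2) (y0 := t) le_rfl ht.le).comp (top_seq ht)
  have h2 := (KK_cont hRH (m + 1) (x0 := 1 / 2) (y0 := 0) le_rfl le_rfl).comp (corner_seq ht)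
  obtain ⟨C, hC, hb⟩ := KK_bd hRH m t
  have h3 := lim_int (f := KK m) (g := KK m (1 / 2)) (C := C) ht
    (fun x τ hx _ h0 h1 => hb x τ hx.le (by rw [abs_of_pos h0]; exact h1))
    (fun x hx => (KK_contOn hRH m hx.le).mono Ioi_subset_Ici_self)
    (Eventually.of_forall fun τ hτ => by
      have h := KK_cont hRH m (x0 := 1 / 2) (y0 := τ) le_rfl hτ.le
      refine h.comp (f := fun x : ℝ => (x, τ)) (tendsto_nhdsWithin_iff.2 ⟨?_, ?_⟩)
      · exact ((Continuous.prodMk_left τ).tendsto (1 / 2)).mono_left nhdsWithin_le_nhds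
      · filter_upwards [self_mem_nhdsWithin] with z hz
        have hz' : (1:ℝ) / 2 < z := hz
        exact ⟨hz'.le, hτ.le⟩)
  have h4 := h3.const_mul (-((m + 1 : ℕ) : ℂ) * I)
  have h5 := h1.sub h2
  refine tendsto_nhds_unique h5 (h4.congr fun k => ?_)
  have h0 : (0:ℝ) ≤ k := Nat.cast_nonneg k
  have h6 : (1:ℝ) / 2 < 1 / 2 + 1 / ((k : ℝ) + 1) := by
    have : (0:ℝ) < 1 / ((k : ℝ) + 1) := by positivity
    linarith
  exact (vert1 hRH m h6 (by positivity) (div_le_self ht.le (by linarith))).symm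

end

end Pool.Agent.HH27.SN
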