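import Pool.Agent.HH27.SN.Gz

set_option autoImplicit false

/-! Local structure of `(s - 1) ζ(s)` near the critical line. -/

namespace Pool.Agent.HH27.SN

open Complex Filter Topology Set MeasureTheory Metric

noncomputable section

lemma compact_unif {S : Set ℂ} (hS : IsCompact S) (P : ℂ → ℝ → Prop)
    (mono : ∀ z K K', K ≤ K' → P z K → P z K') (loc : ∀ s ∈ S, ∃ K, ∀ᶠ z in 𝓝 s, P z K) :
    ∃ K δ : ℝ, 0 < δ ∧ 0 ≤ K ∧ ∀ z, (∃ s ∈ S, dist z s < δ) → P z K := by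
  have h : ∃ (K : ℝ) (U : Set ℂ), IsOpen U ∧ S ⊆ U ∧ ∀ z ∈ U, P z K := by
    refine hS.induction_on (p := fun s => ∃ (K : ℝ) (U : Set ℂ), IsOpen U ∧ s ⊆ U ∧ ∀ z ∈ U, P z K) ?_ ?_ ?_ ?_
    · exact ⟨0, ∅, isOpen_empty, Subset.rfl, fun z hz => absurd hz (notMem_empty z)⟩
    · rintro s t hst ⟨K, U, hU, h1, h2⟩
      exact ⟨K, U, hU, hst.trans h1, h2⟩
    · rintro s t ⟨K, U, hU, h1, h2⟩ ⟨K', U', hU', h1', h2'⟩
      refine ⟨max K K', U ∪ U', hU.union hU', union_subset_union h1 h1', ?_⟩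
      rintro z (hz | hz)
      · exact mono z K _ (le_max_left _ _) (h2 z hz)
      · exact mono z K' _ (le_max_right _ _) (h2' z hz)
    · intro x hx
      obtain ⟨K, hK⟩ := loc x hx
      obtain ⟨U, hU1, hU2, hU3⟩ := _root_.eventually_nhds_iff.1 hK
      exact ⟨U, mem_nhdsWithin_of_mem_nhds (hU2.mem_nhds hU3), K, U, hU2, Subset.rfl, hU1⟩
  obtain ⟨K, U, hU, h1, h2⟩ := h
  obtain ⟨δ, hδ, h3⟩ := hS.exists_thickening_subset_open hU h1
  refine ⟨max K 0, δ, hδ, le_max_right _ _, fun z hz => mono z K _ (le_max_left _ _) (h2 z (h3 ?_))⟩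
  rw [mem_thickening_iff]
  exact hz

lemma gz_analytic {s : ℂ} (hs : s ≠ 0) : AnalyticAt ℂ gz s := by
  have hd : DifferentiableOn ℂ gz {s : ℂ | s ≠ 0} := fun w hw => (gz_diff hw).differentiableWithinAt
  exact (hd.analyticOnNhd isOpen_ne) s hs

lemma gz_order {s0 : ℂ} (hs : 0 < s0.re) : ∃ (r : ℝ) (m : ℕ) (h : ℂ → ℂ), 0 < r ∧
    AnalyticOnNhd ℂ h (ball s0 r) ∧ (∀ s ∈ ball s0 r, h s ≠ 0) ∧
    ∀ s ∈ ball s0 r, gz s = (s - s0) ^ m * h s := by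
  have h0 : s0 ≠ 0 := by
    rintro rfl
    simp at hs
  have han := gz_analytic h0
  have hord : analyticOrderAt gz s0 ≠ ⊤ := by
    intro htop
    rw [analyticOrderAt_eq_top] at htop
    have h1 : AnalyticOnNhd ℂ gz {s : ℂ | 0 < s.re} := by
      intro x hx
      refine gz_analytic ?_
      rintro rfl
      have : (0:ℝ) < (0:ℂ).re := hx
      simp at this
    have hconv : IsPreconnected {s : ℂ | 0 < s.re} :=
      (convex_halfSpace_re_gt 0).isPreconnected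
    have h2 := h1.eqOn_zero_of_preconnected_of_eventuallyEq_zero hconv hs htop
    have h3 := h2 (x := 1) (by show (0:ℝ) < (1:ℂ).re; simp)
    rw [gz_one] at h3
    exact one_ne_zero h3
  obtain ⟨h, hh1, hh2, hh3⟩ := (han.analyticOrderAt_ne_top).1 hord
  have h4 : ∀ᶠ s in 𝓝 s0, AnalyticAt ℂ h s ∧ h s ≠ 0 ∧ gz s = (s - s0) ^ analyticOrderNatAt gz s0 • h s :=
    (hh1.eventually_analyticAt).and ((hh1.continuousAt.eventually_ne hh2).and hh3)
  obtain ⟨r, hr, h5⟩ := Metric.eventually_nhds_iff_ball.1 h4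
  exact ⟨r, analyticOrderNatAt gz s0, h, hr, fun s hs => (h5 s hs).1, fun s hs => (h5 s hs).2.1,
    fun s hs => (h5 s hs).2.2⟩

lemma FF_loc {s0 : ℂ} {r : ℝ} {m : ℕ} {h : ℂ → ℂ} (ha : AnalyticOnNhd ℂ h (ball s0 r))
    (h0 : ∀ s ∈ ball s0 r, h s ≠ 0) (hg : ∀ s ∈ ball s0 r, gz s = (s - s0) ^ m * h s)
    {s : ℂ} (hs : s ∈ ball s0 r) (hne : s ≠ s0) :
    FF s = m / (s - s0) + logDeriv h s := by
  unfold FF
  have h2 : gz =ᶠ[𝓝 s] fun s => (s - s0) ^ m * h s := by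
    filter_upwards [isOpen_ball.mem_nhds hs] with w hw
    exact hg w hw
  have h3 : logDeriv gz s = logDeriv (fun s => (s - s0) ^ m * h s) s := by
    rw [logDeriv_apply, logDeriv_apply, h2.deriv_eq, h2.eq_of_nhds]
  have hsub : s - s0 ≠ 0 := sub_ne_zero.2 hne
  rw [h3, logDeriv_mul (f := fun s : ℂ => (s - s0) ^ m) s (pow_ne_zero _ hsub) (h0 s hs) (by fun_prop)
    (ha s hs).differentiableAt]
  congr 1
  have h4 : logDeriv (fun s : ℂ => (s - s0) ^ m) s = m * logDeriv (fun s : ℂ => s - s0) s := by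
    have := logDeriv_fun_pow (f := fun s : ℂ => s - s0) (x := s) (by fun_prop) m
    exact this
  rw [h4, logDeriv_apply, deriv_sub_const, deriv_id'']
  ring

lemma re_inv_nonneg {s s0 : ℂ} (hs : s0.re < s.re) (m : ℕ) : 0 ≤ ((m : ℂ) / (s - s0)).re := by
  rw [Complex.div_re]
  simp only [natCast_re, natCast_im, zero_mul, zero_div, add_zero, sub_re]
  apply div_nonneg (mul_nonneg (Nat.cast_nonneg _) (by linarith)) (normSq_nonneg _)

lemma FF_low_loc {s0 : ℂ} (hs : s0.re = 1 / 2) :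
    ∃ K : ℝ, ∀ᶠ s in 𝓝 s0, 1 / 2 < s.re → -K ≤ (FF s).re := by
  obtain ⟨r, m, h, hr, ha, h0, hg⟩ := gz_order (s0 := s0) (by rw [hs]; norm_num)
  have hc : ContinuousAt (logDeriv h) s0 := by
    have h1 := ha s0 (mem_ball_self hr)
    exact (h1.deriv.div h1 (h0 s0 (mem_ball_self hr))).continuousAt
  have h2 : ∀ᶠ s in 𝓝 s0, ‖logDeriv h s‖ < ‖logDeriv h s0‖ + 1 :=
    hc.norm.eventually (gt_mem_nhds (by linarith))
  refine ⟨‖logDeriv h s0‖ + 1, ?_⟩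
  filter_upwards [h2, ball_mem_nhds s0 hr] with s hs1 hs2 hs3
  have hne : s ≠ s0 := by
    rintro rfl
    rw [hs] at hs3
    exact lt_irrefl _ hs3
  rw [FF_loc ha h0 hg hs2 hne, add_re]
  have h3 := re_inv_nonneg (s := s) (s0 := s0) (by rw [hs]; exact hs3) m
  have h4 := Complex.abs_re_le_norm (logDeriv h s)
  have h5 := abs_le.1 (h4.trans hs1.le)
  linarith [h5.1]

/-- the segment of the critical line -/
def seg (V : ℝ) : Set ℂ := (fun v : ℝ => (⟨1 / 2, v⟩ : ℂ)) '' Icc (-V) V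

lemma mk_eq (x v : ℝ) : (⟨x, v⟩ : ℂ) = (x : ℂ) + v * I := by
  apply Complex.ext <;> simp

lemma seg_compact (V : ℝ) : IsCompact (seg V) := by
  refine isCompact_Icc.image ?_
  have : (fun v : ℝ => (⟨1 / 2, v⟩ : ℂ)) = fun v : ℝ => ((1 / 2 : ℝ) : ℂ) + v * I := by
    funext v; exact mk_eq _ _
  rw [this]
  fun_prop

lemma FF_low_compact (V : ℝ) : ∃ K x0 : ℝ, 0 ≤ K ∧ 0 < x0 ∧ ∀ x v : ℝ, 0 < x → x < x0 → |v| ≤ V →
    -K ≤ (FF ⟨1 / 2 + x, v⟩).re := by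
  obtain ⟨K, δ, hδ, hK, h⟩ := compact_unif (seg_compact V) (fun s K => 1 / 2 < s.re → -K ≤ (FF s).re)
    (fun z K K' hKK h1 h2 => by have := h1 h2; linarith) (by
      rintro s ⟨v, hv, rfl⟩
      exact FF_low_loc rfl)
  refine ⟨K, δ, hK, hδ, fun x v hx hxδ hv => h _ ⟨⟨1 / 2, v⟩, ⟨v, abs_le.1 hv, rfl⟩, ?_⟩ ?_⟩
  · rw [dist_eq_norm]
    have : (⟨1 / 2 + x, v⟩ - ⟨1 / 2, v⟩ : ℂ) = (x : ℂ) := by
      apply Complex.ext <;> simp
    rw [this, Complex.norm_real, Real.norm_eq_abs, abs_of_pos hx]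
    exact hxδ
  · show (1 / 2 : ℝ) < 1 / 2 + x
    linarith

end

end Pool.Agent.HH27.SN
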