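import Pool.Agent.HH27.SN.Arg
import Pool.Agent.R305.SK.Mass

set_option autoImplicit false

/-! The main inequality: kernel side. -/

namespace Pool.Agent.HH27.SN

open Complex Filter Topology Set MeasureTheory Metric Pool.Agent.R305.SK

noncomputable section

/-- the nonnegative kernel -/
def rho (ε θ : ℝ) (n : ℕ) (x : ℝ) : ℝ := -(ε * (EE θ n x).re)

structure Ext (θ ε : ℝ) (n : ℕ) : Prop where
  h0 : 0 < θ
  h1 : θ < 1
  hn : Even n
  hn0 : n ≠ 0
  hB : bernoulliFun n θ = 0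
  hε1 : ε = 1 ∨ ε = -1
  hε : ∀ v ∈ Icc (0:ℝ) 1, ε * bernoulliFun (n + 1) v ≤ ε * bernoulliFun (n + 1) θ

variable {θ ε : ℝ} {n : ℕ}

lemma EE_im (h : Ext θ ε n) (x : ℝ) : (EE θ n x).im = 0 := by
  have h1 := (EE_sign h.h0 h.h1 h.hn h.hn0 h.hB h.hε x).1
  rcases h.hε1 with h2 | h2
  · rw [h2] at h1; simpa using h1
  · rw [h2] at h1; simpa using h1

lemma rho_nonneg (h : Ext θ ε n) (x : ℝ) : 0 ≤ rho ε θ n x := by
  have h1 := (EE_sign h.h0 h.h1 h.hn h.hn0 h.hB h.hε x).2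
  rw [Complex.re_ofReal_mul] at h1
  unfold rho
  linarith

lemma rho_bd (h : Ext θ ε n) : ∃ C : ℝ, 0 ≤ C ∧ ∀ x : ℝ, rho ε θ n x ≤ C * (1 + |x|) ^ (-2 : ℝ) := by
  obtain ⟨C, hC, -, -, b3⟩ := EE_bd h.h0 h.h1 h.hn h.hB
  refine ⟨2 * C, by positivity, fun x => ?_⟩
  have h1 := b3 x
  simp only [ofReal_im, abs_zero, mul_zero, Real.exp_zero, mul_one, Complex.norm_real, Real.norm_eq_abs, sq_abs] at h1
  have h2 : rho ε θ n x ≤ ‖EE θ n x‖ := by
    have h3 := Complex.abs_re_le_norm (EE θ n x)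
    have h4 := abs_le.1 h3
    unfold rho
    rcases h.hε1 with h5 | h5
    · rw [h5]; linarith [h4.1]
    · rw [h5]; linarith [h4.2]
  have h6 : (1 + |x|) ^ 2 ≤ 2 * (1 + x ^ 2) := by
    have := sq_nonneg (1 - |x|)
    have h7 : |x| ^ 2 = x ^ 2 := sq_abs x
    nlinarith
  have h8 : 0 ≤ |x| := abs_nonneg x
  have h9 : (1 + |x|) ^ (-2 : ℝ) = 1 / (1 + |x|) ^ 2 := by
    rw [Real.rpow_neg (by positivity), one_div]
    norm_num
  rw [h9]
  refine (h2.trans h1).trans ?_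
  rw [div_le_iff₀ (by positivity), mul_one_div, div_mul_eq_mul_div, le_div_iff₀ (by positivity)]
  nlinarith

lemma rho_cont (h : Ext θ ε n) : Continuous (rho ε θ n) := by
  unfold rho
  exact (continuous_const.mul (Complex.continuous_re.comp (EE_cont h.h0 h.h1 h.hn h.hn0))).neg

lemma rho_int (h : Ext θ ε n) : Integrable (rho ε θ n) := by
  have hm := (mass h.h0 h.h1 h.hn h.hn0 h.hB h.hε1 h.hε).1
  exact (hm.re.const_mul ε).neg

/-- the mass -/
def M0 (ε θ : ℝ) (n : ℕ) : ℝ := ε * Real.pi ^ 2 * bernoulliFun (n + 1) θ / (n + 1)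

lemma rho_integral (h : Ext θ ε n) : ∫ x, rho ε θ n x = M0 ε θ n := by
  obtain ⟨hm, hm2⟩ := mass h.h0 h.h1 h.hn h.hn0 h.hB h.hε1 h.hε
  unfold rho M0
  rw [integral_neg, integral_const_mul]
  have h1 : ∫ x : ℝ, (EE θ n x).re = (∫ x : ℝ, EE θ n x).re := integral_re hm
  rw [h1, hm2]
  have h2 : -((Real.pi : ℂ) ^ 2 * ((bernoulliFun (n + 1) θ : ℝ) : ℂ) / ((n : ℂ) + 1)) =
      ((-(Real.pi ^ 2 * bernoulliFun (n + 1) θ / (n + 1)) : ℝ) : ℂ) := by
    push_cast
    ring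
  rw [h2, ofReal_re]
  ring

lemma M0_nonneg (h : Ext θ ε n) : 0 ≤ M0 ε θ n := by
  rw [← rho_integral h]
  exact integral_nonneg (rho_nonneg h)

/-- logarithmic weight -/
def lw (x : ℝ) : ℝ := Real.log (1 + |x|)

lemma lw_nonneg (x : ℝ) : 0 ≤ lw x := Real.log_nonneg (by linarith [abs_nonneg x])

lemma lw_cont : Continuous lw := by
  unfold lw
  refine Continuous.log (by fun_prop) fun x => ?_
  have := abs_nonneg x
  positivity

lemma lw_sub {t : ℝ} (ht : 0 ≤ t) (x : ℝ) : lw (t - x) ≤ Real.log (1 + t) + lw x := by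
  unfold lw
  have h0 := abs_nonneg x
  rw [← Real.log_mul (by positivity) (by positivity)]
  refine Real.log_le_log (by positivity) ?_
  have h1 : |t - x| ≤ t + |x| := (abs_sub _ _).trans (by rw [abs_of_nonneg ht])
  nlinarith [mul_nonneg ht h0]

lemma lw_rho_int (h : Ext θ ε n) : Integrable (fun x => lw x * rho ε θ n x) := by
  obtain ⟨C, hC, hb⟩ := rho_bd h
  have h1 : Integrable (fun x : ℝ => 2 * C * (1 + ‖x‖) ^ (-(3 / 2) : ℝ)) := by
    refine (integrable_one_add_norm ?_).const_mul _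
    simp
    norm_num
  refine Integrable.mono' h1 (lw_cont.mul (rho_cont h)).aestronglyMeasurable (Eventually.of_forall fun x => ?_)
  rw [Real.norm_eq_abs, abs_of_nonneg (mul_nonneg (lw_nonneg x) (rho_nonneg h x))]
  have h2 := log_le_sqrt (abs_nonneg x)
  have h0 : 0 < 1 + |x| := by positivity
  calc lw x * rho ε θ n x ≤ (2 * (1 + |x|) ^ ((1 / 2) : ℝ)) * (C * (1 + |x|) ^ (-2 : ℝ)) :=
        mul_le_mul h2 (hb x) (rho_nonneg h x) (by positivity)
    _ = 2 * C * ((1 + |x|) ^ ((1 / 2) : ℝ) * (1 + |x|) ^ (-2 : ℝ)) := by ring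
    _ = _ := by
        rw [← Real.rpow_add h0]
        norm_num

/-- first logarithmic moment -/
def M1 (ε θ : ℝ) (n : ℕ) : ℝ := ∫ x, lw x * rho ε θ n x

lemma M1_nonneg (h : Ext θ ε n) : 0 ≤ M1 ε θ n :=
  integral_nonneg fun x => mul_nonneg (lw_nonneg x) (rho_nonneg h x)

lemma rho_scale (h : Ext θ ε n) {Δ : ℝ} (hΔ : 1 ≤ Δ) :
    Integrable (fun x => rho ε θ n (Δ * x)) ∧ ∫ x, rho ε θ n (Δ * x) = M0 ε θ n / Δ ∧
    Integrable (fun x => lw x * rho ε θ n (Δ * x)) ∧ ∫ x, lw x * rho ε θ n (Δ * x) ≤ M1 ε θ n / Δ := by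
  have hΔ0 : 0 < Δ := by linarith
  have h1 : Integrable (fun x => rho ε θ n (Δ * x)) := (rho_int h).comp_mul_left' hΔ0.ne'
  have h2 : ∫ x, rho ε θ n (Δ * x) = M0 ε θ n / Δ := by
    rw [Measure.integral_comp_mul_left, rho_integral h, abs_of_pos (by positivity), smul_eq_mul]
    field_simp
  have h3 : Integrable (fun x => lw (Δ * x) * rho ε θ n (Δ * x)) := (lw_rho_int h).comp_mul_left' hΔ0.ne'
  have h4 : ∫ x, lw (Δ * x) * rho ε θ n (Δ * x) = M1 ε θ n / Δ := by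
    rw [Measure.integral_comp_mul_left (fun x => lw x * rho ε θ n x), abs_of_pos (by positivity), smul_eq_mul]
    unfold M1
    field_simp
  have h5 : ∀ x, lw x * rho ε θ n (Δ * x) ≤ lw (Δ * x) * rho ε θ n (Δ * x) := by
    intro x
    refine mul_le_mul_of_nonneg_right ?_ (rho_nonneg h _)
    unfold lw
    have h0 := abs_nonneg x
    refine Real.log_le_log (by positivity) ?_
    rw [abs_mul, abs_of_pos hΔ0]
    nlinarith
  have h6 : Integrable (fun x => lw x * rho ε θ n (Δ * x)) := by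
    refine Integrable.mono' h3 (lw_cont.mul ((rho_cont h).comp (by fun_prop))).aestronglyMeasurable
      (Eventually.of_forall fun x => ?_)
    rw [Real.norm_eq_abs, abs_of_nonneg (mul_nonneg (lw_nonneg x) (rho_nonneg h _))]
    exact h5 x
  refine ⟨h1, h2, h6, ?_⟩
  rw [← h4]
  exact integral_mono h6 h3 h5

end

end Pool.Agent.HH27.SN
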