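import Pool.Agent.HH27.SN.Main1

set_option autoImplicit false

/-! The main inequality. -/

namespace Pool.Agent.HH27.SN

open Complex Filter Topology Set MeasureTheory Metric Pool.Agent.R305.SK

noncomputable section

variable {θ ε : ℝ} {n : ℕ}

/-- the function fed to the contour identity -/
def Phi (x t : ℝ) (z : ℂ) : ℂ := FF ((x : ℂ) + t * I - I * z)

lemma Phi_re (x t : ℝ) (z : ℂ) : ((x : ℂ) + t * I - I * z).re = x + z.im := by simp

lemma Phi_im (x t : ℝ) (z : ℂ) : ((x : ℂ) + t * I - I * z).im = t - z.re := by simp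

lemma Phi_diff (hRH : RiemannHypothesis) {x t : ℝ} (hx : 1 / 2 < x) {z : ℂ} (hz : 0 ≤ z.im) :
    DifferentiableAt ℂ (Phi x t) z := by
  unfold Phi
  have h1 : DifferentiableAt ℂ FF ((x : ℂ) + t * I - I * z) := FF_diff hRH (by rw [Phi_re]; linarith)
  exact DifferentiableAt.comp (f := fun z : ℂ => (x : ℂ) + t * I - I * z) z h1 (by fun_prop)

lemma Phi_grow (hRH : RiemannHypothesis) {x t U : ℝ} (hx : 1 / 2 < x) (ht : 0 ≤ t) (hU : x + U ≤ 3) :
    ∃ K : ℝ, 0 ≤ K ∧ ∀ z : ℂ, 0 ≤ z.im → z.im ≤ U → ‖Phi x t z‖ ≤ K * (1 + |z.re|) ^ ((1 / 2) : ℝ) := by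
  obtain ⟨K, hK, h⟩ := grow hRH (η := x - 1 / 2) (by linarith)
  refine ⟨K * (3 + Real.log (1 + t)), ?_, fun z h0 h1 => ?_⟩
  · have : 0 ≤ Real.log (1 + t) := Real.log_nonneg (by linarith)
    positivity
  have h2 := h ((x : ℂ) + t * I - I * z) (by rw [Phi_re]; linarith) (by rw [Phi_re]; linarith)
  rw [Phi_im] at h2
  have h3 := lw_sub ht z.re
  have h4 := log_le_sqrt (abs_nonneg z.re)
  have h5 : 0 ≤ Real.log (1 + t) := Real.log_nonneg (by linarith)
  have h6 : (1:ℝ) ≤ (1 + |z.re|) ^ ((1 / 2) : ℝ) := Real.one_le_rpow (by linarith [abs_nonneg z.re]) (by norm_num)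
  have h7 : Real.log (1 + |t - z.re|) ≤ Real.log (1 + t) + 2 * (1 + |z.re|) ^ ((1 / 2) : ℝ) :=
    h3.trans (by unfold lw; linarith)
  calc ‖Phi x t z‖ ≤ K * (1 + Real.log (1 + |t - z.re|)) := h2
    _ ≤ K * ((3 + Real.log (1 + t)) * (1 + |z.re|) ^ ((1 / 2) : ℝ)) := by
        gcongr
        nlinarith
    _ = _ := by ring

/-- the zeros' side -/
lemma side (hRH : RiemannHypothesis) (h : Ext θ ε n) : ∃ K x0 : ℝ, 0 ≤ K ∧ 0 < x0 ∧ ∀ η t Δ : ℝ, 0 < η → η < x0 →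
    0 ≤ t → 1 ≤ Δ → Integrable (fun x : ℝ => Phi (1 / 2 + η) t x * EE θ n (Δ * x)) →
    ε * (∫ x : ℝ, Phi (1 / 2 + η) t x * EE θ n (Δ * x)).re ≤
      (1 / 2 + K * η) * (Real.log (1 + t) * M0 ε θ n / Δ + M1 ε θ n / Δ) + K * M0 ε θ n / Δ := by
  obtain ⟨K, x0, hK, hx0, hlow⟩ := low hRH
  refine ⟨K, x0, hK, hx0, fun η t Δ hη hη0 ht hΔ hint => ?_⟩
  obtain ⟨i1, e1, i2, e2⟩ := rho_scale h hΔ
  have h1 : (∫ x : ℝ, Phi (1 / 2 + η) t x * EE θ n (Δ * x)).re = ∫ x : ℝ, (Phi (1 / 2 + η) t x * EE θ n (Δ * x)).re :=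
    (integral_re hint).symm
  rw [h1, ← integral_const_mul]
  have h2 : ∀ x : ℝ, ε * (Phi (1 / 2 + η) t x * EE θ n (Δ * x)).re ≤
      (1 / 2 + K * η) * Real.log (1 + t) * rho ε θ n (Δ * x) + (1 / 2 + K * η) * (lw x * rho ε θ n (Δ * x))
        + K * rho ε θ n (Δ * x) := by
    intro x
    have h3 : (Phi (1 / 2 + η) t x * EE θ n (Δ * x)).re = (Phi (1 / 2 + η) t x).re * (EE θ n (Δ * x)).re := by
      have := EE_im h (Δ * x)
      push_cast at this
      rw [Complex.mul_re, this, mul_zero, sub_zero]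
    have h4 := hlow η (t - x) hη hη0
    have h5 : Phi (1 / 2 + η) t x = FF ⟨1 / 2 + η, t - x⟩ := by
      unfold Phi
      congr 1
      apply Complex.ext
      · rw [Phi_re]; simp
      · rw [Phi_im]; simp
    rw [← h5] at h4
    have h6 := rho_nonneg h (Δ * x)
    have h7 : ε * (Phi (1 / 2 + η) t x * EE θ n (Δ * x)).re = -(Phi (1 / 2 + η) t x).re * rho ε θ n (Δ * x) := by
      rw [h3]
      unfold rho
      push_cast
      ring
    rw [h7]
    have h8 := lw_sub ht x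
    have h9 : Real.log (1 + |t - x|) = lw (t - x) := rfl
    rw [h9] at h4
    have h10 : 0 ≤ lw (t - x) := lw_nonneg _
    have h11 : -(Phi (1 / 2 + η) t x).re ≤ (1 / 2 + K * η) * (Real.log (1 + t) + lw x) + K := by
      have h12 : -(Phi (1 / 2 + η) t x).re ≤ (1 / 2 + K * η) * lw (t - x) + K := by nlinarith
      have h13 : (1 / 2 + K * η) * lw (t - x) ≤ (1 / 2 + K * η) * (Real.log (1 + t) + lw x) := by
        gcongr
      linarith
    calc -(Phi (1 / 2 + η) t x).re * rho ε θ n (Δ * x) ≤ ((1 / 2 + K * η) * (Real.log (1 + t) + lw x) + K) * rho ε θ n (Δ * x) := by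
          gcongr
      _ = _ := by ring
  have hi : Integrable (fun x : ℝ => (1 / 2 + K * η) * Real.log (1 + t) * rho ε θ n (Δ * x) + (1 / 2 + K * η) * (lw x * rho ε θ n (Δ * x))
        + K * rho ε θ n (Δ * x)) := ((i1.const_mul _).add (i2.const_mul _)).add (i1.const_mul _)
  refine (integral_mono (hint.re.const_mul ε) hi h2).trans ?_
  have q1 : Integrable (fun x : ℝ => (1 / 2 + K * η) * Real.log (1 + t) * rho ε θ n (Δ * x)) := i1.const_mul _
  have q2 : Integrable (fun x : ℝ => (1 / 2 + K * η) * (lw x * rho ε θ n (Δ * x))) := i2.const_mul _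
  have q3 : Integrable (fun x : ℝ => K * rho ε θ n (Δ * x)) := i1.const_mul _
  have q4 : Integrable (fun x : ℝ => (1 / 2 + K * η) * Real.log (1 + t) * rho ε θ n (Δ * x) +
    (1 / 2 + K * η) * (lw x * rho ε θ n (Δ * x))) := q1.add q2
  rw [integral_add q4 q3, integral_add q1 q2,
    integral_const_mul, integral_const_mul, integral_const_mul, e1]
  have h3 : 0 ≤ 1 / 2 + K * η := by positivity
  have h4 := mul_le_mul_of_nonneg_left e2 h3
  calc _ ≤ (1 / 2 + K * η) * Real.log (1 + t) * (M0 ε θ n / Δ) + (1 / 2 + K * η) * (M1 ε θ n / Δ) + K * (M0 ε θ n / Δ) := by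
        linarith
    _ = _ := by ring

/-- the line to the right -/
lemma far (h : Ext θ ε n) {δ : ℝ} (hδ : 0 < δ) : ∃ C : ℝ, 0 ≤ C ∧ ∀ η t Δ : ℝ, 0 < η →
    1 ≤ Δ → ‖∫ x : ℝ, Phi (1 / 2 + η) t (x + (1 / 2 + δ : ℝ) * I) * EE θ n (Δ * (x + (1 / 2 + δ : ℝ) * I))‖ ≤
      C * Real.exp (2 * Real.pi * Δ * (1 / 2 + δ)) := by
  obtain ⟨C1, hC1, h1⟩ := ld_bd' hδ
  obtain ⟨C, hC, -, -, b3⟩ := EE_bd h.h0 h.h1 h.hn h.hB
  refine ⟨(C1 + 1 / δ) * C * Real.pi, by positivity, fun η t Δ hη hΔ => ?_⟩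
  have hb : ∀ x : ℝ, ‖Phi (1 / 2 + η) t (x + (1 / 2 + δ : ℝ) * I) * EE θ n (Δ * (x + (1 / 2 + δ : ℝ) * I))‖ ≤
      ((C1 + 1 / δ) * C * Real.exp (2 * Real.pi * Δ * (1 / 2 + δ))) * (1 + x ^ 2)⁻¹ := by
    intro x
    have h2 : ‖Phi (1 / 2 + η) t (x + (1 / 2 + δ : ℝ) * I)‖ ≤ C1 + 1 / δ := by
      unfold Phi
      have hre : ((((1 / 2 + η : ℝ) : ℂ) + t * I - I * (x + (1 / 2 + δ : ℝ) * I))).re = 1 + δ + η := by
        rw [Phi_re]
        simp
        ring
      set s : ℂ := (((1 / 2 + η : ℝ) : ℂ) + t * I - I * (x + (1 / 2 + δ : ℝ) * I)) with hs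
      have hs0 : s ≠ 0 := by
        intro h0
        rw [h0] at hre
        simp at hre
        linarith
      have hs1 : s ≠ 1 := by
        intro h0
        rw [h0] at hre
        simp at hre
        linarith
      have hz : riemannZeta s ≠ 0 := riemannZeta_ne_zero_of_one_le_re (by rw [hre]; linarith)
      rw [FF_eq hs0 hs1 hz]
      have h3 := h1 s (by rw [hre]; linarith)
      have h4 : ex s.re ≤ 1 := by
        unfold ex
        rw [hre]
        apply Real.exp_le_one_iff.2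
        linarith
      have h5 : δ ≤ ‖s - 1‖ := by
        have := Complex.re_le_norm (s - 1)
        rw [sub_re, hre, one_re] at this
        linarith
      have h6 : ‖1 / (s - 1)‖ ≤ 1 / δ := by
        rw [norm_div, norm_one]
        exact one_div_le_one_div_of_le hδ h5
      have h7 : ‖logDeriv riemannZeta s‖ ≤ C1 := h3.trans (mul_le_of_le_one_right hC1 h4)
      exact (norm_add_le _ _).trans (by linarith)
    have h3 := b3 (Δ * (x + (1 / 2 + δ : ℝ) * I))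
    have e1 : ((Δ : ℂ) * (x + (1 / 2 + δ : ℝ) * I)).im = Δ * (1 / 2 + δ) := by simp
    have e2 : ((Δ : ℂ) * (x + (1 / 2 + δ : ℝ) * I)).re = Δ * x := by simp
    rw [e1, abs_of_nonneg (by positivity)] at h3
    have h4 : x ^ 2 ≤ ‖(Δ : ℂ) * (x + (1 / 2 + δ : ℝ) * I)‖ ^ 2 := by
      have h5 := Complex.abs_re_le_norm ((Δ : ℂ) * (x + (1 / 2 + δ : ℝ) * I))
      rw [e2] at h5
      have h6 : |x| ≤ |Δ * x| := by
        rw [abs_mul, abs_of_pos (by linarith : 0 < Δ)]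
        exact le_mul_of_one_le_left (abs_nonneg x) hΔ
      rw [← sq_abs x]
      exact pow_le_pow_left₀ (abs_nonneg x) (h6.trans h5) 2
    rw [norm_mul]
    calc ‖Phi (1 / 2 + η) t (x + (1 / 2 + δ : ℝ) * I)‖ * ‖EE θ n (Δ * (x + (1 / 2 + δ : ℝ) * I))‖
        ≤ (C1 + 1 / δ) * (C * Real.exp (2 * Real.pi * (Δ * (1 / 2 + δ))) / (1 + x ^ 2)) := by
          refine mul_le_mul h2 (h3.trans ?_) (norm_nonneg _) (by positivity)
          gcongr
      _ = _ := by
          rw [show 2 * Real.pi * (Δ * (1 / 2 + δ)) = 2 * Real.pi * Δ * (1 / 2 + δ) by ring]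
          field_simp
  refine (norm_integral_le_of_norm_le (integrable_inv_one_add_sq.const_mul _) (Eventually.of_forall hb)).trans ?_
  rw [integral_const_mul, integral_univ_inv_one_add_sq]
  apply le_of_eq
  ring

/-- the cut -/
lemma cut (hRH : RiemannHypothesis) (m : ℕ) {δ : ℝ} (hδ : 0 < δ) (hδ1 : δ ≤ 1 / 2) : ∃ C : ℝ, 0 ≤ C ∧ ∀ η t : ℝ, 0 < η → η ≤ 1 / 2 →
    1 ≤ t → ‖(∫ u in (0:ℝ)..(1 / 2 + δ), (u : ℂ) ^ (m + 1) * Phi (1 / 2 + η) t (u * I)) + ((m + 1 : ℕ) : ℂ) * KK m (1 / 2 + η) t‖ ≤ C := by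
  obtain ⟨C1, hC1, h1⟩ := ld_bd' hδ
  refine ⟨1 + C1 * (4 ^ (m + 1) * (m + 1).factorial) * 4, by positivity, fun η t hη hη1 ht => ?_⟩
  obtain ⟨x, hx⟩ : ∃ x : ℝ, x = 1 / 2 + η := ⟨_, rfl⟩
  obtain ⟨U, hU⟩ : ∃ U : ℝ, U = 1 / 2 + δ := ⟨_, rfl⟩
  rw [← hx, ← hU]
  have hxU : 1 + δ ≤ x + U := by rw [hx, hU]; linarith
  have hx2 : 1 / 2 < x := by rw [hx]; linarith
  have hU0 : 0 < U := by rw [hU]; linarith
  have hU1 : U ≤ 1 := by rw [hU]; linarith
  have ht0 : 0 < t := by linarith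
  -- the integrand
  have e1 : ∀ u ∈ uIcc (0:ℝ) U, (u : ℂ) ^ (m + 1) * Phi x t (u * I) =
      (u : ℂ) ^ (m + 1) * (1 / (((x + u : ℝ) : ℂ) + t * I - 1)) + (u : ℂ) ^ (m + 1) * logDeriv riemannZeta (((x + u : ℝ) : ℂ) + t * I) := by
    intro u hu
    rw [uIcc_of_le hU0.le] at hu
    have e2 : Phi x t (u * I) = FF (((x + u : ℝ) : ℂ) + t * I) := by
      unfold Phi
      congr 1
      push_cast
      have := Complex.I_mul_I
      linear_combination -(u : ℂ) * this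
    have hne := ne_of_im (s := (((x + u : ℝ) : ℂ) + t * I)) (by simp; exact ht0.ne')
    rw [e2, FF_eq hne.1 hne.2 (zeta_ne hRH (by simp; linarith [hu.1]) hne.2), mul_add]
  have c1 : ContinuousOn (fun u : ℝ => (u : ℂ) ^ (m + 1) * (1 / (((x + u : ℝ) : ℂ) + t * I - 1))) (uIcc 0 U) := by
    intro u hu
    have hne := ne_of_im (s := (((x + u : ℝ) : ℂ) + t * I)) (by simp; exact ht0.ne')
    have : ContinuousAt (fun u : ℝ => (u : ℂ) ^ (m + 1) * (1 / (((x + u : ℝ) : ℂ) + t * I - 1))) u :=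
      ContinuousAt.mul (by fun_prop) (ContinuousAt.div (by fun_prop) (by fun_prop) (sub_ne_zero.2 hne.2))
    exact this.continuousWithinAt
  have c2 : ContinuousOn (fun u : ℝ => (u : ℂ) ^ (m + 1) * logDeriv riemannZeta (((x + u : ℝ) : ℂ) + t * I)) (uIcc 0 U) := by
    intro u hu
    rw [uIcc_of_le hU0.le] at hu
    have h1 : ContinuousAt (logDeriv riemannZeta) (((x + u : ℝ) : ℂ) + t * I) :=
      ld_analytic hRH (by simp; linarith [hu.1]) (ne_one_of_im ht0.ne')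
    have h2 : ContinuousAt (fun u : ℝ => logDeriv riemannZeta (((x + u : ℝ) : ℂ) + t * I)) u :=
      ContinuousAt.comp (f := fun u : ℝ => (((x + u : ℝ) : ℂ) + t * I)) h1 (by fun_prop)
    have h3 : ContinuousAt (fun u : ℝ => (u : ℂ) ^ (m + 1)) u := by fun_prop
    exact (h3.mul h2).continuousWithinAt
  rw [intervalIntegral.integral_congr e1, intervalIntegral.integral_add c1.intervalIntegrable c2.intervalIntegrable]
  have hA : ‖∫ u in (0:ℝ)..U, (u : ℂ) ^ (m + 1) * (1 / (((x + u : ℝ) : ℂ) + t * I - 1))‖ ≤ 1 := by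
    have : ∀ u ∈ uIoc (0:ℝ) U, ‖(u : ℂ) ^ (m + 1) * (1 / (((x + u : ℝ) : ℂ) + t * I - 1))‖ ≤ 1 := by
      intro u hu
      rw [uIoc_of_le hU0.le] at hu
      rw [norm_mul, norm_pow, Complex.norm_real, Real.norm_eq_abs, abs_of_pos hu.1]
      have h2 := inv_bd (s := ((x + u : ℝ) : ℂ) + t * I) (by simp; rw [abs_of_pos ht0]; exact ht)
      have h3 : u ^ (m + 1) ≤ 1 := pow_le_one₀ hu.1.le (hu.2.trans hU1)
      exact mul_le_one₀ h3 (norm_nonneg _) h2
    refine (intervalIntegral.norm_integral_le_of_norm_le_const this).trans ?_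
    rw [sub_zero, abs_of_pos hU0, one_mul]
    exact hU1
  have hsplit : ∫ u in (0:ℝ)..U, (u : ℂ) ^ (m + 1) * logDeriv riemannZeta (((x + u : ℝ) : ℂ) + t * I) =
      -((m + 1 : ℕ) : ℂ) * KK m x t - ∫ v in Ioi (x + U), ((v - x : ℝ) : ℂ) ^ (m + 1) * logDeriv riemannZeta (v + t * I) := by
    rw [← parts hRH m hx2 ht0]
    have hi := ld_integrable hRH (m + 1) hx2 ht0
    have h2 : ∫ u in (0:ℝ)..U, (u : ℂ) ^ (m + 1) * logDeriv riemannZeta (((x + u : ℝ) : ℂ) + t * I) =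
        ∫ v in x..(x + U), ((v - x : ℝ) : ℂ) ^ (m + 1) * logDeriv riemannZeta (v + t * I) := by
      have := intervalIntegral.integral_comp_add_left (a := 0) (b := U)
        (fun v : ℝ => ((v - x : ℝ) : ℂ) ^ (m + 1) * logDeriv riemannZeta (v + t * I)) x
      rw [add_zero] at this
      rw [← this]
      refine intervalIntegral.integral_congr fun u _ => ?_
      simp
    rw [h2, intervalIntegral.integral_of_le (by linarith)]
    have h3 : Ioi x = Ioc x (x + U) ∪ Ioi (x + U) := (Ioc_union_Ioi_eq_Ioi (by linarith)).symm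
    rw [h3] at hi ⊢
    have hdis : Disjoint (Ioc x (x + U)) (Ioi (x + U)) :=
      Set.disjoint_left.2 fun v hv hv2 => absurd hv.2 (not_le.2 hv2)
    rw [setIntegral_union hdis measurableSet_Ioi
      (hi.mono_set subset_union_left) (hi.mono_set subset_union_right)]
    ring
  have hB : ‖∫ v in Ioi (x + U), ((v - x : ℝ) : ℂ) ^ (m + 1) * logDeriv riemannZeta (v + t * I)‖ ≤
      C1 * (4 ^ (m + 1) * (m + 1).factorial) * 4 := by
    have h2 : ∀ v ∈ Ioi (x + U), ‖((v - x : ℝ) : ℂ) ^ (m + 1) * logDeriv riemannZeta (v + t * I)‖ ≤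
        C1 * (4 ^ (m + 1) * (m + 1).factorial) * Real.exp (-(1 / 4) * v) := by
      intro v hv
      have hv' : x + U < v := hv
      have h3 := h1 (v + t * I) (by simp; linarith)
      simp only [add_re, ofReal_re, mul_re, I_re, mul_zero, ofReal_im, I_im, mul_one, sub_self, add_zero] at h3
      have h4 := pow_ex (x := x) (v := v) (by linarith) (by linarith) (m + 1)
      rw [norm_mul, norm_pow, Complex.norm_real, Real.norm_eq_abs, abs_of_pos (by linarith : 0 < v - x)]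
      have h5 : 0 ≤ (v - x) ^ (m + 1) := by
        have : 0 ≤ v - x := by linarith
        positivity
      calc (v - x) ^ (m + 1) * ‖logDeriv riemannZeta (v + t * I)‖ ≤ (v - x) ^ (m + 1) * (C1 * ex v) := by gcongr
        _ = C1 * ((v - x) ^ (m + 1) * ex v) := by ring
        _ ≤ C1 * (4 ^ (m + 1) * (m + 1).factorial * Real.exp (-(1 / 4) * v)) := by gcongr
        _ = _ := by ring
    refine (norm_integral_le_of_norm_le ((integrableOn_exp_mul_Ioi (by norm_num) (x + U)).const_mul _)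
      ((ae_restrict_mem measurableSet_Ioi).mono h2)).trans ?_
    rw [integral_const_mul, integral_exp_mul_Ioi (by norm_num)]
    have h6 : Real.exp (-(1 / 4) * (x + U)) ≤ 1 := Real.exp_le_one_iff.2 (by linarith)
    have h7 : -Real.exp (-(1 / 4) * (x + U)) / -(1 / 4) ≤ 4 := by
      rw [neg_div_neg_eq, div_le_iff₀ (by norm_num)]
      linarith
    gcongr
  rw [hsplit]
  have e3 : (∫ u in (0:ℝ)..U, (u : ℂ) ^ (m + 1) * (1 / (((x + u : ℝ) : ℂ) + t * I - 1))) +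
      (-((m + 1 : ℕ) : ℂ) * KK m x t - ∫ v in Ioi (x + U), ((v - x : ℝ) : ℂ) ^ (m + 1) * logDeriv riemannZeta (v + t * I)) +
      ((m + 1 : ℕ) : ℂ) * KK m x t = (∫ u in (0:ℝ)..U, (u : ℂ) ^ (m + 1) * (1 / (((x + u : ℝ) : ℂ) + t * I - 1))) -
      ∫ v in Ioi (x + U), ((v - x : ℝ) : ℂ) ^ (m + 1) * logDeriv riemannZeta (v + t * I) := by ring
  rw [e3]
  exact (norm_sub_le _ _).trans (add_le_add hA hB)

end

end Pool.Agent.HH27.SN
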