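import Pool.Agent.HH27.SN.Main2

set_option autoImplicit false

/-! The main inequality, final form. -/

namespace Pool.Agent.HH27.SN

open Complex Filter Topology Set MeasureTheory Metric Pool.Agent.R305.SK

noncomputable section

variable {θ ε : ℝ} {n : ℕ}

lemma sig {n : ℕ} (hn : Even n) : ∃ σ : ℝ, (σ : ℂ) = I ^ n ∧ |σ| = 1 := by
  obtain ⟨k, hk⟩ := hn
  refine ⟨(-1) ^ k, ?_, ?_⟩
  · rw [hk, ← two_mul, pow_mul, Complex.I_sq]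
    push_cast
    rfl
  · rw [abs_pow]
    simp

lemma abs_eps (h : Ext θ ε n) : |ε| = 1 := by
  rcases h.hε1 with h1 | h1 <;> rw [h1] <;> simp

theorem ineq_eta (hRH : RiemannHypothesis) {m : ℕ} (h : Ext θ ε (m + 1)) {δ : ℝ} (hδ : 0 < δ) (hδ1 : δ ≤ 1 / 2) :
    ∃ K C x0 : ℝ, 0 ≤ K ∧ 0 ≤ C ∧ 0 < x0 ∧ ∀ (σ : ℝ), (σ : ℂ) = I ^ (m + 1) → |σ| = 1 → ∀ η t Δ : ℝ, 0 < η → η < x0 → 1 ≤ t → 1 ≤ Δ →
      ε * (Real.pi ^ 2 * Δ ^ (m + 1) * σ * (m + 1 : ℕ) * (KK m (1 / 2 + η) t).im) ≤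
      (1 / 2 + K * η) * (Real.log (1 + t) * M0 ε θ (m + 1) / Δ + M1 ε θ (m + 1) / Δ) + K * M0 ε θ (m + 1) / Δ +
        C * Real.exp (2 * Real.pi * Δ * (1 / 2 + δ)) + Real.pi ^ 2 * Δ ^ (m + 1) * C := by
  obtain ⟨K, x0, hK, hx0, hside⟩ := side hRH h
  obtain ⟨C1, hC1, hfar⟩ := far h hδ
  obtain ⟨C2, hC2, hcut⟩ := cut hRH m hδ hδ1
  refine ⟨K, max C1 C2, min x0 (1 / 2), hK, le_max_of_le_left hC1, by positivity, fun σ hσ hσ1 η t Δ hη hη0 ht hΔ => ?_⟩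
  obtain ⟨hη1, hη2⟩ := lt_min_iff.1 hη0
  obtain ⟨U, hU⟩ : ∃ U : ℝ, U = 1 / 2 + δ := ⟨_, rfl⟩
  have hx : (1:ℝ) / 2 < 1 / 2 + η := by linarith
  have hΔ0 : 0 < Δ := by linarith
  obtain ⟨Kg, hKg, hg⟩ := Phi_grow hRH (x := 1 / 2 + η) (t := t) (U := U) hx (by linarith) (by rw [hU]; linarith)
  obtain ⟨i1, i2, e⟩ := contour h.h0 h.h1 h.hn h.hB (Φ := Phi (1 / 2 + η) t) (Δ := Δ) (U := U) (K := Kg) hΔ0
    (by rw [hU]; positivity) hKg (fun z hz _ => Phi_diff hRH hx hz) hg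
  have s1 := hside η t Δ hη hη1 (by linarith) hΔ i1
  have s2 := hfar η t Δ hη hΔ
  have s3 := hcut η t hη hη2.le ht
  rw [← hU] at s2 s3 ⊢
  -- the cut
  set Q : ℂ := ∫ u in (0:ℝ)..U, (u : ℂ) ^ (m + 1) * Phi (1 / 2 + η) t (u * I) with hQ
  have hD : ∫ u in (0:ℝ)..U, Phi (1 / 2 + η) t (u * I) * ((Real.pi : ℂ) ^ 2 * (Δ * (u * I)) ^ (m + 1)) =
      ((Real.pi ^ 2 * Δ ^ (m + 1) * σ : ℝ) : ℂ) * Q := by
    rw [hQ, ← intervalIntegral.integral_const_mul]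
    refine intervalIntegral.integral_congr fun u _ => ?_
    show Phi (1 / 2 + η) t (u * I) * ((Real.pi : ℂ) ^ 2 * (Δ * (u * I)) ^ (m + 1)) =
      ((Real.pi ^ 2 * Δ ^ (m + 1) * σ : ℝ) : ℂ) * ((u : ℂ) ^ (m + 1) * Phi (1 / 2 + η) t (u * I))
    push_cast
    rw [hσ, mul_pow, mul_pow]
    ring
  rw [hD] at e
  have e2 := congrArg Complex.re e
  rw [add_re] at e2
  have e3 : (I * (((Real.pi ^ 2 * Δ ^ (m + 1) * σ : ℝ) : ℂ) * Q)).re = -(Real.pi ^ 2 * Δ ^ (m + 1) * σ * Q.im) := by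
    rw [← mul_assoc, mul_comm I, mul_assoc, Complex.re_ofReal_mul]
    simp
  rw [e3] at e2
  set E : ℂ := Q + ((m + 1 : ℕ) : ℂ) * KK m (1 / 2 + η) t with hE
  have e4 : Q.im = E.im - (m + 1 : ℕ) * (KK m (1 / 2 + η) t).im := by
    rw [hE, add_im, ← ofReal_natCast, Complex.im_ofReal_mul]
    ring
  have e5 : |E.im| ≤ C2 := (Complex.abs_im_le_norm _).trans s3
  set B : ℂ := ∫ x : ℝ, Phi (1 / 2 + η) t (x + U * I) * EE θ (m + 1) (Δ * (x + U * I)) with hB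
  have e6 : |B.re| ≤ C1 * Real.exp (2 * Real.pi * Δ * U) := (Complex.abs_re_le_norm _).trans s2
  set A : ℂ := ∫ x : ℝ, Phi (1 / 2 + η) t x * EE θ (m + 1) (Δ * x) with hA
  have e7 : ε * (Real.pi ^ 2 * Δ ^ (m + 1) * σ * (m + 1 : ℕ) * (KK m (1 / 2 + η) t).im) =
      ε * A.re + (-(ε * B.re)) + Real.pi ^ 2 * Δ ^ (m + 1) * (ε * σ * E.im) := by
    rw [e2, e4]
    ring
  have h1 := abs_eps h
  have e8 : -(ε * B.re) ≤ C1 * Real.exp (2 * Real.pi * Δ * U) := by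
    calc -(ε * B.re) ≤ |ε * B.re| := neg_le_abs _
      _ = |B.re| := by rw [abs_mul, h1, one_mul]
      _ ≤ _ := e6
  have e9 : ε * σ * E.im ≤ C2 := by
    calc ε * σ * E.im ≤ |ε * σ * E.im| := le_abs_self _
      _ = |E.im| := by rw [abs_mul, abs_mul, h1, hσ1, one_mul, one_mul]
      _ ≤ C2 := e5
  have e10 : Real.pi ^ 2 * Δ ^ (m + 1) * (ε * σ * E.im) ≤ Real.pi ^ 2 * Δ ^ (m + 1) * C2 := by gcongr
  have e11 : C1 * Real.exp (2 * Real.pi * Δ * U) ≤ max C1 C2 * Real.exp (2 * Real.pi * Δ * U) := by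
    gcongr
    exact le_max_left _ _
  have e12 : Real.pi ^ 2 * Δ ^ (m + 1) * C2 ≤ Real.pi ^ 2 * Δ ^ (m + 1) * max C1 C2 := by
    gcongr
    exact le_max_right _ _
  rw [e7]
  linarith

theorem ineq (hRH : RiemannHypothesis) {m : ℕ} (h : Ext θ ε (m + 1)) {δ : ℝ} (hδ : 0 < δ) (hδ1 : δ ≤ 1 / 2) :
    ∃ C : ℝ, 0 ≤ C ∧ ∀ t Δ : ℝ, 1 ≤ t → 1 ≤ Δ →
      ε * (Real.pi ^ 3 * (m + 1).factorial * Δ ^ (m + 1) * Sn (m + 1) t) ≤
      1 / 2 * (Real.log (1 + t) * M0 ε θ (m + 1) / Δ) + C / Δ +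
        C * Real.exp (2 * Real.pi * Δ * (1 / 2 + δ)) + C * Δ ^ (m + 1) := by
  obtain ⟨K, C, x0, hK, hC, hx0, hmain⟩ := ineq_eta hRH h hδ hδ1
  obtain ⟨σ, hσ, hσ1⟩ := sig h.hn
  have hM0 := M0_nonneg h
  have hM1 := M1_nonneg h
  refine ⟨1 / 2 * M1 ε θ (m + 1) + K * M0 ε θ (m + 1) + C + Real.pi ^ 2 * C, by positivity, fun t Δ ht hΔ => ?_⟩
  have hΔ0 : 0 < Δ := by linarith
  have hlim : Tendsto (fun η : ℝ => KK m (1 / 2 + η) t) (𝓝[>] 0) (𝓝 (KK m (1 / 2) t)) := by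
    have h1 := KK_cont hRH m (x0 := 1 / 2) (y0 := t) le_rfl (by linarith)
    refine h1.comp (f := fun η : ℝ => ((1 / 2 + η : ℝ), t)) (tendsto_nhdsWithin_iff.2 ⟨?_, ?_⟩)
    · have : ContinuousAt (fun η : ℝ => ((1 / 2 + η : ℝ), t)) 0 := by fun_prop
      have h2 := this.tendsto
      simp only [add_zero] at h2
      exact h2.mono_left nhdsWithin_le_nhds
    · filter_upwards [self_mem_nhdsWithin] with η hη
      have hη' : (0:ℝ) < η := hη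
      exact ⟨by show (1:ℝ) / 2 ≤ 1 / 2 + η; linarith, by show (0:ℝ) ≤ t; linarith⟩
  have hL : Tendsto (fun η : ℝ => ε * (Real.pi ^ 2 * Δ ^ (m + 1) * σ * (m + 1 : ℕ) * (KK m (1 / 2 + η) t).im)) (𝓝[>] 0)
      (𝓝 (ε * (Real.pi ^ 2 * Δ ^ (m + 1) * σ * (m + 1 : ℕ) * (KK m (1 / 2) t).im))) :=
    (((Complex.continuous_im.tendsto _).comp hlim).const_mul _).const_mul _
  have hR : Tendsto (fun η : ℝ => (1 / 2 + K * η) * (Real.log (1 + t) * M0 ε θ (m + 1) / Δ + M1 ε θ (m + 1) / Δ) + K * M0 ε θ (m + 1) / Δ +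
        C * Real.exp (2 * Real.pi * Δ * (1 / 2 + δ)) + Real.pi ^ 2 * Δ ^ (m + 1) * C) (𝓝[>] 0)
      (𝓝 ((1 / 2 + K * 0) * (Real.log (1 + t) * M0 ε θ (m + 1) / Δ + M1 ε θ (m + 1) / Δ) + K * M0 ε θ (m + 1) / Δ +
        C * Real.exp (2 * Real.pi * Δ * (1 / 2 + δ)) + Real.pi ^ 2 * Δ ^ (m + 1) * C)) := by
    refine Tendsto.mono_left (Continuous.tendsto ?_ 0) nhdsWithin_le_nhds
    fun_prop
  have key := le_of_tendsto_of_tendsto hL hR (by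
    have h2 : ∀ᶠ η : ℝ in 𝓝[>] 0, η < x0 := (gt_mem_nhds hx0).filter_mono nhdsWithin_le_nhds
    filter_upwards [self_mem_nhdsWithin, h2] with η hη hη2
    exact hmain σ hσ hσ1 η t Δ hη hη2 ht hΔ)
  have hS : Real.pi ^ 3 * (m + 1).factorial * Δ ^ (m + 1) * Sn (m + 1) t =
      Real.pi ^ 2 * Δ ^ (m + 1) * σ * (m + 1 : ℕ) * (KK m (1 / 2) t).im := by
    rw [Sn_eq hRH m t (by linarith), ← hσ, Complex.im_ofReal_mul, Nat.factorial_succ]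
    have h3 : (m.factorial : ℝ) ≠ 0 := by positivity
    have hpi := Real.pi_ne_zero
    push_cast
    field_simp
  rw [hS]
  refine key.trans ?_
  have hexp : 0 ≤ Real.exp (2 * Real.pi * Δ * (1 / 2 + δ)) := (Real.exp_pos _).le
  have hpow : 0 ≤ Δ ^ (m + 1) := by positivity
  have q0 : (1 / 2 * M1 ε θ (m + 1) + K * M0 ε θ (m + 1) + C + Real.pi ^ 2 * C) / Δ =
      1 / 2 * M1 ε θ (m + 1) / Δ + K * M0 ε θ (m + 1) / Δ + (C + Real.pi ^ 2 * C) / Δ := by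
    ring
  have q1 : 0 ≤ (C + Real.pi ^ 2 * C) / Δ := by positivity
  have q2 : C * Real.exp (2 * Real.pi * Δ * (1 / 2 + δ)) ≤
      (1 / 2 * M1 ε θ (m + 1) + K * M0 ε θ (m + 1) + C + Real.pi ^ 2 * C) * Real.exp (2 * Real.pi * Δ * (1 / 2 + δ)) := by
    gcongr
    have : 0 ≤ 1 / 2 * M1 ε θ (m + 1) + K * M0 ε θ (m + 1) + Real.pi ^ 2 * C := by positivity
    linarith
  have q3 : Real.pi ^ 2 * Δ ^ (m + 1) * C ≤
      (1 / 2 * M1 ε θ (m + 1) + K * M0 ε θ (m + 1) + C + Real.pi ^ 2 * C) * Δ ^ (m + 1) := by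
    have : 0 ≤ (1 / 2 * M1 ε θ (m + 1) + K * M0 ε θ (m + 1) + C) * Δ ^ (m + 1) := by positivity
    linarith
  rw [q0]
  have q4 : (1 / 2 + K * 0) * (Real.log (1 + t) * M0 ε θ (m + 1) / Δ + M1 ε θ (m + 1) / Δ) =
      1 / 2 * (Real.log (1 + t) * M0 ε θ (m + 1) / Δ) + 1 / 2 * M1 ε θ (m + 1) / Δ := by ring
  rw [q4]
  linarith

end

end Pool.Agent.HH27.SN
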